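import Pool.Agent.H9.SD.Spc

/-!
Module Gib.  The power `X ^ J` finds the large eigenvalues.   Use only the STATEMENTS of Spc.
Put `Φ ψ = X^J (X - a) + a^(J+1)`.  `K * trace (Φ ψ) ≥ trace (Φ ψ * P ψ)` (as `K - P ψ` is positive semidefinite because `trace (P ψ) ≤ K`; trace of the product of two positive semidefinite matrices is `≥ 0`) and `trace (Φ ψ * P ψ) ≥ b^J * trace ((X ψ - b) * P ψ)`.  Sum over `ψ`:
`K * ∑ trace (Φ ψ) ≥ b^J * ρ * card Ψ`, and `∑ trace (Φ ψ) = ∑ trace (X^J (X - a)) + a^(J+1) * R * card Ψ`.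
-/

set_option autoImplicit false
set_option linter.unusedSectionVars false

open Finset

namespace Pool.Agent.H9.SD

open scoped MatrixOrder in
theorem Gib_factor {R : ℕ} (B : Matrix (Fin R) (Fin R) ℝ) (hB : B.PosSemidef) :
    ∃ D : Matrix (Fin R) (Fin R) ℝ, B = D.conjTranspose * D := by
  obtain ⟨D, hD⟩ := CStarAlgebra.nonneg_iff_eq_star_mul_self.mp hB.nonneg
  exact ⟨D, hD⟩

theorem Gib_tr {R : ℕ} (A B : Matrix (Fin R) (Fin R) ℝ) (hA : A.PosSemidef) (hB : B.PosSemidef) :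
    0 ≤ (A * B).trace := by
  obtain ⟨D, rfl⟩ := Gib_factor B hB
  rw [← Matrix.mul_assoc, Matrix.trace_mul_comm, ← Matrix.mul_assoc]
  exact (hA.mul_mul_conjTranspose_same D).trace_nonneg

theorem Gib_le {R : ℕ} (P : Matrix (Fin R) (Fin R) ℝ) (hP : P.PosSemidef) (K : ℝ) (hK : P.trace ≤ K) :
    (K • (1 : Matrix (Fin R) (Fin R) ℝ) - P).PosSemidef := by
  obtain ⟨D, rfl⟩ := Gib_factor P hP
  have h1 : (K • (1 : Matrix (Fin R) (Fin R) ℝ) - D.conjTranspose * D).IsHermitian := by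
    refine Matrix.IsHermitian.sub ?_ (Matrix.isHermitian_conjTranspose_mul_self D)
    rw [Matrix.IsHermitian, Matrix.conjTranspose_smul, Matrix.conjTranspose_one]
    simp
  refine Matrix.PosSemidef.of_dotProduct_mulVec_nonneg h1 fun x => ?_
  have h2 : star x ⬝ᵥ ((K • (1 : Matrix (Fin R) (Fin R) ℝ) - D.conjTranspose * D).mulVec x) =
      K * (∑ j, x j ^ 2) - ∑ i, (∑ j, D i j * x j) ^ 2 := by
    rw [Matrix.sub_mulVec, dotProduct_sub, Matrix.smul_mulVec, Matrix.one_mulVec, dotProduct_smul,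
      ← Matrix.mulVec_mulVec, Matrix.dotProduct_mulVec, Matrix.vecMul_conjTranspose]
    simp only [star_trivial, dotProduct, Matrix.mulVec, smul_eq_mul]
    congr 1
    · congr 1
      exact sum_congr rfl fun j _ => (sq (x j)).symm
    · exact sum_congr rfl fun i _ => (sq _).symm
  rw [h2]
  have h3 : (D.conjTranspose * D).trace = ∑ i, ∑ j, D i j ^ 2 := by
    simp only [Matrix.trace, Matrix.diag_apply, Matrix.mul_apply, Matrix.conjTranspose_apply, star_trivial]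
    rw [sum_comm]
    exact sum_congr rfl fun i _ => sum_congr rfl fun j _ => (sq _).symm
  have h4 : ∑ i, (∑ j, D i j * x j) ^ 2 ≤ (∑ i, ∑ j, D i j ^ 2) * ∑ j, x j ^ 2 := by
    rw [sum_mul]
    exact sum_le_sum fun i _ => sum_mul_sq_le_sq_mul_sq univ (fun j => D i j) x
  have h5 : 0 ≤ ∑ j, x j ^ 2 := sum_nonneg fun j _ => sq_nonneg _
  rw [← h3] at h4
  nlinarith [mul_le_mul_of_nonneg_right hK h5]

theorem Gib_main {Ψ : Type} [Fintype Ψ] [Nonempty Ψ] {R : ℕ} (X P : Ψ → Matrix (Fin R) (Fin R) ℝ)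
    (hX : ∀ ψ, (X ψ).PosSemidef) (hP : ∀ ψ, (P ψ).PosSemidef) (K : ℝ) (hK0 : 0 < K) (hK : ∀ ψ, (P ψ).trace ≤ K)
    (a b ρ : ℝ) (ha : 0 ≤ a) (hab : a ≤ b)
    (hval : ρ * Fintype.card Ψ ≤ ∑ ψ, ((X ψ - b • 1) * P ψ).trace) (J : ℕ)
    (hJ : K * R * a ^ (J + 1) < b ^ J * ρ) :
    0 < ∑ ψ, (X ψ ^ J * (X ψ - a • 1)).trace := by
  have hstep : ∀ ψ, b ^ J * ((X ψ - b • 1) * P ψ).trace ≤
      K * (X ψ ^ J * (X ψ - a • 1)).trace + K * R * a ^ (J + 1) := by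
    intro ψ
    obtain ⟨Φ, hΦ⟩ : ∃ Φ, Φ = X ψ ^ J * (X ψ - a • 1) + a ^ (J + 1) • (1 : Matrix (Fin R) (Fin R) ℝ) :=
      ⟨_, rfl⟩
    have h1 : Φ.PosSemidef := by
      rw [hΦ]
      exact Spc_one (X ψ) (hX ψ) a ha J
    have h2 : (Φ - b ^ J • (X ψ - b • 1)).PosSemidef := by
      rw [hΦ]
      exact Spc_two (X ψ) (hX ψ) a b ha hab J
    have h3 := Gib_tr Φ _ h1 (Gib_le (P ψ) (hP ψ) K (hK ψ))
    have h4 := Gib_tr _ (P ψ) h2 (hP ψ)
    rw [Matrix.mul_sub, Matrix.mul_smul, Matrix.mul_one, Matrix.trace_sub, Matrix.trace_smul,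
      smul_eq_mul] at h3
    rw [Matrix.sub_mul, Matrix.smul_mul, Matrix.trace_sub, Matrix.trace_smul, smul_eq_mul] at h4
    have h5 : Φ.trace = (X ψ ^ J * (X ψ - a • 1)).trace + a ^ (J + 1) * R := by
      rw [hΦ, Matrix.trace_add, Matrix.trace_smul, Matrix.trace_one, smul_eq_mul, Fintype.card_fin]
    rw [h5] at h3
    nlinarith
  have hsum : b ^ J * ∑ ψ, ((X ψ - b • 1) * P ψ).trace ≤
      K * ∑ ψ, (X ψ ^ J * (X ψ - a • 1)).trace + (Fintype.card Ψ : ℝ) * (K * R * a ^ (J + 1)) := by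
    rw [mul_sum, mul_sum]
    refine (sum_le_sum fun ψ _ => hstep ψ).trans ?_
    rw [sum_add_distrib, sum_const, nsmul_eq_mul, card_univ]
  have hb : 0 ≤ b ^ J := pow_nonneg (ha.trans hab) J
  have hcard : (0 : ℝ) < Fintype.card Ψ := by exact_mod_cast Fintype.card_pos
  have h6 : (Fintype.card Ψ : ℝ) * (K * R * a ^ (J + 1)) < (Fintype.card Ψ : ℝ) * (b ^ J * ρ) :=
    mul_lt_mul_of_pos_left hJ hcard
  have h7 := mul_le_mul_of_nonneg_left hval hb
  have h8 : 0 < K * ∑ ψ, (X ψ ^ J * (X ψ - a • 1)).trace := by nlinarith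
  exact (mul_pos_iff_of_pos_left hK0).mp h8

end Pool.Agent.H9.SD
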