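import Pool.Agent.H9.SD.Defs

/-!
Module Hit.  How often a random injection hits a small set.
If `s < (B ∩ im F).card` there is `J : Finset (Fin k)` with `J.card = s + 1` and `F i ∈ B` for `i ∈ J` (`(k.choose (s+1))` choices of `J`).  For fixed `J` (with `r = s + 1 ≤ k` elements) the number of injections `F : Fin k ↪ Fin N` with `F i ∈ B` for `i ∈ J` is
`|B|.descFactorial r * (N - r).descFactorial (k - r)`, the number of all injections is `N.descFactorial r * (N - r).descFactorial (k - r)`, and `|B|.descFactorial r * N ^ r ≤ |B| ^ r * N.descFactorial r` (`(b - i) N ≤ b (N - i)` for `b ≤ N`).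
Other way: by symmetry / induction on `J`: for every set `J` and `i ∉ J`, (number with `F i ∈ B` for `i ∈ insert i J`) * N ≤ |B| * (number with ... `J`): average over the permutations (compose `F` with swaps of the value at `i`).  Any proof is fine.
-/

set_option autoImplicit false
set_option linter.unusedSectionVars false

open Finset

namespace Pool.Agent.H9.SD

/-- one more element: swap the value at `i` -/
theorem Hit_step {N k : ℕ} (B : Finset (Fin N)) (J : Finset (Fin k)) (i : Fin k) (hi : i ∉ J) :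
    (univ.filter (fun F : Fin k ↪ Fin N => ∀ j ∈ insert i J, F j ∈ B)).card * N ≤
      (univ.filter (fun F : Fin k ↪ Fin N => ∀ j ∈ J, F j ∈ B)).card * B.card := by
  have hN : (univ : Finset (Fin N)).card = N := by simp
  calc (univ.filter (fun F : Fin k ↪ Fin N => ∀ j ∈ insert i J, F j ∈ B)).card * N
      = ((univ.filter (fun F : Fin k ↪ Fin N => ∀ j ∈ insert i J, F j ∈ B)) ×ˢ
          (univ : Finset (Fin N))).card := by rw [Finset.card_product, hN]
    _ ≤ ((univ.filter (fun F : Fin k ↪ Fin N => ∀ j ∈ J, F j ∈ B)) ×ˢ B).card := by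
        refine Finset.card_le_card_of_injOn
          (fun p : (Fin k ↪ Fin N) × Fin N =>
            (p.1.trans (Equiv.swap (p.1 i) p.2).toEmbedding, p.1 i)) ?_ ?_
        · rintro ⟨F, y⟩ h
          have h1 : ∀ j ∈ insert i J, F j ∈ B := by simpa using h
          have hiB : F i ∈ B := h1 i (Finset.mem_insert_self _ _)
          have h2 : (∀ j ∈ J, (F.trans (Equiv.swap (F i) y).toEmbedding) j ∈ B) ∧ F i ∈ B := by
            refine ⟨fun j hj => ?_, hiB⟩
            have hj1 : F j ∈ B := h1 j (Finset.mem_insert_of_mem hj)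
            have hji : F j ≠ F i := fun e => hi (F.injective e ▸ hj)
            change Equiv.swap (F i) y (F j) ∈ B
            by_cases hy : F j = y
            · rw [hy, Equiv.swap_apply_right]
              exact hiB
            · rw [Equiv.swap_apply_of_ne_of_ne hji hy]
              exact hj1
          simpa using h2
        · rintro ⟨F, y⟩ _ ⟨G, z⟩ _ h
          have h1 : F.trans (Equiv.swap (F i) y).toEmbedding = G.trans (Equiv.swap (G i) z).toEmbedding :=
            congrArg Prod.fst h
          have h2 : F i = G i := congrArg Prod.snd h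
          have h3 : y = z := by
            have h4 := congrArg (fun E : Fin k ↪ Fin N => E i) h1
            change Equiv.swap (F i) y (F i) = Equiv.swap (G i) z (G i) at h4
            rwa [Equiv.swap_apply_left, Equiv.swap_apply_left] at h4
          have h5 : F = G := by
            ext j
            have h4 := congrArg (fun E : Fin k ↪ Fin N => E j) h1
            change Equiv.swap (F i) y (F j) = Equiv.swap (G i) z (G j) at h4
            rw [h2, h3] at h4
            exact congrArg Fin.val ((Equiv.swap (G i) z).injective h4)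
          rw [h5, h3]
    _ = _ := Finset.card_product _ _

theorem Hit_J {N k : ℕ} (hk : k ≤ N) (B : Finset (Fin N)) (J : Finset (Fin k)) :
    (univ.filter (fun F : Fin k ↪ Fin N => ∀ i ∈ J, F i ∈ B)).card * N ^ J.card ≤
      B.card ^ J.card * Fintype.card (Fin k ↪ Fin N) := by
  induction J using Finset.induction_on with
  | empty => simp
  | insert i J hi ih =>
    rw [Finset.card_insert_of_notMem hi]
    calc (univ.filter (fun F : Fin k ↪ Fin N => ∀ j ∈ insert i J, F j ∈ B)).card * N ^ (J.card + 1)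
        = ((univ.filter (fun F : Fin k ↪ Fin N => ∀ j ∈ insert i J, F j ∈ B)).card * N) * N ^ J.card := by
          rw [pow_succ]; ring
      _ ≤ ((univ.filter (fun F : Fin k ↪ Fin N => ∀ j ∈ J, F j ∈ B)).card * B.card) * N ^ J.card :=
          Nat.mul_le_mul_right _ (Hit_step B J i hi)
      _ = B.card * ((univ.filter (fun F : Fin k ↪ Fin N => ∀ j ∈ J, F j ∈ B)).card * N ^ J.card) := by
          ring
      _ ≤ B.card * (B.card ^ J.card * Fintype.card (Fin k ↪ Fin N)) := Nat.mul_le_mul_left _ ih
      _ = B.card ^ (J.card + 1) * Fintype.card (Fin k ↪ Fin N) := by rw [pow_succ]; ring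

theorem Hit_sub {N k : ℕ} (s : ℕ) (B : Finset (Fin N)) :
    (univ.filter (fun F : Fin k ↪ Fin N => s < (B ∩ im F).card)) ⊆
      ((univ : Finset (Fin k)).powersetCard (s + 1)).biUnion
        (fun J => univ.filter (fun F : Fin k ↪ Fin N => ∀ i ∈ J, F i ∈ B)) := by
  intro F hF
  have h1 : s < (B ∩ im F).card := by simpa using hF
  have h2 : B ∩ im F = (univ.filter (fun i : Fin k => F i ∈ B)).map F := by
    ext y
    simp only [im, Finset.mem_inter, Finset.mem_map, Finset.mem_filter, Finset.mem_univ, true_and]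
    constructor
    · rintro ⟨hy, i, rfl⟩
      exact ⟨i, hy, rfl⟩
    · rintro ⟨i, hi, rfl⟩
      exact ⟨hi, i, rfl⟩
  rw [h2, Finset.card_map] at h1
  obtain ⟨J, hJ, hJc⟩ := Finset.exists_subset_card_eq (Nat.succ_le_of_lt h1)
  refine Finset.mem_biUnion.2 ⟨J, Finset.mem_powersetCard.2 ⟨Finset.subset_univ _, hJc⟩, ?_⟩
  refine Finset.mem_filter.2 ⟨Finset.mem_univ _, fun i hi => ?_⟩
  exact (Finset.mem_filter.1 (hJ hi)).2

theorem Hit_main {N k : ℕ} (hk : k ≤ N) (hN : 0 < N) (s m : ℕ) (B : Finset (Fin N)) (hB : B.card ≤ m) :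
    ((univ.filter (fun F : Fin k ↪ Fin N => s < (B ∩ im F).card)).card : ℝ) ≤
      ((k.choose (s + 1) : ℝ) * ((m : ℝ) / N) ^ (s + 1)) * Fintype.card (Fin k ↪ Fin N) := by
  have hN' : (0 : ℝ) < (N : ℝ) := by exact_mod_cast hN
  have h1 := Finset.card_le_card (Hit_sub (k := k) s B)
  have h2 := h1.trans Finset.card_biUnion_le
  have h3 : ((univ.filter (fun F : Fin k ↪ Fin N => s < (B ∩ im F).card)).card : ℝ) ≤
      ∑ J ∈ (univ : Finset (Fin k)).powersetCard (s + 1),
        ((univ.filter (fun F : Fin k ↪ Fin N => ∀ i ∈ J, F i ∈ B)).card : ℝ) := by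
    exact_mod_cast h2
  have h4 : ∀ J ∈ (univ : Finset (Fin k)).powersetCard (s + 1),
      ((univ.filter (fun F : Fin k ↪ Fin N => ∀ i ∈ J, F i ∈ B)).card : ℝ) ≤
        ((m : ℝ) / N) ^ (s + 1) * Fintype.card (Fin k ↪ Fin N) := by
    intro J hJ
    have hJc : J.card = s + 1 := (Finset.mem_powersetCard.1 hJ).2
    have h5 := Hit_J hk B J
    rw [hJc] at h5
    have h6 : ((univ.filter (fun F : Fin k ↪ Fin N => ∀ i ∈ J, F i ∈ B)).card : ℝ) * (N : ℝ) ^ (s + 1) ≤
        (B.card : ℝ) ^ (s + 1) * (Fintype.card (Fin k ↪ Fin N) : ℝ) := by exact_mod_cast h5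
    have h7 : (B.card : ℝ) ^ (s + 1) ≤ (m : ℝ) ^ (s + 1) :=
      pow_le_pow_left₀ (Nat.cast_nonneg _) (by exact_mod_cast hB) _
    have h8 : ((univ.filter (fun F : Fin k ↪ Fin N => ∀ i ∈ J, F i ∈ B)).card : ℝ) * (N : ℝ) ^ (s + 1) ≤
        (m : ℝ) ^ (s + 1) * (Fintype.card (Fin k ↪ Fin N) : ℝ) :=
      h6.trans (mul_le_mul_of_nonneg_right h7 (Nat.cast_nonneg _))
    rw [div_pow, div_mul_eq_mul_div, le_div_iff₀ (pow_pos hN' _)]
    exact h8
  refine h3.trans ((Finset.sum_le_sum h4).trans (le_of_eq ?_))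
  rw [Finset.sum_const, Finset.card_powersetCard, Finset.card_univ, Fintype.card_fin, nsmul_eq_mul,
    mul_assoc]

end Pool.Agent.H9.SD
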