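import Pool.Agent.H9.SD.Defs

/-!
Module Loc.  Local functions.
`Loc_mul`: `g'' E = ∑ C, ∑ C' with C ∪ C' = E, g C * g' C'`.  `Loc_pow`: induction on `d` (`Loc_one` for `d = 0`: `Loc 0` of constants, `Loc_mul`, `Loc_sum`).
-/

set_option autoImplicit false
set_option linter.unusedSectionVars false

open Finset

namespace Pool.Agent.H9.SD

variable {ι A : Type} [Fintype ι] [DecidableEq ι] [Fintype A] [DecidableEq A]

theorem Loc_dep (m : ℕ) (C : Finset ι) (hC : C.card ≤ m) (h : (ι → A) → ℝ) (hh : Dep C h) : Loc m h := by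
  refine ⟨fun C' ψ => if C' = C then h ψ else 0, ?_, ?_, ?_⟩
  · intro C' ψ ψ' hψ
    dsimp only
    by_cases hc : C' = C
    · subst hc
      rw [if_pos rfl, if_pos rfl]
      exact hh ψ ψ' hψ
    · rw [if_neg hc, if_neg hc]
  · intro C' hC' ψ
    dsimp only
    rw [if_neg]
    rintro rfl
    omega
  · intro ψ
    rw [Finset.sum_ite_eq' univ C (fun _ => h ψ), if_pos (Finset.mem_univ _)]

theorem Loc_const (m : ℕ) (c : ℝ) : Loc m (fun _ : ι → A => c) :=
  Loc_dep m ∅ (by simp) _ (fun _ _ _ => rfl)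

theorem Loc_sum {κ : Type} (S : Finset κ) (m : ℕ) (h : κ → (ι → A) → ℝ) (hh : ∀ j ∈ S, Loc m (h j)) :
    Loc m (fun ψ => ∑ j ∈ S, h j ψ) := by
  choose! g hg1 hg2 hg3 using hh
  refine ⟨fun C ψ => ∑ j ∈ S, g j C ψ, ?_, ?_, ?_⟩
  · intro C ψ ψ' hψ
    exact Finset.sum_congr rfl fun j hj => hg1 j hj C ψ ψ' hψ
  · intro C hC ψ
    exact Finset.sum_eq_zero fun j hj => hg2 j hj C hC ψ
  · intro ψ
    dsimp only
    rw [Finset.sum_comm]
    exact Finset.sum_congr rfl fun j hj => hg3 j hj ψ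

theorem Loc_mul (m m' : ℕ) (h h' : (ι → A) → ℝ) (hh : Loc m h) (hh' : Loc m' h') :
    Loc (m + m') (fun ψ => h ψ * h' ψ) := by
  obtain ⟨g, h1, h2, h3⟩ := hh
  obtain ⟨g', h1', h2', h3'⟩ := hh'
  refine ⟨fun E ψ => ∑ C, ∑ C', if C ∪ C' = E then g C ψ * g' C' ψ else 0, ?_, ?_, ?_⟩
  · intro E ψ ψ' hψ
    refine Finset.sum_congr rfl fun C _ => Finset.sum_congr rfl fun C' _ => ?_
    by_cases hE : C ∪ C' = E
    · rw [if_pos hE, if_pos hE]
      rw [h1 C ψ ψ' fun v hv => hψ v (by rw [← hE]; exact Finset.mem_union_left _ hv),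
        h1' C' ψ ψ' fun v hv => hψ v (by rw [← hE]; exact Finset.mem_union_right _ hv)]
    · rw [if_neg hE, if_neg hE]
  · intro E hE ψ
    refine Finset.sum_eq_zero fun C _ => Finset.sum_eq_zero fun C' _ => ?_
    by_cases hE' : C ∪ C' = E
    · rw [if_pos hE']
      have h4 : E.card ≤ C.card + C'.card := by
        rw [← hE']
        exact Finset.card_union_le _ _
      by_cases h5 : m < C.card
      · rw [h2 C h5, zero_mul]
      · rw [h2' C' (by omega), mul_zero]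
    · rw [if_neg hE']
  · intro ψ
    dsimp only
    rw [h3, h3', Finset.sum_mul_sum]
    symm
    rw [Finset.sum_comm]
    refine Finset.sum_congr rfl fun C _ => ?_
    rw [Finset.sum_comm]
    refine Finset.sum_congr rfl fun C' _ => ?_
    rw [Finset.sum_ite_eq univ (C ∪ C') (fun _ => g C ψ * g' C' ψ), if_pos (Finset.mem_univ _)]

theorem Loc_pow {R : ℕ} (m d : ℕ) (X : (ι → A) → Matrix (Fin R) (Fin R) ℝ) (hX : ∀ a b, Loc m (fun ψ => X ψ a b))
    (a b : Fin R) : Loc (d * m) (fun ψ => (X ψ ^ d) a b) := by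
  induction d generalizing b with
  | zero =>
    have h1 : (fun ψ => (X ψ ^ 0) a b) = fun _ : ι → A => (1 : Matrix (Fin R) (Fin R) ℝ) a b := by
      funext ψ
      rw [pow_zero]
    rw [h1]
    exact Loc_const _ _
  | succ d ih =>
    have h1 : (fun ψ => (X ψ ^ (d + 1)) a b) = fun ψ => ∑ c, (X ψ ^ d) a c * X ψ c b := by
      funext ψ
      rw [pow_succ, Matrix.mul_apply]
    rw [h1, Nat.succ_mul]
    exact Loc_sum univ _ _ fun c _ => Loc_mul _ _ _ _ (ih c) (hX c b)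

end Pool.Agent.H9.SD
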