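import Mathlib

/-!
Module Nrm.  Normalising a factorisation.
`M = (1 / card Φ) ∑ F, Q F + δ • 1` with `δ > 0` and `δ * trace (P ψ) ≤ 1` for all `ψ`.  `M` is positive definite, `M = Cᵀ * C` with `C` invertible.  `P' ψ = C * P ψ * Cᵀ`, `Q' F = (C⁻¹)ᵀ * Q F * C⁻¹`.  `trace (P' ψ * Q' F) = trace (P ψ * Q F)`,
`trace (P' ψ) = trace (P ψ * M) = (1 / card Φ) ∑ F, trace (P ψ * Q F) + δ * trace (P ψ) ≤ K + 1`, `1 - (1 / card Φ) ∑ F, Q' F = δ (C⁻¹)ᵀ * C⁻¹`.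
-/

set_option autoImplicit false
set_option linter.unusedSectionVars false

open Finset

namespace Pool.Agent.H9.SD

theorem Nrm_delta {Ψ : Type} [Fintype Ψ] (t : Ψ → ℝ) (ht : ∀ ψ, 0 ≤ t ψ) :
    ∃ δ : ℝ, 0 < δ ∧ ∀ ψ, δ * t ψ ≤ 1 := by
  classical
  have h0 : 0 ≤ ∑ ψ, t ψ := Finset.sum_nonneg fun ψ _ => ht ψ
  have hpos : 0 < 1 + ∑ ψ, t ψ := by linarith
  refine ⟨(1 + ∑ ψ, t ψ)⁻¹, inv_pos.2 hpos, fun ψ => ?_⟩
  have h1 : t ψ ≤ ∑ ψ, t ψ := Finset.single_le_sum (fun ψ _ => ht ψ) (Finset.mem_univ ψ)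
  rw [inv_mul_le_iff₀ hpos]
  linarith

theorem Nrm_main {Ψ Φ : Type} [Fintype Ψ] [Nonempty Ψ] [Fintype Φ] [Nonempty Φ] {R : ℕ}
    (P : Ψ → Matrix (Fin R) (Fin R) ℝ) (Q : Φ → Matrix (Fin R) (Fin R) ℝ)
    (hP : ∀ ψ, (P ψ).PosSemidef) (hQ : ∀ F, (Q F).PosSemidef) (K : ℝ) (hK : ∀ ψ F, (P ψ * Q F).trace ≤ K) :
    ∃ (P' : Ψ → Matrix (Fin R) (Fin R) ℝ) (Q' : Φ → Matrix (Fin R) (Fin R) ℝ),
      (∀ ψ, (P' ψ).PosSemidef) ∧ (∀ F, (Q' F).PosSemidef) ∧ (∀ ψ F, (P' ψ * Q' F).trace = (P ψ * Q F).trace) ∧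
      (∀ ψ, (P' ψ).trace ≤ K + 1) ∧
      ((1 : Matrix (Fin R) (Fin R) ℝ) - (1 / (Fintype.card Φ : ℝ)) • ∑ F, Q' F).PosSemidef := by
  classical
  obtain ⟨δ, hδ, hδt⟩ := Nrm_delta (fun ψ => (P ψ).trace) fun ψ => (hP ψ).trace_nonneg
  have hn : (0 : ℝ) < (Fintype.card Φ : ℝ) := by exact_mod_cast Fintype.card_pos
  have hc : (0 : ℝ) ≤ 1 / (Fintype.card Φ : ℝ) := by positivity
  set c : ℝ := 1 / (Fintype.card Φ : ℝ) with hcdef
  have hSum : (∑ F, Q F).PosSemidef := Matrix.posSemidef_sum _ fun F _ => hQ F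
  have hS : (c • ∑ F, Q F).PosSemidef := hSum.smul hc
  have hD : (δ • (1 : Matrix (Fin R) (Fin R) ℝ)).PosDef := Matrix.PosDef.one.smul hδ
  set M : Matrix (Fin R) (Fin R) ℝ := c • ∑ F, Q F + δ • (1 : Matrix (Fin R) (Fin R) ℝ) with hM
  have hMd : M.PosDef := hD.posSemidef_add hS
  obtain ⟨C, hC'⟩ : ∃ C : Matrix (Fin R) (Fin R) ℝ, M = star C * C := by
    open MatrixOrder in
    exact CStarAlgebra.nonneg_iff_eq_star_mul_self.mp hMd.posSemidef.nonneg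
  have hC : M = C.conjTranspose * C := hC'
  have hCu : IsUnit C := by
    have h1 : IsUnit M := hMd.isUnit
    rw [Matrix.isUnit_iff_isUnit_det] at h1 ⊢
    rw [hC, Matrix.det_mul] at h1
    exact isUnit_of_mul_isUnit_right h1
  have hCd : IsUnit C.det := (Matrix.isUnit_iff_isUnit_det C).1 hCu
  have e1 : C⁻¹ * C = 1 := Matrix.nonsing_inv_mul C hCd
  have e2 : C * C⁻¹ = 1 := Matrix.mul_nonsing_inv C hCd
  have e3 : C.conjTranspose * (C⁻¹).conjTranspose = 1 := by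
    rw [← Matrix.conjTranspose_mul, e1, Matrix.conjTranspose_one]
  have e4 : (C⁻¹).conjTranspose * C.conjTranspose = 1 := by
    rw [← Matrix.conjTranspose_mul, e2, Matrix.conjTranspose_one]
  refine ⟨fun ψ => C * P ψ * C.conjTranspose, fun F => (C⁻¹).conjTranspose * Q F * C⁻¹,
    fun ψ => (hP ψ).mul_mul_conjTranspose_same C, fun F => (hQ F).conjTranspose_mul_mul_same C⁻¹,
    ?_, ?_, ?_⟩
  · intro ψ F
    have h1 : C * P ψ * C.conjTranspose * ((C⁻¹).conjTranspose * Q F * C⁻¹)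
        = C * (P ψ * (C.conjTranspose * (C⁻¹).conjTranspose) * Q F * C⁻¹) := by
      simp only [Matrix.mul_assoc]
    rw [h1, e3, Matrix.mul_one, Matrix.trace_mul_comm, Matrix.mul_assoc, e1, Matrix.mul_one]
  · intro ψ
    have h1 : (C * P ψ * C.conjTranspose).trace = (P ψ * M).trace := by
      rw [Matrix.mul_assoc, Matrix.trace_mul_comm, Matrix.mul_assoc, ← hC]
    have h2 : (P ψ * M).trace = c * ∑ F, (P ψ * Q F).trace + δ * (P ψ).trace := by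
      rw [hM, Matrix.mul_add, Matrix.trace_add, Matrix.mul_smul, Matrix.trace_smul,
        Matrix.mul_smul, Matrix.trace_smul, Matrix.mul_one, Matrix.mul_sum, Matrix.trace_sum]
      rfl
    have h3 : ∑ F, (P ψ * Q F).trace ≤ (Fintype.card Φ : ℝ) * K := by
      calc ∑ F, (P ψ * Q F).trace ≤ ∑ _F : Φ, K := Finset.sum_le_sum fun F _ => hK ψ F
        _ = (Fintype.card Φ : ℝ) * K := by
          rw [Finset.sum_const, Finset.card_univ, nsmul_eq_mul]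
    have h4 : c * ∑ F, (P ψ * Q F).trace ≤ K := by
      calc c * ∑ F, (P ψ * Q F).trace ≤ c * ((Fintype.card Φ : ℝ) * K) :=
            mul_le_mul_of_nonneg_left h3 hc
        _ = K := by
          rw [hcdef]
          field_simp
    have h5 := hδt ψ
    show (C * P ψ * C.conjTranspose).trace ≤ K + 1
    rw [h1, h2]
    exact add_le_add h4 h5
  · have h1 : (1 : Matrix (Fin R) (Fin R) ℝ)
        - c • ∑ F, (C⁻¹).conjTranspose * Q F * C⁻¹
        = δ • ((C⁻¹).conjTranspose * C⁻¹) := by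
      have h2 : ∑ F, (C⁻¹).conjTranspose * Q F * C⁻¹
          = (C⁻¹).conjTranspose * (∑ F, Q F) * C⁻¹ := by
        rw [Matrix.mul_sum, Matrix.sum_mul]
      have h3 : c • ∑ F, Q F = M - δ • (1 : Matrix (Fin R) (Fin R) ℝ) := by
        rw [hM]
        abel
      have h4 : c • ((C⁻¹).conjTranspose * (∑ F, Q F) * C⁻¹)
          = (C⁻¹).conjTranspose * (c • ∑ F, Q F) * C⁻¹ := by
        rw [Matrix.mul_smul, Matrix.smul_mul]
      have h5 : (C⁻¹).conjTranspose * M * C⁻¹ = 1 := by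
        rw [hC]
        calc (C⁻¹).conjTranspose * (C.conjTranspose * C) * C⁻¹
            = ((C⁻¹).conjTranspose * C.conjTranspose) * (C * C⁻¹) := by
              simp only [Matrix.mul_assoc]
          _ = 1 := by rw [e4, e2, Matrix.one_mul]
      rw [h2, h4, h3, Matrix.mul_sub, Matrix.sub_mul, h5, Matrix.mul_smul, Matrix.mul_one,
        Matrix.smul_mul]
      abel
    show ((1 : Matrix (Fin R) (Fin R) ℝ)
        - c • ∑ F, (C⁻¹).conjTranspose * Q F * C⁻¹).PosSemidef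
    rw [h1]
    exact (Matrix.posSemidef_conjTranspose_mul_self C⁻¹).smul hδ.le

end Pool.Agent.H9.SD
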