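import Pool.Agent.H9.SD.Sum
import Pool.Agent.H9.SD.Loc
import Pool.Agent.H9.SD.Hit
import Pool.Agent.H9.SD.Gib
import Pool.Agent.H9.SD.Nrm

/-!
Module Abs.  The abstract lower bound.
-/

set_option autoImplicit false
set_option linter.unusedSectionVars false

open Finset

namespace Pool.Agent.H9.SD

theorem Abs_psd_sum {R : ℕ} {κ : Type} (S : Finset κ) (M : κ → Matrix (Fin R) (Fin R) ℝ)
    (h : ∀ j ∈ S, (M j).PosSemidef) : (∑ j ∈ S, M j).PosSemidef := by
  classical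
  induction S using Finset.induction_on with
  | empty =>
    rw [Finset.sum_empty]
    exact Matrix.PosSemidef.zero
  | insert a S ha ih =>
    rw [Finset.sum_insert ha]
    exact (h a (mem_insert_self a S)).add (ih (fun j hj => h j (mem_insert_of_mem hj)))

theorem Abs_main {k N R s d : ℕ} {A : Type} [Fintype A] [DecidableEq A] [Nonempty A] (hkN : k ≤ N) (hN : 0 < N)
    (hR : 1 ≤ R) (D f : (Fin k → A) → ℝ) (L K0 ρ η : ℝ) (hL1 : 1 ≤ L) (hL : ∀ x, |D x| ≤ L)
    (hD : ∀ q : (Fin k → A) → ℝ, LowDeg s q → 0 ≤ ∑ x, D x * q x ^ 2) (hK0 : 0 ≤ K0) (hf : ∀ x, f x ≤ K0)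
    (hρ : 0 < ρ) (hval : ∑ x, D x * f x = -ρ * (Fintype.card A : ℝ) ^ k)
    (P : (Fin N → A) → Matrix (Fin R) (Fin R) ℝ) (Q : (Fin k ↪ Fin N) → Matrix (Fin R) (Fin R) ℝ)
    (hP : ∀ ψ, (P ψ).PosSemidef) (hQ : ∀ F, (Q F).PosSemidef)
    (hPQ : ∀ (ψ : Fin N → A) (F : Fin k ↪ Fin N), (P ψ * Q F).trace = f (ψ ∘ F))
    (hη : 0 < η)
    (h1 : (K0 + 1) * R * (L + ρ / (8 * (K0 + 1))) ^ (2 * d + 1) <
      (L + 2 * (ρ / (8 * (K0 + 1)))) ^ (2 * d) * (ρ / 4))
    (h2 : L * (η + (1 + 1 / η) * (2 * R * ((k.choose (s + 1) : ℝ) * (((d * k : ℕ) : ℝ) / N) ^ (s + 1)))) <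
        ρ / (8 * (K0 + 1))) : False := by
  classical
  have hemb : Nonempty (Fin k ↪ Fin N) := ⟨Fin.castLEEmb hkN⟩
  obtain ⟨P', Q', hP', hQ', hPQ', hK', hQ1⟩ := Nrm_main P Q hP hQ K0 (fun ψ F => by rw [hPQ]; exact hf _)
  set c : ℝ := (Fintype.card (Fin k ↪ Fin N) : ℝ) with hc
  have hc0 : 0 < Fintype.card (Fin k ↪ Fin N) := Fintype.card_pos
  have hcpos : 0 < c := by
    rw [hc]
    exact_mod_cast hc0
  set S : Finset (Fin k ↪ Fin N) := univ.filter (fun F => (Q' F).trace ≤ 2 * R) with hS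
  have hR0 : (0 : ℝ) < R := by exact_mod_cast (by omega : 0 < R)
  have hL0 : 0 ≤ L := by linarith
  -- many good `F`
  have hScard : c / 2 ≤ S.card := by
    have h3 : 0 ≤ ((1 : Matrix (Fin R) (Fin R) ℝ) - (1 / c) • ∑ F, Q' F).trace := hQ1.trace_nonneg
    rw [Matrix.trace_sub, Matrix.trace_one, Fintype.card_fin, Matrix.trace_smul, Matrix.trace_sum, smul_eq_mul] at h3
    have h4 : ∑ F, (Q' F).trace ≤ c * R := by
      have h5 : (1 / c) * ∑ F, (Q' F).trace ≤ R := by linarith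
      rw [one_div, inv_mul_le_iff₀ hcpos] at h5
      exact h5
    have h5 : (2 * (R : ℝ)) * ((univ \ S).card : ℝ) ≤ ∑ F, (Q' F).trace := by
      calc (2 * (R : ℝ)) * ((univ \ S).card : ℝ) = ∑ F ∈ univ \ S, (2 * (R : ℝ)) := by
            rw [Finset.sum_const, nsmul_eq_mul]
            ring
        _ ≤ ∑ F ∈ univ \ S, (Q' F).trace := by
            refine Finset.sum_le_sum fun F hF => ?_
            rw [mem_sdiff, hS, mem_filter] at hF
            by_contra h6
            push Not at h6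
            exact hF.2 ⟨mem_univ _, h6.le⟩
        _ ≤ ∑ F, (Q' F).trace :=
            Finset.sum_le_sum_of_subset_of_nonneg (subset_univ _) (fun F _ _ => (hQ' F).trace_nonneg)
    have h6 : ((univ \ S).card : ℝ) + S.card = c := by
      rw [hc, ← Finset.card_univ]
      exact_mod_cast Finset.card_sdiff_add_card_eq_card (subset_univ S)
    nlinarith
  set ρ' : ℝ := ρ / (8 * (K0 + 1)) with hρ'
  have hρ'0 : 0 < ρ' := by positivity
  set Λ : (Fin N → A) → Matrix (Fin R) (Fin R) ℝ := fun ψ => (1 / c) • ∑ F ∈ S, D (ψ ∘ F) • Q' F with hΛ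
  set X : (Fin N → A) → Matrix (Fin R) (Fin R) ℝ := fun ψ => L • (1 : Matrix (Fin R) (Fin R) ℝ) - Λ ψ with hX
  have hXpsd : ∀ ψ, (X ψ).PosSemidef := by
    intro ψ
    have h3 : X ψ = L • ((1 : Matrix (Fin R) (Fin R) ℝ) - (1 / c) • ∑ F, Q' F) +
        (1 / c) • ∑ F, (L - if F ∈ S then D (ψ ∘ F) else 0) • Q' F := by
      have h4 : ∑ F, (L - if F ∈ S then D (ψ ∘ F) else 0) • Q' F = L • ∑ F, Q' F - ∑ F ∈ S, D (ψ ∘ F) • Q' F := by
        rw [Finset.smul_sum, ← Finset.sum_filter_add_sum_filter_not univ (fun F => F ∈ S)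
          (fun F => (L - if F ∈ S then D (ψ ∘ F) else 0) • Q' F)]
        rw [← Finset.sum_filter_add_sum_filter_not univ (fun F => F ∈ S) (fun F => L • Q' F)]
        have h5 : (univ : Finset (Fin k ↪ Fin N)).filter (fun F => F ∈ S) = S := by
          ext F
          simp
        rw [h5]
        have h6 : ∑ F ∈ S, (L - if F ∈ S then D (ψ ∘ F) else 0) • Q' F =
            ∑ F ∈ S, L • Q' F - ∑ F ∈ S, D (ψ ∘ F) • Q' F := by
          rw [← Finset.sum_sub_distrib]
          refine Finset.sum_congr rfl fun F hF => ?_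
          rw [if_pos hF, sub_smul]
        have h7 : ∑ F ∈ (univ : Finset (Fin k ↪ Fin N)).filter (fun F => ¬ F ∈ S),
            (L - if F ∈ S then D (ψ ∘ F) else 0) • Q' F =
            ∑ F ∈ (univ : Finset (Fin k ↪ Fin N)).filter (fun F => ¬ F ∈ S), L • Q' F := by
          refine Finset.sum_congr rfl fun F hF => ?_
          rw [if_neg (mem_filter.1 hF).2, sub_zero]
        rw [h6, h7]
        abel
      rw [h4]
      show L • (1 : Matrix (Fin R) (Fin R) ℝ) - (1 / c) • ∑ F ∈ S, D (ψ ∘ F) • Q' F = _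
      rw [smul_sub, smul_sub, smul_smul, smul_smul, mul_comm L (1 / c)]
      abel
    rw [h3]
    refine (hQ1.smul hL0).add ((Abs_psd_sum _ _ ?_).smul (by positivity))
    intro F _
    refine (hQ' F).smul ?_
    have h4 := abs_le.1 (hL (ψ ∘ F))
    split_ifs
    · linarith [h4.2]
    · linarith
  have hΨ : (0 : ℝ) < Fintype.card (Fin N → A) := by
    exact_mod_cast Fintype.card_pos
  have hAk : (0 : ℝ) < (Fintype.card A : ℝ) ^ k := by
    have : (0 : ℝ) < Fintype.card A := by exact_mod_cast Fintype.card_pos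
    positivity
  have hΛP : ∑ ψ, (Λ ψ * P' ψ).trace ≤ -(ρ / 2) * Fintype.card (Fin N → A) := by
    have h3 : ∀ ψ, (Λ ψ * P' ψ).trace = (1 / c) * ∑ F ∈ S, D (ψ ∘ F) * f (ψ ∘ F) := by
      intro ψ
      show (((1 / c) • ∑ F ∈ S, D (ψ ∘ F) • Q' F) * P' ψ).trace = _
      rw [Matrix.smul_mul, Matrix.trace_smul, smul_eq_mul, Matrix.sum_mul, Matrix.trace_sum]
      congr 1
      refine Finset.sum_congr rfl fun F _ => ?_
      rw [Matrix.smul_mul, Matrix.trace_smul, smul_eq_mul, Matrix.trace_mul_comm, hPQ', hPQ]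
    rw [Finset.sum_congr rfl fun ψ _ => h3 ψ, ← Finset.mul_sum, Finset.sum_comm]
    have h4 : ∀ F ∈ S, ∑ ψ : Fin N → A, D (ψ ∘ F) * f (ψ ∘ F) = -ρ * Fintype.card (Fin N → A) := by
      intro F _
      have h5 := Lde_comp F (fun x => D x * f x)
      rw [hval] at h5
      have h6 : (Fintype.card A : ℝ) ^ k * ∑ ψ : Fin N → A, D (ψ ∘ F) * f (ψ ∘ F) =
          (Fintype.card A : ℝ) ^ k * (-ρ * Fintype.card (Fin N → A)) := by
        rw [h5]
        ring
      exact mul_left_cancel₀ hAk.ne' h6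
    rw [Finset.sum_congr rfl h4, Finset.sum_const, nsmul_eq_mul]
    have h5 : 1 / 2 ≤ (1 / c) * S.card := by
      rw [one_div_mul_eq_div, le_div_iff₀ hcpos]
      linarith
    have h6 : 0 < ρ * Fintype.card (Fin N → A) := by positivity
    nlinarith
  have hsum := Gib_main X P' hXpsd hP' (K0 + 1) (by linarith) hK' (L + ρ') (L + 2 * ρ') (ρ / 4) (by linarith)
    (by linarith) (by
      have h3 : ∀ ψ, ((X ψ - (L + 2 * ρ') • (1 : Matrix (Fin R) (Fin R) ℝ)) * P' ψ).trace =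
          -(2 * ρ') * (P' ψ).trace - (Λ ψ * P' ψ).trace := by
        intro ψ
        have h4 : X ψ - (L + 2 * ρ') • (1 : Matrix (Fin R) (Fin R) ℝ) =
            (-(2 * ρ')) • (1 : Matrix (Fin R) (Fin R) ℝ) - Λ ψ := by
          show L • (1 : Matrix (Fin R) (Fin R) ℝ) - Λ ψ - (L + 2 * ρ') • (1 : Matrix (Fin R) (Fin R) ℝ) = _
          rw [add_smul, neg_smul]
          abel
        rw [h4, sub_mul, Matrix.smul_mul, one_mul, Matrix.trace_sub, Matrix.trace_smul, smul_eq_mul]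
      rw [Finset.sum_congr rfl fun ψ _ => h3 ψ, Finset.sum_sub_distrib, ← Finset.mul_sum]
      have h5 : ∑ ψ, (P' ψ).trace ≤ Fintype.card (Fin N → A) * (K0 + 1) := by
        have := Finset.sum_le_card_nsmul univ (fun ψ => (P' ψ).trace) (K0 + 1) (fun ψ _ => hK' ψ)
        rw [nsmul_eq_mul, Finset.card_univ] at this
        exact this
      have h6 : 2 * ρ' * ∑ ψ, (P' ψ).trace ≤ ρ / 4 * Fintype.card (Fin N → A) := by
        calc 2 * ρ' * ∑ ψ, (P' ψ).trace ≤ 2 * ρ' * (Fintype.card (Fin N → A) * (K0 + 1)) :=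
              mul_le_mul_of_nonneg_left h5 (by positivity)
          _ = ρ / 4 * Fintype.card (Fin N → A) := by
              rw [hρ']
              field_simp
              ring
      linarith) (2 * d) h1
  -- low degree
  have hXT : ∀ ψ, (X ψ).transpose = X ψ := fun ψ => by
    have h3 := (hXpsd ψ).isHermitian
    rw [Matrix.IsHermitian, Matrix.conjTranspose_eq_transpose_of_trivial] at h3
    exact h3
  have hTT : ∀ ψ, (X ψ ^ d).transpose = X ψ ^ d := fun ψ => by
    rw [Matrix.transpose_pow, hXT]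
  have hXloc : ∀ a b, Loc k (fun ψ => X ψ a b) := by
    intro a b
    have h3 : (fun ψ => X ψ a b) = fun ψ => ∑ j ∈ (univ : Finset (Option (Fin k ↪ Fin N))),
        (match j with
          | none => L * (1 : Matrix (Fin R) (Fin R) ℝ) a b
          | some F => if F ∈ S then -((1 / c) * (D (ψ ∘ F) * Q' F a b)) else 0) := by
      funext ψ
      rw [Fintype.sum_option, Finset.sum_ite_mem, univ_inter]
      show (L • (1 : Matrix (Fin R) (Fin R) ℝ) - (1 / c) • ∑ F ∈ S, D (ψ ∘ F) • Q' F) a b = _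
      rw [Matrix.sub_apply, Matrix.smul_apply, Matrix.smul_apply, Matrix.sum_apply, smul_eq_mul, smul_eq_mul,
        Finset.sum_neg_distrib, ← Finset.mul_sum, sub_eq_add_neg]
      rfl
    rw [h3]
    refine Loc_sum _ k _ ?_
    intro j _
    rcases j with _ | F
    · exact Loc_const k _
    · by_cases hF : F ∈ S
      · refine Loc_dep k (im F) ?_ _ ?_
        · unfold im
          rw [card_map, card_univ, Fintype.card_fin]
        · intro ψ ψ' hψ
          have h4 : ψ ∘ F = ψ' ∘ F := by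
            funext i
            exact hψ (F i) (mem_map_of_mem _ (mem_univ i))
          show (if F ∈ S then -((1 / c) * (D (ψ ∘ F) * Q' F a b)) else 0) =
            (if F ∈ S then -((1 / c) * (D (ψ' ∘ F) * Q' F a b)) else 0)
          rw [h4]
      · have h4 : (fun ψ : Fin N → A => (if F ∈ S then -((1 / c) * (D (ψ ∘ F) * Q' F a b)) else 0)) =
            fun _ => (0 : ℝ) := by
          funext ψ
          rw [if_neg hF]
        show Loc k (fun ψ : Fin N → A => (if F ∈ S then -((1 / c) * (D (ψ ∘ F) * Q' F a b)) else 0))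
        rw [h4]
        exact Loc_const k 0
  have hlow := Sum_main s (d * k) D L hL0 hL hD hc0 Q' hQ' hQ1 S (2 * R) (by positivity)
    (fun F hF => (mem_filter.1 hF).2) (fun ψ => X ψ ^ d) hTT (fun a b => Loc_pow k d X hXloc a b) η hη
    ((k.choose (s + 1) : ℝ) * (((d * k : ℕ) : ℝ) / N) ^ (s + 1)) (by positivity)
    (fun B hB => Hit_main hkN hN s (d * k) B hB)
  -- conclusion
  have hTsq : ∀ ψ, X ψ ^ d * X ψ ^ d = X ψ ^ (2 * d) := fun ψ => by rw [← pow_add, two_mul]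
  have hrew : ∀ ψ, (X ψ ^ (2 * d) * (X ψ - (L + ρ') • (1 : Matrix (Fin R) (Fin R) ℝ))).trace =
      -(Λ ψ * (X ψ ^ d * X ψ ^ d)).trace - ρ' * (X ψ ^ d * X ψ ^ d).trace := by
    intro ψ
    have h4 : X ψ - (L + ρ') • (1 : Matrix (Fin R) (Fin R) ℝ) = -Λ ψ - ρ' • (1 : Matrix (Fin R) (Fin R) ℝ) := by
      show L • (1 : Matrix (Fin R) (Fin R) ℝ) - Λ ψ - (L + ρ') • (1 : Matrix (Fin R) (Fin R) ℝ) = _
      rw [add_smul]
      abel
    have h5 : ∀ Y Z : Matrix (Fin R) (Fin R) ℝ, (Z * (-Y - ρ' • (1 : Matrix (Fin R) (Fin R) ℝ))).trace =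
        -(Y * Z).trace - ρ' * Z.trace := by
      intro Y Z
      rw [mul_sub, Matrix.trace_sub, mul_neg, Matrix.trace_neg, Matrix.mul_smul, Matrix.trace_smul, mul_one,
        smul_eq_mul, Matrix.trace_mul_comm Z Y]
    rw [h4, hTsq, h5]
  rw [Finset.sum_congr rfl fun ψ _ => hrew ψ, Finset.sum_sub_distrib, Finset.sum_neg_distrib, ← Finset.mul_sum] at hsum
  have ht : 0 ≤ ∑ ψ, (X ψ ^ d * X ψ ^ d).trace := by
    refine Finset.sum_nonneg fun ψ _ => ?_
    have h4 : X ψ ^ d * X ψ ^ d = (X ψ ^ d).conjTranspose * X ψ ^ d := by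
      rw [Matrix.conjTranspose_eq_transpose_of_trivial, hTT]
    rw [h4]
    exact (Matrix.posSemidef_conjTranspose_mul_self _).trace_nonneg
  have hlow' : -(L * (η + (1 + 1 / η) * (2 * R * ((k.choose (s + 1) : ℝ) * (((d * k : ℕ) : ℝ) / N) ^ (s + 1)))) *
      ∑ ψ, (X ψ ^ d * X ψ ^ d).trace) ≤ ∑ ψ, (Λ ψ * (X ψ ^ d * X ψ ^ d)).trace := hlow
  nlinarith

end Pool.Agent.H9.SD
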