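import Pool.Agent.H9.SD.Defs

/-!
Module Erq.  How often a vertex is hit by a random injection: by symmetry (`F ↦ F` followed by a transposition of vertices) the number is the same for all `v`, and the sum over `v` is `k` times the number of injections.
-/

set_option autoImplicit false
set_option linter.unusedSectionVars false

open Finset

namespace Pool.Agent.H9.SD

theorem Erq_symm {N k : ℕ} (v w : Fin N) :
    (univ.filter (fun F : Fin k ↪ Fin N => v ∈ im F)).card =
      (univ.filter (fun F : Fin k ↪ Fin N => w ∈ im F)).card := by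
  refine Finset.card_bij' (fun F _ => F.trans (Equiv.swap v w).toEmbedding)
    (fun F _ => F.trans (Equiv.swap v w).toEmbedding) ?_ ?_ ?_ ?_
  · intro F hF
    simp only [Finset.mem_filter, Finset.mem_univ, true_and, im, Finset.mem_map] at hF ⊢
    obtain ⟨i, hi⟩ := hF
    exact ⟨i, by simp [hi]⟩
  · intro F hF
    simp only [Finset.mem_filter, Finset.mem_univ, true_and, im, Finset.mem_map] at hF ⊢
    obtain ⟨i, hi⟩ := hF
    exact ⟨i, by simp [hi]⟩
  · intro F _
    ext i
    simp
  · intro F _
    ext i
    simp

theorem Erq_main {N k : ℕ} (v : Fin N) :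
    N * (univ.filter (fun F : Fin k ↪ Fin N => v ∈ im F)).card = k * Fintype.card (Fin k ↪ Fin N) := by
  have h1 : ∑ w : Fin N, (univ.filter (fun F : Fin k ↪ Fin N => w ∈ im F)).card =
      N * (univ.filter (fun F : Fin k ↪ Fin N => v ∈ im F)).card := by
    rw [Finset.sum_congr rfl fun w _ => Erq_symm (k := k) w v, Finset.sum_const, Finset.card_univ,
      Fintype.card_fin, smul_eq_mul]
  rw [← h1]
  simp only [Finset.card_filter]
  rw [Finset.sum_comm]
  have h2 : ∀ F : Fin k ↪ Fin N, ∑ w : Fin N, (if w ∈ im F then 1 else 0) = k := by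
    intro F
    rw [← Finset.card_filter, Finset.filter_mem_eq_inter, Finset.univ_inter, im, Finset.card_map,
      Finset.card_univ, Fintype.card_fin]
  rw [Finset.sum_congr rfl fun F _ => h2 F, Finset.sum_const, Finset.card_univ, smul_eq_mul, mul_comm]

end Pool.Agent.H9.SD
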