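import Pool.Agent.H9.SD.Defs

/-!
Module Lde.  Low degree.
`Lde_main`: `q x = ∑ f, c f * ext f x` with `c f = q (any extension)` if `f` is the graph `{(i, x i) | i ∈ J}` of a function on `J`, and `0` otherwise: exactly one such `f` satisfies `ext f x = 1`.  (For example sum over `y : Fin k → A` and divide: or index by the functions on `J`.)
`Lde_over`: overwriting: `ov F ψ x` is `ψ` with the values at `F i` replaced by `x i`; every `ψ'` is `ov F ψ x` for exactly `|A|^k` pairs `(ψ, x)`.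
-/

set_option autoImplicit false
set_option linter.unusedSectionVars false

open Finset

namespace Pool.Agent.H9.SD

variable {ι A : Type} [Fintype ι] [DecidableEq ι] [Fintype A] [DecidableEq A] [Nonempty A] {k : ℕ}

/-- the graph of `y` on `J` -/
def Lde_G (J : Finset (Fin k)) (y : Fin k → A) : Finset (Fin k × A) := J.image (fun i => (i, y i))

theorem Lde_G_eq (J : Finset (Fin k)) (x y : Fin k → A) :
    Lde_G J y = Lde_G J x ↔ ∀ i ∈ J, x i = y i := by
  constructor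
  · intro h i hi
    have h1 : (i, y i) ∈ Lde_G J y := mem_image.2 ⟨i, hi, rfl⟩
    rw [h] at h1
    obtain ⟨j, _, hj⟩ := mem_image.1 h1
    have h2 : j = i := congrArg Prod.fst hj
    have h3 : x j = y i := congrArg Prod.snd hj
    rw [h2] at h3
    exact h3
  · intro h
    unfold Lde_G
    refine image_congr ?_
    intro i hi
    show (i, y i) = (i, x i)
    rw [h i hi]

theorem Lde_ext_G (J : Finset (Fin k)) (x y : Fin k → A) :
    ext (Lde_G J y) x = if Lde_G J y = Lde_G J x then 1 else 0 := by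
  have h1 : (∀ p ∈ Lde_G J y, x p.1 = p.2) ↔ Lde_G J y = Lde_G J x := by
    rw [Lde_G_eq]
    constructor
    · intro h i hi
      exact h (i, y i) (mem_image.2 ⟨i, hi, rfl⟩)
    · intro h p hp
      obtain ⟨i, hi, rfl⟩ := mem_image.1 hp
      exact h i hi
  unfold ext
  by_cases h : Lde_G J y = Lde_G J x
  · rw [if_pos (h1.2 h), if_pos h]
  · rw [if_neg (fun h2 => h (h1.1 h2)), if_neg h]

theorem Lde_main (s : ℕ) (J : Finset (Fin k)) (hJ : J.card ≤ s) (q : (Fin k → A) → ℝ)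
    (hq : ∀ x y : Fin k → A, (∀ i ∈ J, x i = y i) → q x = q y) : LowDeg s q := by
  classical
  have hc : ∀ f : Finset (Fin k × A), ∃ r : ℝ, (∀ y, Lde_G J y = f → r = q y) ∧
      ((∀ y, Lde_G J y ≠ f) → r = 0) := by
    intro f
    by_cases h : ∃ y, Lde_G J y = f
    · obtain ⟨y, hy⟩ := h
      refine ⟨q y, fun z hz => ?_, fun h0 => absurd hy (h0 y)⟩
      exact hq y z ((Lde_G_eq J y z).1 (hz.trans hy.symm))
    · exact ⟨0, fun y hy => absurd ⟨y, hy⟩ h, fun _ => rfl⟩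
  choose c hc1 hc2 using hc
  refine ⟨c, fun f hf => ?_, fun x => ?_⟩
  · refine hc2 f fun y hy => ?_
    rw [← hy] at hf
    have h1 : (Lde_G J y).card ≤ J.card := card_image_le
    omega
  · rw [Finset.sum_eq_single (Lde_G J x)]
    · rw [hc1 _ x rfl, Lde_ext_G, if_pos rfl, mul_one]
    · intro f _ hf
      by_cases h : ∃ y, Lde_G J y = f
      · obtain ⟨y, rfl⟩ := h
        rw [Lde_ext_G, if_neg hf, mul_zero]
      · rw [hc2 f (fun y hy => h ⟨y, hy⟩), zero_mul]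
    · intro h
      exact absurd (mem_univ _) h

theorem Lde_sum {κ : Type} (S : Finset κ) (s : ℕ) (q : κ → (Fin k → A) → ℝ) (hq : ∀ j ∈ S, LowDeg s (q j)) :
    LowDeg s (fun x => ∑ j ∈ S, q j x) := by
  classical
  have h : ∀ j, ∃ c : Finset (Fin k × A) → ℝ, j ∈ S →
      ((∀ f, s < f.card → c f = 0) ∧ ∀ x, q j x = ∑ f, c f * ext f x) := by
    intro j
    by_cases hj : j ∈ S
    · obtain ⟨c, hc⟩ := hq j hj
      exact ⟨c, fun _ => hc⟩
    · exact ⟨0, fun h => absurd h hj⟩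
  choose c hc using h
  refine ⟨fun f => ∑ j ∈ S, c j f, fun f hf => ?_, fun x => ?_⟩
  · exact Finset.sum_eq_zero fun j hj => (hc j hj).1 f hf
  · show ∑ j ∈ S, q j x = ∑ f, (∑ j ∈ S, c j f) * ext f x
    rw [Finset.sum_congr rfl fun j hj => (hc j hj).2 x, Finset.sum_comm]
    refine Finset.sum_congr rfl fun f _ => ?_
    rw [Finset.sum_mul]

/-- overwrite `ψ` at the vertices chosen by `F` -/
noncomputable def ov (F : Fin k ↪ ι) (ψ : ι → A) (x : Fin k → A) (v : ι) : A :=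
  if h : ∃ i, F i = v then x h.choose else ψ v

theorem Lde_ov_at (F : Fin k ↪ ι) (ψ : ι → A) (x : Fin k → A) (i : Fin k) :
    ov F ψ x (F i) = x i := by
  have h : ∃ j, F j = F i := ⟨i, rfl⟩
  unfold ov
  rw [dif_pos h, F.injective h.choose_spec]

theorem Lde_ov_off (F : Fin k ↪ ι) (ψ : ι → A) (x : Fin k → A) (v : ι) (h : ¬ ∃ i, F i = v) :
    ov F ψ x v = ψ v := by
  unfold ov
  rw [dif_neg h]

theorem Lde_ov (F : Fin k ↪ ι) (ψ : ι → A) (x : Fin k → A) : (ov F ψ x) ∘ F = x := by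
  funext i
  exact Lde_ov_at F ψ x i

theorem Lde_ov_ov (F : Fin k ↪ ι) (ψ : ι → A) (x : Fin k → A) :
    ov F (ov F ψ x) (ψ ∘ F) = ψ := by
  funext v
  by_cases h : ∃ i, F i = v
  · obtain ⟨i, rfl⟩ := h
    rw [Lde_ov_at]
    rfl
  · rw [Lde_ov_off F _ _ v h, Lde_ov_off F _ _ v h]

theorem Lde_over (F : Fin k ↪ ι) (g : (ι → A) → ℝ) :
    (Fintype.card A : ℝ) ^ k * ∑ ψ, g ψ = ∑ ψ, ∑ x : Fin k → A, g (ov F ψ x) := by
  have hinv : Function.Involutive
      (fun p : (ι → A) × (Fin k → A) => ((ov F p.1 p.2, p.1 ∘ F) : (ι → A) × (Fin k → A))) := by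
    intro p
    show (ov F (ov F p.1 p.2) (p.1 ∘ F), (ov F p.1 p.2) ∘ F) = p
    rw [Lde_ov_ov, Lde_ov]
  have h1 : ∑ p : (ι → A) × (Fin k → A), g (ov F p.1 p.2) =
      ∑ p : (ι → A) × (Fin k → A), g p.1 :=
    Equiv.sum_comp hinv.toPerm (fun p : (ι → A) × (Fin k → A) => g p.1)
  rw [Fintype.sum_prod_type, Fintype.sum_prod_type] at h1
  rw [h1, Finset.mul_sum]
  refine Finset.sum_congr rfl fun ψ _ => ?_
  show (Fintype.card A : ℝ) ^ k * g ψ = ∑ _y : Fin k → A, g ψ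
  rw [Finset.sum_const, card_univ, Fintype.card_fun, Fintype.card_fin, nsmul_eq_mul]
  push_cast
  rfl

theorem Lde_comp (F : Fin k ↪ ι) (f : (Fin k → A) → ℝ) :
    (Fintype.card A : ℝ) ^ k * ∑ ψ : ι → A, f (ψ ∘ F) = (Fintype.card (ι → A) : ℝ) * ∑ x, f x := by
  rw [Lde_over F (fun ψ => f (ψ ∘ F))]
  have h1 : ∀ ψ : ι → A, ∑ x : Fin k → A, f ((ov F ψ x) ∘ F) = ∑ x, f x := by
    intro ψ
    refine Finset.sum_congr rfl fun x _ => ?_
    rw [Lde_ov]
  rw [Finset.sum_congr rfl fun ψ _ => h1 ψ, Finset.sum_const, card_univ, nsmul_eq_mul]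

end Pool.Agent.H9.SD
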