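import Pool.Agent.H9.SD.Efb
import Pool.Agent.H9.SD.Lde
import Pool.Agent.H9.SD.Erq

/-!
Module Err.  A large set of `ψ` looks uniform on most `F`.   Use only the STATEMENTS of Efa, Efb, Lde, Erq.
For fixed `F` put `m ψ = ∑ B ⊆ im F, B ≠ ∅, es B h ψ`.  As `h = ∑ B, es B h` (`Efa_sum`) and, for `B` not inside `im F`, `∑ ψ, es B h ψ * g (ψ ∘ F) = 0` (for `v ∈ B \ im F`: `g (ψ ∘ F)` does not depend on `ψ v`, `Efa_zero`), and `es ∅ h` is constant (`Efa_dep`) with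
`∑ ψ, es ∅ h ψ = ∑ ψ, h ψ`: `∑ ψ, h ψ * g (ψ ∘ F) = (∑ ψ, h ψ) * avg g + ∑ ψ, m ψ * g (ψ ∘ F)` (`Lde_comp`).  So the term of `F` is at most `G * ∑ ψ, |m ψ| ≤ G * sqrt (card Ψ) * sqrt (∑ ψ, m ψ ^ 2)` (Cauchy-Schwarz), and
`∑ F, ∑ ψ, m ψ ^ 2 = ∑ B ≠ ∅, (∑ ψ, es B h ψ ^ 2) * #{F | B ⊆ im F} ≤ (k / N) * card * ∑ ψ, h ψ ^ 2` (`Efb_orth`, `Erq_main` for some `v ∈ B`, `Efb_norm`).  Cauchy-Schwarz over `F`.
-/

set_option autoImplicit false
set_option linter.unusedSectionVars false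

open Finset

namespace Pool.Agent.H9.SD

private theorem Err_z {ι A : Type} [Fintype ι] [DecidableEq ι] [Fintype A] [DecidableEq A] [Nonempty A]
    (B : Finset ι) (h G : (ι → A) → ℝ) (v : ι) (hv : v ∈ B)
    (hG : ∀ ψ a, G (Function.update ψ v a) = G ψ) : ∑ ψ, es B h ψ * G ψ = 0 := by
  have h1 := Efb_upd (fun ψ => es B h ψ * G ψ) v
  have h2 : ∑ ψ : ι → A, ∑ a : A, (fun ψ => es B h ψ * G ψ) (Function.update ψ v a) = 0 := by
    refine Finset.sum_eq_zero fun ψ _ => ?_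
    simp only [hG]
    rw [← Finset.sum_mul, Efa_zero B h v hv ψ, zero_mul]
  rw [h2] at h1
  have h4 : (Fintype.card A : ℝ) ≠ 0 := by
    exact_mod_cast Fintype.card_ne_zero
  rcases mul_eq_zero.1 h1.symm with h5 | h5
  · exact absurd h5 h4
  · exact h5

private theorem Err_one {ι A : Type} [Fintype ι] [DecidableEq ι] [Fintype A] [DecidableEq A] [Nonempty A]
    {k : ℕ} (h : (ι → A) → ℝ) (g : (Fin k → A) → ℝ) (F : Fin k ↪ ι) :
    ∑ ψ : ι → A, h ψ * g (ψ ∘ F) - (∑ ψ, h ψ) * ((∑ x, g x) / (Fintype.card A : ℝ) ^ k) =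
      ∑ ψ : ι → A, (∑ B ∈ (univ : Finset (Finset ι)).filter (fun B => B ⊆ im F ∧ B ≠ ∅), es B h ψ) *
        g (ψ ∘ F) := by
  have hA : (Fintype.card A : ℝ) ^ k ≠ 0 := by
    have : (Fintype.card A : ℝ) ≠ 0 := by exact_mod_cast Fintype.card_ne_zero
    positivity
  obtain ⟨ψ0⟩ : Nonempty (ι → A) := inferInstance
  have hconst : ∀ ψ, es ∅ h ψ = es ∅ h ψ0 := fun ψ =>
    Efa_dep ∅ h ψ ψ0 fun v hv => absurd hv (Finset.notMem_empty v)
  have hsum : ∑ ψ, h ψ = (Fintype.card (ι → A) : ℝ) * es ∅ h ψ0 := by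
    have h1 : ∑ ψ, h ψ = ∑ B : Finset ι, ∑ ψ, es B h ψ := by
      rw [Finset.sum_comm]
      exact Finset.sum_congr rfl fun ψ _ => (Efa_sum h ψ).symm
    rw [h1, Finset.sum_eq_single ∅]
    · rw [Finset.sum_congr rfl fun ψ _ => hconst ψ, Finset.sum_const, nsmul_eq_mul, card_univ]
    · intro B _ hB
      obtain ⟨v, hv⟩ := Finset.nonempty_iff_ne_empty.2 hB
      have h2 := Err_z B h (fun _ => 1) v hv (fun _ _ => rfl)
      simpa using h2
    · intro hn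
      exact absurd (mem_univ _) hn
  have hall : ∑ ψ : ι → A, h ψ * g (ψ ∘ F) = ∑ B : Finset ι, ∑ ψ, es B h ψ * g (ψ ∘ F) := by
    rw [Finset.sum_comm]
    refine Finset.sum_congr rfl fun ψ _ => ?_
    rw [← Finset.sum_mul, Efa_sum]
  have hnot : ∀ B : Finset ι, ¬ B ⊆ im F → ∑ ψ, es B h ψ * g (ψ ∘ F) = 0 := by
    intro B hB
    obtain ⟨v, hv, hv'⟩ := Finset.not_subset.1 hB
    refine Err_z B h (fun ψ => g (ψ ∘ F)) v hv fun ψ a => ?_
    show g (Function.update ψ v a ∘ F) = g (ψ ∘ F)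
    congr 1
    funext i
    show Function.update ψ v a (F i) = ψ (F i)
    refine Function.update_of_ne ?_ _ _
    intro hi
    refine hv' ?_
    unfold im
    rw [Finset.mem_map]
    exact ⟨i, mem_univ _, hi⟩
  have hemp : ∑ ψ : ι → A, es ∅ h ψ * g (ψ ∘ F) = (∑ ψ, h ψ) * ((∑ x, g x) / (Fintype.card A : ℝ) ^ k) := by
    rw [Finset.sum_congr rfl fun ψ _ => by rw [hconst ψ], ← Finset.mul_sum, hsum]
    have h1 := Lde_comp F g
    have h2 : ∑ ψ : ι → A, g (ψ ∘ F) = (Fintype.card (ι → A) : ℝ) * (∑ x, g x) / (Fintype.card A : ℝ) ^ k := by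
      rw [eq_div_iff hA, mul_comm]
      exact h1
    rw [h2]
    ring
  have hsplit : ∑ B : Finset ι, ∑ ψ, es B h ψ * g (ψ ∘ F) = ∑ ψ : ι → A, es ∅ h ψ * g (ψ ∘ F) +
      ∑ B ∈ (univ : Finset (Finset ι)).filter (fun B => B ⊆ im F ∧ B ≠ ∅), ∑ ψ, es B h ψ * g (ψ ∘ F) := by
    rw [← Finset.add_sum_erase univ _ (mem_univ (∅ : Finset ι))]
    congr 1
    symm
    refine Finset.sum_subset ?_ ?_
    · intro B hB
      rw [Finset.mem_filter] at hB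
      rw [Finset.mem_erase]
      exact ⟨hB.2.2, mem_univ _⟩
    · intro B hB hB'
      rw [Finset.mem_erase] at hB
      refine hnot B fun hs => hB' ?_
      rw [Finset.mem_filter]
      exact ⟨mem_univ _, hs, hB.1⟩
  rw [hall, hsplit, hemp, add_sub_cancel_left, Finset.sum_comm]
  refine Finset.sum_congr rfl fun ψ _ => ?_
  rw [Finset.sum_mul]

theorem Err_main {N k : ℕ} {A : Type} [Fintype A] [DecidableEq A] [Nonempty A] (hN : 0 < N)
    (h : (Fin N → A) → ℝ) (g : (Fin k → A) → ℝ) (G : ℝ) (hG : ∀ x, |g x| ≤ G) :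
    (∑ F : Fin k ↪ Fin N, |∑ ψ : Fin N → A, h ψ * g (ψ ∘ F) -
      (∑ ψ, h ψ) * ((∑ x, g x) / (Fintype.card A : ℝ) ^ k)|) ^ 2 ≤
    G ^ 2 * (Fintype.card (Fin k ↪ Fin N) : ℝ) ^ 2 * (Fintype.card (Fin N → A) : ℝ) * ((k : ℝ) / N) *
      ∑ ψ, h ψ ^ 2 := by
  have hG0 : 0 ≤ G := by
    obtain ⟨x0⟩ : Nonempty (Fin k → A) := inferInstance
    exact (abs_nonneg _).trans (hG x0)
  have hNR : (0 : ℝ) < N := by exact_mod_cast hN
  obtain ⟨S, hS⟩ : ∃ S : (Fin k ↪ Fin N) → Finset (Finset (Fin N)), S = fun F =>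
    (univ : Finset (Finset (Fin N))).filter (fun B => B ⊆ im F ∧ B ≠ ∅) := ⟨_, rfl⟩
  have hD : ∀ F : Fin k ↪ Fin N, |∑ ψ : Fin N → A, h ψ * g (ψ ∘ F) -
      (∑ ψ, h ψ) * ((∑ x, g x) / (Fintype.card A : ℝ) ^ k)| ^ 2 ≤
      G ^ 2 * (Fintype.card (Fin N → A) : ℝ) * ∑ B ∈ S F, ∑ ψ, es B h ψ ^ 2 := by
    intro F
    rw [Err_one h g F, ← Efb_sq]
    have e1 : (univ : Finset (Finset (Fin N))).filter (fun B => B ⊆ im F ∧ B ≠ ∅) = S F := by rw [hS]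
    rw [e1]
    have e2 : |∑ ψ : Fin N → A, (∑ B ∈ S F, es B h ψ) * g (ψ ∘ F)| ≤ G * ∑ ψ, |∑ B ∈ S F, es B h ψ| := by
      rw [Finset.mul_sum]
      refine (Finset.abs_sum_le_sum_abs _ _).trans (Finset.sum_le_sum fun ψ _ => ?_)
      rw [abs_mul, mul_comm]
      exact mul_le_mul_of_nonneg_right (hG _) (abs_nonneg _)
    have e3 : (∑ ψ : Fin N → A, |∑ B ∈ S F, es B h ψ|) ^ 2 ≤
        (Fintype.card (Fin N → A) : ℝ) * ∑ ψ, (∑ B ∈ S F, es B h ψ) ^ 2 := by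
      have e4 := sq_sum_le_card_mul_sum_sq (s := (univ : Finset (Fin N → A)))
        (f := fun ψ => |∑ B ∈ S F, es B h ψ|)
      simp only [sq_abs, card_univ] at e4
      exact e4
    calc |∑ ψ : Fin N → A, (∑ B ∈ S F, es B h ψ) * g (ψ ∘ F)| ^ 2
        ≤ (G * ∑ ψ, |∑ B ∈ S F, es B h ψ|) ^ 2 := pow_le_pow_left₀ (abs_nonneg _) e2 2
      _ = G ^ 2 * (∑ ψ, |∑ B ∈ S F, es B h ψ|) ^ 2 := by ring
      _ ≤ G ^ 2 * ((Fintype.card (Fin N → A) : ℝ) * ∑ ψ, (∑ B ∈ S F, es B h ψ) ^ 2) :=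
          mul_le_mul_of_nonneg_left e3 (sq_nonneg _)
      _ = _ := by ring
  have hE : ∑ F : Fin k ↪ Fin N, ∑ B ∈ S F, ∑ ψ, es B h ψ ^ 2 ≤
      (k : ℝ) / N * (Fintype.card (Fin k ↪ Fin N) : ℝ) * ∑ ψ, h ψ ^ 2 := by
    rw [Efb_norm h, Finset.mul_sum, hS]
    simp only [Finset.sum_filter]
    rw [Finset.sum_comm]
    refine Finset.sum_le_sum fun B _ => ?_
    have hn : 0 ≤ ∑ ψ, es B h ψ ^ 2 := Finset.sum_nonneg fun ψ _ => sq_nonneg _
    rw [← Finset.sum_filter, Finset.sum_const, nsmul_eq_mul]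
    refine mul_le_mul_of_nonneg_right ?_ hn
    by_cases hB : B = ∅
    · have h0 : (univ : Finset (Fin k ↪ Fin N)).filter (fun F => B ⊆ im F ∧ B ≠ ∅) = ∅ := by
        rw [Finset.filter_eq_empty_iff]
        intro F _ hF
        exact hF.2 hB
      rw [h0]
      simp only [card_empty, Nat.cast_zero]
      positivity
    · obtain ⟨v, hv⟩ := Finset.nonempty_iff_ne_empty.2 hB
      have h1 : ((univ : Finset (Fin k ↪ Fin N)).filter (fun F => B ⊆ im F ∧ B ≠ ∅)).card ≤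
          (univ.filter (fun F : Fin k ↪ Fin N => v ∈ im F)).card := by
        refine Finset.card_le_card fun F hF => ?_
        rw [Finset.mem_filter] at hF ⊢
        exact ⟨hF.1, hF.2.1 hv⟩
      have h2 := Erq_main (k := k) v
      have h3 : (N : ℝ) * ((univ.filter (fun F : Fin k ↪ Fin N => v ∈ im F)).card : ℝ) =
          k * (Fintype.card (Fin k ↪ Fin N) : ℝ) := by exact_mod_cast h2
      have h4 : ((univ.filter (fun F : Fin k ↪ Fin N => v ∈ im F)).card : ℝ) =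
          (k : ℝ) / N * (Fintype.card (Fin k ↪ Fin N) : ℝ) := by
        rw [div_mul_eq_mul_div, eq_div_iff hNR.ne', mul_comm]
        exact h3
      rw [← h4]
      exact_mod_cast h1
  have hCS := sq_sum_le_card_mul_sum_sq (s := (univ : Finset (Fin k ↪ Fin N)))
    (f := fun F => |∑ ψ : Fin N → A, h ψ * g (ψ ∘ F) -
      (∑ ψ, h ψ) * ((∑ x, g x) / (Fintype.card A : ℝ) ^ k)|)
  refine hCS.trans ?_
  rw [card_univ]
  have h5 : ∑ F : Fin k ↪ Fin N, |∑ ψ : Fin N → A, h ψ * g (ψ ∘ F) -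
      (∑ ψ, h ψ) * ((∑ x, g x) / (Fintype.card A : ℝ) ^ k)| ^ 2 ≤
      G ^ 2 * (Fintype.card (Fin N → A) : ℝ) *
        ((k : ℝ) / N * (Fintype.card (Fin k ↪ Fin N) : ℝ) * ∑ ψ, h ψ ^ 2) := by
    refine (Finset.sum_le_sum fun F _ => hD F).trans ?_
    rw [← Finset.mul_sum]
    exact mul_le_mul_of_nonneg_left hE (by positivity)
  calc _ ≤ (Fintype.card (Fin k ↪ Fin N) : ℝ) * (G ^ 2 * (Fintype.card (Fin N → A) : ℝ) *
        ((k : ℝ) / N * (Fintype.card (Fin k ↪ Fin N) : ℝ) * ∑ ψ, h ψ ^ 2)) :=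
        mul_le_mul_of_nonneg_left h5 (Nat.cast_nonneg _)
    _ = _ := by ring

end Pool.Agent.H9.SD
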