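import Mathlib

/-!
Module Blk.  Adding a `1 × 1` block.
`B' F = (Matrix.fromBlocks (B F) 0 0 1).reindex finSumFinEquiv finSumFinEquiv`, `P' ψ = (Matrix.fromBlocks (P ψ) 0 0 (z ψ • 1)).reindex ..` with index types `Fin R ⊕ Fin 1`.
Positive semidefinite: `B F = Cᴴ * C`, `fromBlocks (Cᴴ * C) 0 0 1 = (fromBlocks C 0 0 1)ᴴ * fromBlocks C 0 0 1` (and `Real.sqrt (z ψ)` for `P`); `Matrix.PosSemidef.submatrix`.
-/

set_option autoImplicit false
set_option linter.unusedSectionVars false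

open Finset

namespace Pool.Agent.H9.SD

theorem Blk_psd {m n : Type} [Fintype m] [Fintype n] (A : Matrix m m ℝ)
    (D : Matrix n n ℝ) (hA : A.PosSemidef) (hD : D.PosSemidef) :
    (Matrix.fromBlocks A 0 0 D).PosSemidef := by
  rw [Matrix.posSemidef_iff_dotProduct_mulVec] at hA hD ⊢
  refine ⟨?_, fun x => ?_⟩
  · show (Matrix.fromBlocks A 0 0 D).conjTranspose = _
    rw [Matrix.fromBlocks_conjTranspose, hA.1.eq, hD.1.eq, Matrix.conjTranspose_zero,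
      Matrix.conjTranspose_zero]
  · have hx : x = Sum.elim (x ∘ Sum.inl) (x ∘ Sum.inr) := (Sum.elim_comp_inl_inr x).symm
    have h1 : star x ⬝ᵥ (Matrix.fromBlocks A 0 0 D).mulVec x =
        star (x ∘ Sum.inl) ⬝ᵥ A.mulVec (x ∘ Sum.inl) +
          star (x ∘ Sum.inr) ⬝ᵥ D.mulVec (x ∘ Sum.inr) := by
      rw [Matrix.fromBlocks_mulVec, Matrix.zero_mulVec, Matrix.zero_mulVec, add_zero, zero_add]
      simp only [dotProduct, Fintype.sum_sum_type, Sum.elim_inl, Sum.elim_inr]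
      rfl
    rw [h1]
    exact add_nonneg (hA.2 _) (hD.2 _)

theorem Blk_tr {m n : Type} [Fintype m] [Fintype n] (A : Matrix m m ℝ) (e : n ≃ m) :
    (A.submatrix e e).trace = A.trace :=
  Equiv.sum_comp e fun i => A i i

theorem Blk_main {Ψ Φ : Type} {R : ℕ} (P : Ψ → Matrix (Fin R) (Fin R) ℝ) (Q : Φ → Matrix (Fin R) (Fin R) ℝ)
    (z : Ψ → ℝ) (hP : ∀ ψ, (P ψ).PosSemidef) (hQ : ∀ F, (Q F).PosSemidef) (hz : ∀ ψ, 0 ≤ z ψ) :
    ∃ (P' : Ψ → Matrix (Fin (R + 1)) (Fin (R + 1)) ℝ) (Q' : Φ → Matrix (Fin (R + 1)) (Fin (R + 1)) ℝ),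
      (∀ ψ, (P' ψ).PosSemidef) ∧ (∀ F, (Q' F).PosSemidef) ∧
      ∀ ψ F, (P' ψ * Q' F).trace = (P ψ * Q F).trace + z ψ := by
  refine ⟨fun ψ => (Matrix.fromBlocks (P ψ) 0 0 (Matrix.diagonal fun _ : Fin 1 => z ψ)).submatrix
      finSumFinEquiv.symm finSumFinEquiv.symm,
    fun F => (Matrix.fromBlocks (Q F) 0 0 (1 : Matrix (Fin 1) (Fin 1) ℝ)).submatrix
      finSumFinEquiv.symm finSumFinEquiv.symm, fun ψ => ?_, fun F => ?_, fun ψ F => ?_⟩
  · exact (Blk_psd _ _ (hP ψ) (Matrix.PosSemidef.diagonal fun _ => hz ψ)).submatrix _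
  · exact (Blk_psd _ _ (hQ F) Matrix.PosSemidef.one).submatrix _
  · show (_ * _ : Matrix _ _ ℝ).trace = _
    rw [Matrix.submatrix_mul_equiv, Blk_tr, Matrix.fromBlocks_multiply]
    simp [Matrix.trace, Fintype.sum_sum_type, Matrix.diag, Matrix.mul_apply]

end Pool.Agent.H9.SD
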