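import Pool.Agent.H9.SD.Defs

/-!
Module Dea.  Marginals.
`x` ranges over the functions that extend `f`; `S.image (fun i => (i, x i))` is the graph of `x` on `S`; on `S ∩ dom f` it is `f.filter (·.1 ∈ S)`.  Induction on the number of elements of `S` that are not indices of `f` (or `Finset.induction_on` for `S`, adding first the indices of `f`):
if `j ∈ S` is not an index of `f`, replace `x` by `Function.update x j v` and sum over `v`: `n * ∑ x, G x = ∑ x, ∑ v, G (update x j v)`, and `∑ v, E (insert (j, v) h) = E h` by `hlin` for `h` = the graph of `x` on `S.erase j` (fewer than `d` elements), so `n * (left side for S) = (left side for S.erase j)`.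
If all elements of `S` are indices of `f`: the graph is constant, and the number of `x` that extend `f` is `n ^ (k - |f|)`.
-/

set_option autoImplicit false
set_option linter.unusedSectionVars false

open Finset

namespace Pool.Agent.H9.SD

theorem Dea_count {k n : ℕ} (f : Finset (Fin k × Fin n)) (hf : ∀ x ∈ f, ∀ y ∈ f, x.1 = y.1 → x = y) :
    ∑ x : Fin k → Fin n, ext f x = (n : ℝ) ^ (k - (f.image Prod.fst).card) := by
  classical
  have h1 : ∀ x : Fin k → Fin n, ext f x =
      ∏ i, (if ∀ y ∈ f, y.1 = i → x i = y.2 then (1 : ℝ) else 0) := by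
    intro x
    unfold ext
    by_cases h : ∀ y ∈ f, x y.1 = y.2
    · rw [if_pos h, Finset.prod_eq_one]
      intro i _
      rw [if_pos]
      intro y hy hi
      rw [← hi]
      exact h y hy
    · rw [if_neg h]
      push Not at h
      obtain ⟨y, hy, hy2⟩ := h
      refine (Finset.prod_eq_zero (Finset.mem_univ y.1) ?_).symm
      rw [if_neg]
      intro h3
      exact hy2 (h3 y hy rfl)
  rw [Finset.sum_congr rfl fun x _ => h1 x]
  have h2 := Finset.prod_univ_sum (fun _ : Fin k => (Finset.univ : Finset (Fin n)))
    (fun i a => if ∀ y ∈ f, y.1 = i → a = y.2 then (1 : ℝ) else 0)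
  rw [Fintype.piFinset_univ] at h2
  rw [← h2]
  have h3 : ∀ i : Fin k, (∑ a : Fin n, if ∀ y ∈ f, y.1 = i → a = y.2 then (1 : ℝ) else 0) =
      if i ∈ f.image Prod.fst then 1 else (n : ℝ) := by
    intro i
    by_cases hi : i ∈ f.image Prod.fst
    · rw [if_pos hi]
      obtain ⟨y, hy, hy2⟩ := Finset.mem_image.mp hi
      rw [Finset.sum_eq_single y.2]
      · rw [if_pos]
        intro z hz hzi
        rw [hf y hy z hz (hy2.trans hzi.symm)]
      · intro a _ ha
        rw [if_neg]
        intro h4
        exact ha (h4 y hy hy2)
      · intro h4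
        exact absurd (Finset.mem_univ _) h4
    · rw [if_neg hi]
      have h4 : ∀ a : Fin n, (if ∀ y ∈ f, y.1 = i → a = y.2 then (1 : ℝ) else 0) = 1 := by
        intro a
        rw [if_pos]
        intro y hy hyi
        exact absurd (Finset.mem_image.mpr ⟨y, hy, hyi⟩) hi
      rw [Finset.sum_congr rfl fun a _ => h4 a]
      simp
  rw [Finset.prod_congr rfl fun i _ => h3 i, Finset.prod_ite, Finset.prod_const_one, one_mul,
    Finset.prod_const]
  congr 1
  have h5 : (Finset.univ.filter fun i : Fin k => ¬ i ∈ f.image Prod.fst) = (f.image Prod.fst)ᶜ := by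
    ext i
    simp
  rw [h5, Finset.card_compl, Fintype.card_fin]

theorem Dea_update {k n : ℕ} (G : (Fin k → Fin n) → ℝ) (j : Fin k) :
    ∑ x : Fin k → Fin n, ∑ v : Fin n, G (Function.update x j v) =
      (n : ℝ) * ∑ x : Fin k → Fin n, G x := by
  have inv : Function.Involutive (fun p : (Fin k → Fin n) × Fin n =>
      (Function.update p.1 j p.2, p.1 j)) := by
    intro p
    simp
  have h1 := Equiv.sum_comp inv.toPerm (fun p => G p.1)
  rw [Fintype.sum_prod_type, Fintype.sum_prod_type] at h1
  refine h1.trans ?_
  simp only [Finset.sum_const, Finset.card_univ, Fintype.card_fin, nsmul_eq_mul]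
  rw [← Finset.mul_sum]

theorem Dea_main {k n : ℕ} (hn : 0 < n) (d : ℕ) (E : Finset (Fin k × Fin n) → ℝ)
    (hlin : ∀ f : Finset (Fin k × Fin n), f.card < d → ∀ j : Fin k, ∑ v, E (insert (j, v) f) = E f)
    (f : Finset (Fin k × Fin n)) (hf : ∀ x ∈ f, ∀ y ∈ f, x.1 = y.1 → x = y) (S : Finset (Fin k)) (hS : S.card ≤ d) :
    ∑ x : Fin k → Fin n, E (S.image (fun i => (i, x i))) * ext f x =
      (n : ℝ) ^ (k - (S ∪ f.image Prod.fst).card) * E (f.filter (fun y => y.1 ∈ S)) := by
  classical
  have hn0 : (n : ℝ) ≠ 0 := Nat.cast_ne_zero.mpr hn.ne'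
  induction hm : (S \ f.image Prod.fst).card generalizing S with
  | zero =>
    have hsub : S ⊆ f.image Prod.fst := by
      rw [← Finset.sdiff_eq_empty_iff_subset]
      exact Finset.card_eq_zero.mp hm
    have h1 : ∀ x : Fin k → Fin n, E (S.image (fun i => (i, x i))) * ext f x =
        E (f.filter (fun y => y.1 ∈ S)) * ext f x := by
      intro x
      unfold ext
      by_cases h : ∀ y ∈ f, x y.1 = y.2
      · have h2 : S.image (fun i => (i, x i)) = f.filter (fun y => y.1 ∈ S) := by
          ext y
          simp only [Finset.mem_image, Finset.mem_filter]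
          constructor
          · rintro ⟨i, hi, rfl⟩
            obtain ⟨z, hz, hz2⟩ := Finset.mem_image.mp (hsub hi)
            refine ⟨?_, hi⟩
            have h3 : (i, x i) = z := by
              refine Prod.ext hz2.symm ?_
              show x i = z.2
              rw [← hz2]
              exact h z hz
            rw [h3]
            exact hz
          · rintro ⟨hy, hy2⟩
            refine ⟨y.1, hy2, ?_⟩
            exact Prod.ext rfl (h y hy)
        rw [h2]
      · rw [if_neg h, mul_zero, mul_zero]
    rw [Finset.sum_congr rfl fun x _ => h1 x, ← Finset.mul_sum, Dea_count f hf,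
      Finset.union_eq_right.mpr hsub, mul_comm]
  | succ m ih =>
    have hne : (S \ f.image Prod.fst).Nonempty := by
      rw [← Finset.card_pos]
      omega
    obtain ⟨j, hj⟩ := hne
    obtain ⟨hjS, hjf⟩ := Finset.mem_sdiff.mp hj
    have hc : (S.erase j).card < S.card := Finset.card_erase_lt_of_mem hjS
    have h1 : ((S.erase j) \ f.image Prod.fst).card = m := by
      have h2 : (S.erase j) \ f.image Prod.fst = (S \ f.image Prod.fst).erase j := by
        ext i
        simp only [Finset.mem_sdiff, Finset.mem_erase]
        tauto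
      rw [h2, Finset.card_erase_of_mem hj, hm]
      rfl
    have h3 := ih (S.erase j) (by omega) h1
    have hfj : ∀ y ∈ f, y.1 ≠ j := fun y hy h4 => hjf (Finset.mem_image.mpr ⟨y, hy, h4⟩)
    have h5 : f.filter (fun y => y.1 ∈ S.erase j) = f.filter (fun y => y.1 ∈ S) := by
      refine Finset.filter_congr fun y hy => ?_
      rw [Finset.mem_erase]
      exact ⟨fun h => h.2, fun h => ⟨hfj y hy, h⟩⟩
    have h6 : (S ∪ f.image Prod.fst).card = ((S.erase j) ∪ f.image Prod.fst).card + 1 := by
      have h7 : S ∪ f.image Prod.fst = insert j ((S.erase j) ∪ f.image Prod.fst) := by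
        rw [← Finset.insert_union, Finset.insert_erase hjS]
      rw [h7, Finset.card_insert_of_notMem]
      intro h8
      rcases Finset.mem_union.mp h8 with h9 | h9
      · exact (Finset.notMem_erase j S) h9
      · exact hjf h9
    have h7 : (S ∪ f.image Prod.fst).card ≤ k := by
      have := Finset.card_le_univ (S ∪ f.image Prod.fst)
      rwa [Fintype.card_fin] at this
    have h8 : (n : ℝ) ^ (k - ((S.erase j) ∪ f.image Prod.fst).card) =
        n * (n : ℝ) ^ (k - (S ∪ f.image Prod.fst).card) := by
      rw [← pow_succ']
      congr 1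
      omega
    have h9 : ∀ x : Fin k → Fin n, ∑ v : Fin n,
        (E (S.image (fun i => (i, Function.update x j v i))) * ext f (Function.update x j v)) =
        E ((S.erase j).image (fun i => (i, x i))) * ext f x := by
      intro x
      have g1 : ∀ v : Fin n, ext f (Function.update x j v) = ext f x := by
        intro v
        unfold ext
        have g2 : (∀ y ∈ f, Function.update x j v y.1 = y.2) ↔ ∀ y ∈ f, x y.1 = y.2 := by
          refine forall₂_congr fun y hy => ?_
          rw [Function.update_of_ne (hfj y hy)]
        by_cases g5 : ∀ y ∈ f, x y.1 = y.2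
        · rw [if_pos (g2.mpr g5), if_pos g5]
        · rw [if_neg fun g6 => g5 (g2.mp g6), if_neg g5]
      have g3 : ∀ v : Fin n, S.image (fun i => (i, Function.update x j v i)) =
          insert (j, v) ((S.erase j).image (fun i => (i, x i))) := by
        intro v
        conv_lhs => rw [← Finset.insert_erase hjS]
        rw [Finset.image_insert, Function.update_self]
        congr 1
        refine Finset.image_congr fun i hi => ?_
        have g4 : i ≠ j := (Finset.mem_erase.mp (Finset.mem_coe.mp hi)).1
        show (i, Function.update x j v i) = (i, x i)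
        rw [Function.update_of_ne g4]
      rw [Finset.sum_congr rfl fun v _ => by rw [g1 v, g3 v], ← Finset.sum_mul]
      rw [hlin ((S.erase j).image (fun i => (i, x i))) ?_ j]
      exact lt_of_le_of_lt Finset.card_image_le (by omega)
    have h10 := Dea_update (fun x => E (S.image (fun i => (i, x i))) * ext f x) j
    rw [Finset.sum_congr rfl fun x _ => h9 x, h3, h5, h8] at h10
    exact (mul_left_cancel₀ hn0 (by rw [← h10]; ring))

end Pool.Agent.H9.SD
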