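import Mathlib

/-!
Module Defs.  Functions on `ι → A`: local functions, low degree, the Efron-Stein decomposition.
-/

set_option autoImplicit false
set_option linter.unusedSectionVars false

open Finset

namespace Pool.Agent.H9.SD

/-- the indicator that `x` extends `f` -/
def ext {k : ℕ} {A : Type} [DecidableEq A] (f : Finset (Fin k × A)) (x : Fin k → A) : ℝ :=
  if ∀ y ∈ f, x y.1 = y.2 then 1 else 0

/-- `q` is a function of degree at most `s` -/
def LowDeg {k : ℕ} {A : Type} [Fintype A] [DecidableEq A] (s : ℕ) (q : (Fin k → A) → ℝ) : Prop :=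
  ∃ c : Finset (Fin k × A) → ℝ, (∀ f, s < f.card → c f = 0) ∧ ∀ x, q x = ∑ f, c f * ext f x

variable {ι A : Type} [Fintype ι] [DecidableEq ι] [Fintype A] [DecidableEq A]

/-- `h` depends only on the coordinates in `C` -/
def Dep (C : Finset ι) (h : (ι → A) → ℝ) : Prop := ∀ ψ ψ' : ι → A, (∀ v ∈ C, ψ v = ψ' v) → h ψ = h ψ'

/-- `h` is a sum of functions that depend on at most `m` coordinates -/
def Loc (m : ℕ) (h : (ι → A) → ℝ) : Prop :=
  ∃ g : Finset ι → (ι → A) → ℝ, (∀ C, Dep C (g C)) ∧ (∀ C, m < C.card → ∀ ψ, g C ψ = 0) ∧ ∀ ψ, h ψ = ∑ C, g C ψ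

/-- the average over the coordinates outside `C` -/
noncomputable def av (C : Finset ι) (h : (ι → A) → ℝ) (ψ : ι → A) : ℝ :=
  (∑ φ : ι → A, h (fun v => if v ∈ C then ψ v else φ v)) / (Fintype.card (ι → A) : ℝ)

/-- the Efron-Stein component -/
noncomputable def es (B : Finset ι) (h : (ι → A) → ℝ) (ψ : ι → A) : ℝ :=
  ∑ C ∈ B.powerset, (-1 : ℝ) ^ (B \ C).card * av C h ψ

/-- the part with low degree in the coordinates in `B0` -/
noncomputable def lo (s : ℕ) (B0 : Finset ι) (h : (ι → A) → ℝ) (ψ : ι → A) : ℝ :=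
  ∑ B ∈ (univ : Finset (Finset ι)).filter (fun B => (B ∩ B0).card ≤ s), es B h ψ

/-- the rest -/
noncomputable def hi (s : ℕ) (B0 : Finset ι) (h : (ι → A) → ℝ) (ψ : ι → A) : ℝ :=
  ∑ B ∈ (univ : Finset (Finset ι)).filter (fun B => s < (B ∩ B0).card), es B h ψ

/-- the vertices chosen by `F` -/
def im {k : ℕ} (F : Fin k ↪ ι) : Finset ι := univ.map F

end Pool.Agent.H9.SD
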