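import Pool.Agent.H9.SD.Dea

/-!
Module Den.  The signed density with the given low-degree moments.   Use only the STATEMENT of Dea_main.
Put `g S x = n ^ |S| * E (S.image (fun i => (i, x i)))` and `D x = ∑ T with |T| ≤ d, ∑ S ⊆ T, (-1)^|T \ S| * g S x`.
If two different pairs in `f` have the same index, both sides are `0` (`ext f x = 0` always, and `hfun`).  Otherwise let `W = f.image Prod.fst`, `|W| = |f| ≤ d`.  By `Dea_main`, for `|S| ≤ d`:
`∑ x, g S x * ext f x = n ^ |S| * n ^ (k - |S ∪ W|) * E (f.filter (·.1 ∈ S)) = n ^ (k - |W|) * n ^ |S ∩ W| * E (f.filter (·.1 ∈ S ∩ W)) =: n ^ (k - |W|) * G (S ∩ W)`.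
For fixed `T` not inside `W`, `∑ S ⊆ T, (-1)^|T \ S| * G (S ∩ W) = 0` (pair `S` with `insert v S`, `v ∈ T \ W`).  What remains is `∑ T ⊆ W, ∑ S ⊆ T, (-1)^|T \ S| * G S = G W` (Moebius inversion; compare `Smj_mob_sum` in `Pool/Agent/H9/SI/Smj.lean`), `G W = n ^ |W| * E f`.
-/

set_option autoImplicit false
set_option linter.unusedSectionVars false

open Finset

namespace Pool.Agent.H9.SD

/-- Moebius inversion: the coefficients of a set function. -/
noncomputable def Den_mob {X : Type} [DecidableEq X] (φ : Finset X → ℝ) (S : Finset X) : ℝ :=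
  ∑ T ∈ S.powerset, (-1 : ℝ) ^ (S \ T).card * φ T

theorem Den_mob_sum {X : Type} [Fintype X] [DecidableEq X] (φ : Finset X → ℝ) (J : Finset X) :
    ∑ S ∈ J.powerset, Den_mob φ S = φ J := by
  unfold Den_mob
  have h1 : ∀ S ∈ J.powerset, ∑ T ∈ S.powerset, (-1 : ℝ) ^ (S \ T).card * φ T =
      ∑ T ∈ J.powerset, (if T ⊆ S then (-1 : ℝ) ^ (S \ T).card else 0) * φ T := by
    intro S hS
    rw [mem_powerset] at hS
    rw [← Finset.sum_subset (powerset_mono.2 hS)]
    · refine Finset.sum_congr rfl fun T hT => ?_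
      rw [if_pos (mem_powerset.1 hT)]
    · intro T _ hT
      rw [mem_powerset] at hT
      rw [if_neg hT, zero_mul]
  rw [Finset.sum_congr rfl h1, Finset.sum_comm]
  have h2 : ∀ T ∈ J.powerset, ∑ S ∈ J.powerset, (if T ⊆ S then (-1 : ℝ) ^ (S \ T).card else 0) * φ T =
      if T = J then φ T else 0 := by
    intro T hT
    rw [mem_powerset] at hT
    rw [← Finset.sum_mul]
    have h3 : ∑ S ∈ J.powerset, (if T ⊆ S then (-1 : ℝ) ^ (S \ T).card else 0) =
        ∑ R ∈ (J \ T).powerset, (-1 : ℝ) ^ R.card := by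
      rw [← Finset.sum_filter]
      refine Finset.sum_bij' (fun S _ => S \ T) (fun R _ => T ∪ R) ?_ ?_ ?_ ?_ ?_
      · intro S hS
        rw [mem_filter, mem_powerset] at hS
        rw [mem_powerset]
        exact sdiff_subset_sdiff hS.1 (Subset.refl _)
      · intro R hR
        rw [mem_powerset] at hR
        rw [mem_filter, mem_powerset]
        exact ⟨union_subset hT (hR.trans sdiff_subset), subset_union_left⟩
      · intro S hS
        rw [mem_filter, mem_powerset] at hS
        exact union_sdiff_of_subset hS.2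
      · intro R hR
        rw [mem_powerset] at hR
        ext x
        simp only [mem_sdiff, mem_union]
        constructor
        · rintro ⟨h | h, h'⟩
          · exact absurd h h'
          · exact h
        · intro h
          exact ⟨Or.inr h, (mem_sdiff.1 (hR h)).2⟩
      · intro S _
        rfl
    rw [h3]
    have h4 := Finset.sum_powerset_neg_one_pow_card (x := J \ T)
    have h5 : ∑ R ∈ (J \ T).powerset, (-1 : ℝ) ^ R.card = ((∑ R ∈ (J \ T).powerset, (-1 : ℤ) ^ R.card : ℤ) : ℝ) := by
      push_cast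
      rfl
    rw [h5, h4]
    by_cases h6 : T = J
    · subst h6
      simp
    · rw [if_neg h6, if_neg]
      · simp
      · intro h7
        rw [sdiff_eq_empty_iff_subset] at h7
        exact h6 (Subset.antisymm hT h7)
  rw [Finset.sum_congr rfl h2, Finset.sum_ite_eq', if_pos (mem_powerset_self J)]


theorem Den_mob_zero {X : Type} [DecidableEq X] (G : Finset X → ℝ) (W T : Finset X) (h : ¬ T ⊆ W) :
    Den_mob (fun S => G (S ∩ W)) T = 0 := by
  obtain ⟨v, hv, hvW⟩ := not_subset.1 h
  have hT : T = insert v (T.erase v) := (insert_erase hv).symm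
  have hn : v ∉ T.erase v := notMem_erase v T
  set T' := T.erase v with hT'
  unfold Den_mob
  rw [hT, Finset.sum_powerset_insert hn, ← Finset.sum_add_distrib]
  refine Finset.sum_eq_zero fun t ht => ?_
  rw [mem_powerset] at ht
  have hvt : v ∉ t := fun hh => hn (ht hh)
  have h1 : (insert v T' \ t).card = (T' \ t).card + 1 := by
    rw [insert_sdiff_of_notMem _ hvt, card_insert_of_notMem]
    exact fun hh => hn (mem_sdiff.1 hh).1
  have h2 : insert v T' \ insert v t = T' \ t := by
    ext x
    simp only [mem_sdiff, mem_insert]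
    constructor
    · rintro ⟨h3 | h3, h4⟩
      · exact absurd (Or.inl h3) h4
      · exact ⟨h3, fun h5 => h4 (Or.inr h5)⟩
    · rintro ⟨h3, h4⟩
      refine ⟨Or.inr h3, ?_⟩
      rintro (h5 | h5)
      · exact hn (h5 ▸ h3)
      · exact h4 h5
  have h3 : insert v t ∩ W = t ∩ W := insert_inter_of_notMem hvW
  rw [h1, h2, pow_succ]
  simp only [h3]
  ring

theorem Den_main {k n : ℕ} (hn : 0 < n) (d : ℕ) (E : Finset (Fin k × Fin n) → ℝ)
    (hlin : ∀ f : Finset (Fin k × Fin n), f.card < d → ∀ j : Fin k, ∑ v, E (insert (j, v) f) = E f)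
    (hfun : ∀ (f : Finset (Fin k × Fin n)) (x y : Fin k × Fin n), x ∈ f → y ∈ f → x ≠ y → x.1 = y.1 → E f = 0) :
    ∃ D : (Fin k → Fin n) → ℝ, ∀ f : Finset (Fin k × Fin n), f.card ≤ d →
      ∑ x, D x * ext f x = (n : ℝ) ^ k * E f := by
  classical
  set F : Finset (Finset (Fin k)) := univ.filter (fun T => T.card ≤ d) with hF
  refine ⟨fun x => ∑ T ∈ F, Den_mob (fun S => (n : ℝ) ^ S.card * E (S.image (fun i => (i, x i)))) T, ?_⟩
  intro f hfd
  by_cases hf : ∀ x ∈ f, ∀ y ∈ f, x.1 = y.1 → x = y
  · set W := f.image Prod.fst with hW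
    set G : Finset (Fin k) → ℝ := fun R => (n : ℝ) ^ R.card * E (f.filter (fun y => y.1 ∈ R)) with hG
    have hWc : W.card ≤ d := card_image_le.trans hfd
    have hterm : ∀ S : Finset (Fin k), S.card ≤ d →
        ∑ x : Fin k → Fin n, ((n : ℝ) ^ S.card * E (S.image (fun i => (i, x i)))) * ext f x =
          (n : ℝ) ^ (k - W.card) * G (S ∩ W) := by
      intro S hS
      have h1 := Dea_main hn d E hlin f hf S hS
      rw [← hW] at h1
      have h2 : ∑ x : Fin k → Fin n, ((n : ℝ) ^ S.card * E (S.image (fun i => (i, x i)))) * ext f x =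
          (n : ℝ) ^ S.card * ∑ x : Fin k → Fin n, E (S.image (fun i => (i, x i))) * ext f x := by
        rw [mul_sum]
        refine sum_congr rfl fun x _ => ?_
        ring
      rw [h2, h1, hG]
      have h3 : f.filter (fun y => y.1 ∈ S) = f.filter (fun y => y.1 ∈ S ∩ W) := by
        refine filter_congr fun y hy => ?_
        rw [mem_inter]
        exact ⟨fun h => ⟨h, mem_image_of_mem _ hy⟩, fun h => h.1⟩
      simp only
      rw [← h3, ← mul_assoc, ← mul_assoc, ← pow_add, ← pow_add]
      congr 2
      have h4 := card_union_add_card_inter S W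
      have h5 : (S ∪ W).card ≤ k := (card_le_univ _).trans (by rw [Fintype.card_fin])
      have h6 : W.card ≤ k := (card_le_univ _).trans (by rw [Fintype.card_fin])
      omega
    have h1 : ∑ x : Fin k → Fin n, (∑ T ∈ F, Den_mob (fun S => (n : ℝ) ^ S.card * E (S.image (fun i => (i, x i)))) T) * ext f x =
        ∑ T ∈ F, (n : ℝ) ^ (k - W.card) * Den_mob (fun S => G (S ∩ W)) T := by
      have h2 : ∀ x : Fin k → Fin n, (∑ T ∈ F, Den_mob (fun S => (n : ℝ) ^ S.card * E (S.image (fun i => (i, x i)))) T) * ext f x =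
          ∑ T ∈ F, ∑ S ∈ T.powerset, (-1 : ℝ) ^ (T \ S).card * (((n : ℝ) ^ S.card * E (S.image (fun i => (i, x i)))) * ext f x) := by
        intro x
        rw [sum_mul]
        refine sum_congr rfl fun T _ => ?_
        unfold Den_mob
        rw [sum_mul]
        refine sum_congr rfl fun S _ => ?_
        ring
      rw [sum_congr rfl fun x _ => h2 x, sum_comm]
      refine sum_congr rfl fun T hT => ?_
      rw [sum_comm]
      unfold Den_mob
      rw [mul_sum]
      refine sum_congr rfl fun S hS => ?_
      rw [← mul_sum, hterm S]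
      · ring
      · rw [hF, mem_filter] at hT
        exact (card_le_card (mem_powerset.1 hS)).trans hT.2
    rw [h1, ← mul_sum]
    have h3 : ∑ T ∈ F, Den_mob (fun S => G (S ∩ W)) T = ∑ T ∈ W.powerset, Den_mob (fun S => G (S ∩ W)) T := by
      symm
      refine sum_subset ?_ ?_
      · intro T hT
        rw [mem_powerset] at hT
        rw [hF, mem_filter]
        exact ⟨mem_univ _, (card_le_card hT).trans hWc⟩
      · intro T _ hT
        rw [mem_powerset] at hT
        exact Den_mob_zero G W T hT
    rw [h3, Den_mob_sum]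
    simp only [inter_self, hG]
    have h4 : f.filter (fun y => y.1 ∈ W) = f := by
      rw [filter_eq_self]
      exact fun y hy => mem_image_of_mem _ hy
    have h6 : W.card ≤ k := (card_le_univ _).trans (by rw [Fintype.card_fin])
    rw [h4, ← mul_assoc, ← pow_add, Nat.sub_add_cancel h6]
  · push Not at hf
    obtain ⟨x, hx, y, hy, hxy, hne⟩ := hf
    rw [hfun f x y hx hy hne hxy, mul_zero]
    refine sum_eq_zero fun z _ => ?_
    have : ext f z = 0 := by
      unfold ext
      rw [if_neg]
      intro h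
      have h1 := h x hx
      have h2 := h y hy
      apply hne
      refine Prod.ext hxy ?_
      rw [← h1, ← h2, hxy]
    rw [this, mul_zero]

end Pool.Agent.H9.SD
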