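import Pool.Agent.H9.SD.Defs

/-!
Module Dps.  Positivity and value of the signed density.
`ext f x * ext g x = ext (f ∪ g) x`, so `∑ x, D x * q x ^ 2 = ∑ f, ∑ g, c f * c g * ∑ x, D x * ext (f ∪ g) x = n ^ k * ∑ f, ∑ g, c f * c g * E (f ∪ g)`.
`Dps_val`: `∑ x, D x = n ^ k` (`ext ∅`); for `i ≠ j`: `(if G.Adj (x i) (x j) then 1 else 0) = ∑ u, ∑ v, if G.Adj u v then ext {(i, u), (j, v)} x else 0`, so `∑ x, D x * .. = n ^ k * ∑ u, ∑ v with u, v adjacent, E {(i, u), (j, v)}`;
the other `u, v` have `E .. = 0` (`hadj`), and `∑ u, ∑ v, E {(i, u), (j, v)} = ∑ u, E {(i, u)} = E ∅ = 1` by `hlin`.  For `i = j` the term is `0`.  The number of ordered pairs `i ≠ j` is `k * (k - 1)`.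
-/

set_option autoImplicit false
set_option linter.unusedSectionVars false

open Finset

namespace Pool.Agent.H9.SD

theorem Dps_ext_mul {k : ℕ} {A : Type} [DecidableEq A] (f g : Finset (Fin k × A)) (x : Fin k → A) :
    ext f x * ext g x = ext (f ∪ g) x := by
  unfold ext
  by_cases h1 : ∀ y ∈ f, x y.1 = y.2
  · by_cases h2 : ∀ y ∈ g, x y.1 = y.2
    · have h3 : ∀ y ∈ f ∪ g, x y.1 = y.2 := by
        intro y hy
        rcases Finset.mem_union.1 hy with h | h
        · exact h1 y h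
        · exact h2 y h
      rw [if_pos h1, if_pos h2, if_pos h3, one_mul]
    · have h3 : ¬ ∀ y ∈ f ∪ g, x y.1 = y.2 := fun h => h2 fun y hy => h y (Finset.mem_union_right _ hy)
      rw [if_neg h2, if_neg h3, mul_zero]
  · have h3 : ¬ ∀ y ∈ f ∪ g, x y.1 = y.2 := fun h => h1 fun y hy => h y (Finset.mem_union_left _ hy)
    rw [if_neg h1, if_neg h3, zero_mul]

theorem Dps_ext_pair {k : ℕ} {A : Type} [DecidableEq A] (i j : Fin k) (u v : A) (x : Fin k → A) :
    ext {(i, u), (j, v)} x = if x i = u ∧ x j = v then 1 else 0 := by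
  unfold ext
  congr 1
  apply propext
  constructor
  · intro h
    exact ⟨h (i, u) (by simp), h (j, v) (by simp)⟩
  · rintro ⟨h1, h2⟩ y hy
    rw [Finset.mem_insert, Finset.mem_singleton] at hy
    rcases hy with rfl | rfl
    · exact h1
    · exact h2

theorem Dps_main {k n : ℕ} (s : ℕ) (E : Finset (Fin k × Fin n) → ℝ)
    (hpsd : ∀ c : Finset (Fin k × Fin n) → ℝ, (∀ f, s < f.card → c f = 0) → 0 ≤ ∑ f, ∑ g, c f * c g * E (f ∪ g))
    (D : (Fin k → Fin n) → ℝ)
    (hD : ∀ f : Finset (Fin k × Fin n), f.card ≤ 2 * s → ∑ x, D x * ext f x = (n : ℝ) ^ k * E f)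
    (q : (Fin k → Fin n) → ℝ) (hq : LowDeg s q) : 0 ≤ ∑ x, D x * q x ^ 2 := by
  obtain ⟨c, hc0, hc⟩ := hq
  have h1 : ∑ x, D x * q x ^ 2 = (n : ℝ) ^ k * ∑ f, ∑ g, c f * c g * E (f ∪ g) := by
    have e1 : ∀ x, D x * q x ^ 2 = ∑ f, ∑ g, c f * c g * (D x * ext (f ∪ g) x) := by
      intro x
      rw [hc x, pow_two, Finset.sum_mul_sum, Finset.mul_sum]
      refine Finset.sum_congr rfl fun f _ => ?_
      rw [Finset.mul_sum]
      refine Finset.sum_congr rfl fun g _ => ?_
      rw [← Dps_ext_mul]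
      ring
    rw [Finset.sum_congr rfl fun x _ => e1 x, Finset.sum_comm, Finset.mul_sum]
    refine Finset.sum_congr rfl fun f _ => ?_
    rw [Finset.sum_comm, Finset.mul_sum]
    refine Finset.sum_congr rfl fun g _ => ?_
    rw [← Finset.mul_sum]
    by_cases hf : s < f.card
    · rw [hc0 f hf]
      ring
    by_cases hg : s < g.card
    · rw [hc0 g hg]
      ring
    rw [hD (f ∪ g) ((Finset.card_union_le f g).trans (by omega))]
    ring
  rw [h1]
  exact mul_nonneg (by positivity) (hpsd c hc0)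

open Classical in
theorem Dps_pair {k n : ℕ} (d : ℕ) (hd : 2 ≤ d) (G : SimpleGraph (Fin n)) (E : Finset (Fin k × Fin n) → ℝ)
    (h1 : E ∅ = 1)
    (hlin : ∀ f : Finset (Fin k × Fin n), f.card < d → ∀ j : Fin k, ∑ v, E (insert (j, v) f) = E f)
    (hadj : ∀ (f : Finset (Fin k × Fin n)) (x y : Fin k × Fin n), x ∈ f → y ∈ f → x ≠ y →
      ¬ (x.1 ≠ y.1 ∧ G.Adj x.2 y.2) → E f = 0)
    (D : (Fin k → Fin n) → ℝ)
    (hD : ∀ f : Finset (Fin k × Fin n), f.card ≤ d → ∑ x, D x * ext f x = (n : ℝ) ^ k * E f)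
    (i j : Fin k) (hij : i ≠ j) :
    ∑ x, D x * (if G.Adj (x i) (x j) then (1 : ℝ) else 0) = (n : ℝ) ^ k := by
  have e1 : ∀ x : Fin k → Fin n, D x * (if G.Adj (x i) (x j) then (1 : ℝ) else 0) =
      ∑ u, ∑ v, (if G.Adj u v then (1 : ℝ) else 0) * (D x * ext {(i, u), (j, v)} x) := by
    intro x
    have e2 : ∑ u, ∑ v, (if G.Adj u v then (1 : ℝ) else 0) * (D x * ext {(i, u), (j, v)} x) =
        ∑ u, ∑ v, if u = x i then (if v = x j then (if G.Adj u v then (1 : ℝ) else 0) * D x else 0)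
          else 0 := by
      refine Finset.sum_congr rfl fun u _ => Finset.sum_congr rfl fun v _ => ?_
      rw [Dps_ext_pair]
      by_cases hu : u = x i
      · by_cases hv : v = x j
        · have hp : x i = u ∧ x j = v := ⟨hu.symm, hv.symm⟩
          rw [if_pos hp, if_pos hu, if_pos hv, mul_one]
        · have hp : ¬ (x i = u ∧ x j = v) := fun h => hv h.2.symm
          rw [if_neg hp, if_pos hu, if_neg hv, mul_zero, mul_zero]
      · have hp : ¬ (x i = u ∧ x j = v) := fun h => hu h.1.symm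
        rw [if_neg hp, if_neg hu, mul_zero, mul_zero]
    rw [e2]
    have e3 : ∀ u : Fin n, (∑ v, if u = x i then (if v = x j then (if G.Adj u v then (1 : ℝ) else 0) * D x
        else 0) else 0) = if u = x i then (if G.Adj u (x j) then (1 : ℝ) else 0) * D x else 0 := by
      intro u
      by_cases hu : u = x i
      · simp only [if_pos hu]
        rw [Finset.sum_ite_eq' univ (x j) (fun v => (if G.Adj u v then (1 : ℝ) else 0) * D x),
          if_pos (Finset.mem_univ _)]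
      · simp only [if_neg hu, Finset.sum_const_zero]
    rw [Finset.sum_congr rfl fun u _ => e3 u,
      Finset.sum_ite_eq' univ (x i) (fun u => (if G.Adj u (x j) then (1 : ℝ) else 0) * D x),
      if_pos (Finset.mem_univ _), mul_comm]
  rw [Finset.sum_congr rfl fun x _ => e1 x, Finset.sum_comm]
  have e4 : ∀ u : Fin n, ∑ x, ∑ v, (if G.Adj u v then (1 : ℝ) else 0) * (D x * ext {(i, u), (j, v)} x) =
      (n : ℝ) ^ k * E {(i, u)} := by
    intro u
    rw [Finset.sum_comm]
    have e5 : ∀ v : Fin n, ∑ x, (if G.Adj u v then (1 : ℝ) else 0) * (D x * ext {(i, u), (j, v)} x) =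
        (n : ℝ) ^ k * E (insert (j, v) {(i, u)}) := by
      intro v
      rw [← Finset.mul_sum, hD _ (Finset.card_le_two.trans hd), Finset.pair_comm]
      by_cases huv : G.Adj u v
      · rw [if_pos huv, one_mul]
      · rw [if_neg huv, zero_mul, hadj (insert (j, v) {(i, u)}) (i, u) (j, v) (by simp) (by simp)
          (fun h => hij (congrArg Prod.fst h)) (fun h => huv h.2), mul_zero]
    rw [Finset.sum_congr rfl fun v _ => e5 v, ← Finset.mul_sum,
      hlin {(i, u)} (by rw [Finset.card_singleton]; omega) j]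
  rw [Finset.sum_congr rfl fun u _ => e4 u, ← Finset.mul_sum]
  have e6 : ∑ u, E {(i, u)} = 1 := by
    have e7 := hlin ∅ (by rw [Finset.card_empty]; omega) i
    rw [h1] at e7
    exact e7
  rw [e6, mul_one]

open Classical in
theorem Dps_val {k n : ℕ} (d : ℕ) (hd : 2 ≤ d) (G : SimpleGraph (Fin n)) (E : Finset (Fin k × Fin n) → ℝ)
    (h1 : E ∅ = 1)
    (hlin : ∀ f : Finset (Fin k × Fin n), f.card < d → ∀ j : Fin k, ∑ v, E (insert (j, v) f) = E f)
    (hadj : ∀ (f : Finset (Fin k × Fin n)) (x y : Fin k × Fin n), x ∈ f → y ∈ f → x ≠ y →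
      ¬ (x.1 ≠ y.1 ∧ G.Adj x.2 y.2) → E f = 0)
    (D : (Fin k → Fin n) → ℝ)
    (hD : ∀ f : Finset (Fin k × Fin n), f.card ≤ d → ∑ x, D x * ext f x = (n : ℝ) ^ k * E f) (ρ : ℝ) :
    ∑ x, D x * (((k : ℝ) * (k - 1) - ρ) - ∑ i, ∑ j, if G.Adj (x i) (x j) then (1 : ℝ) else 0) =
      -ρ * (n : ℝ) ^ k := by
  have e0 : ∑ x, D x = (n : ℝ) ^ k := by
    have e1 := hD ∅ (by simp)
    rw [h1, mul_one] at e1
    rw [← e1]
    refine Finset.sum_congr rfl fun x _ => ?_
    have e2 : ext (∅ : Finset (Fin k × Fin n)) x = 1 := by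
      unfold ext
      exact if_pos fun y hy => absurd hy (Finset.notMem_empty y)
    rw [e2, mul_one]
  have e1 : ∑ x, D x * (((k : ℝ) * (k - 1) - ρ) - ∑ i, ∑ j, if G.Adj (x i) (x j) then (1 : ℝ) else 0) =
      ((k : ℝ) * (k - 1) - ρ) * ∑ x, D x -
        ∑ i, ∑ j, ∑ x, D x * (if G.Adj (x i) (x j) then (1 : ℝ) else 0) := by
    rw [Finset.mul_sum]
    have e2 : ∑ i : Fin k, ∑ j : Fin k, ∑ x, D x * (if G.Adj (x i) (x j) then (1 : ℝ) else 0) =
        ∑ x, D x * ∑ i : Fin k, ∑ j : Fin k, (if G.Adj (x i) (x j) then (1 : ℝ) else 0) := by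
      have e3 : ∀ x : Fin k → Fin n, D x * ∑ i : Fin k, ∑ j : Fin k, (if G.Adj (x i) (x j) then (1 : ℝ) else 0) =
          ∑ i : Fin k, ∑ j : Fin k, D x * (if G.Adj (x i) (x j) then (1 : ℝ) else 0) := by
        intro x
        rw [Finset.mul_sum]
        exact Finset.sum_congr rfl fun i _ => Finset.mul_sum _ _ _
      have e4 : ∀ i : Fin k, ∑ j : Fin k, ∑ x, D x * (if G.Adj (x i) (x j) then (1 : ℝ) else 0) =
          ∑ x, ∑ j : Fin k, D x * (if G.Adj (x i) (x j) then (1 : ℝ) else 0) := by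
        intro i
        exact Finset.sum_comm
      have e5 : ∑ i : Fin k, ∑ x, ∑ j : Fin k, D x * (if G.Adj (x i) (x j) then (1 : ℝ) else 0) =
          ∑ x, ∑ i : Fin k, ∑ j : Fin k, D x * (if G.Adj (x i) (x j) then (1 : ℝ) else 0) :=
        Finset.sum_comm
      exact ((Finset.sum_congr rfl fun i _ => e4 i).trans e5).trans
        (Finset.sum_congr rfl fun x _ => (e3 x).symm)
    rw [e2, ← Finset.sum_sub_distrib]
    exact Finset.sum_congr rfl fun x _ => by ring
  have e2 : ∀ i j : Fin k, ∑ x, D x * (if G.Adj (x i) (x j) then (1 : ℝ) else 0) =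
      (n : ℝ) ^ k * (1 - if i = j then 1 else 0) := by
    intro i j
    by_cases hij : i = j
    · subst hij
      rw [if_pos rfl, sub_self, mul_zero]
      refine Finset.sum_eq_zero fun x _ => ?_
      rw [if_neg (G.loopless.irrefl (x i)), mul_zero]
    · rw [if_neg hij, sub_zero, mul_one]
      exact Dps_pair d hd G E h1 hlin hadj D hD i j hij
  have e3 : ∑ i : Fin k, ∑ j : Fin k, ∑ x, D x * (if G.Adj (x i) (x j) then (1 : ℝ) else 0) =
      (n : ℝ) ^ k * ((k : ℝ) * (k - 1)) := by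
    have e4 : ∀ i : Fin k, ∑ j : Fin k, ∑ x, D x * (if G.Adj (x i) (x j) then (1 : ℝ) else 0) =
        (n : ℝ) ^ k * ((k : ℝ) - 1) := by
      intro i
      rw [Finset.sum_congr rfl fun j _ => e2 i j, ← Finset.mul_sum, Finset.sum_sub_distrib,
        Finset.sum_ite_eq univ i (fun _ => (1 : ℝ)), if_pos (Finset.mem_univ _), Finset.sum_const,
        Finset.card_univ, Fintype.card_fin, nsmul_eq_mul, mul_one]
    rw [Finset.sum_congr rfl fun i _ => e4 i, Finset.sum_const, Finset.card_univ, Fintype.card_fin,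
      nsmul_eq_mul]
    ring
  rw [e1, e0, e3]
  ring

end Pool.Agent.H9.SD
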