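import Mathlib

/-!
# SDP relaxations of `k`-clique
-/

set_option autoImplicit false

open Finset

namespace Pool.Agent.H9.SD

/-- The real function `w` of graphs on the `k` indices is a sum of functions each of which depends only on the edges between
at most `d` of the indices.  (For example the number of edges, with `d = 2`, or the number of cliques with `d` vertices.) -/
def LocalObjective {k : ℕ} (d : ℕ) (w : SimpleGraph (Fin k) → ℝ) : Prop :=
  ∃ g : Finset (Fin k) → SimpleGraph (Fin k) → ℝ,
    (∀ (J : Finset (Fin k)) (H H' : SimpleGraph (Fin k)), (∀ i ∈ J, ∀ j ∈ J, H.Adj i j ↔ H'.Adj i j) →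
      g J H = g J H') ∧
    ∀ H, w H = ∑ J ∈ (univ : Finset (Finset (Fin k))).filter (fun J => J.card ≤ d), g J H

/-- An SDP relaxation of size `R` for `k`-clique on `N` vertices gives a positive semidefinite matrix `B F` for each choice
`F` of `k` different vertices (independent of the graph).  It certifies for the graph `G` that `w (G.comap F) ≤ w ⊤ - ρ` for
all `F` if there are a positive semidefinite matrix `P` and `z ≥ 0` with `w ⊤ - ρ - w (G.comap F) = trace (P * B F) + z` for
all `F`.  Here `G.comap F` is the graph on the indices in which `i`, `j` are adjacent if `F i`, `F j` are adjacent in `G`; it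
is the complete graph `⊤` if and only if the vertices `F i` form a clique. -/
def Certifies2 {k N R : ℕ} (w : SimpleGraph (Fin k) → ℝ) (B : (Fin k ↪ Fin N) → Matrix (Fin R) (Fin R) ℝ)
    (G : SimpleGraph (Fin N)) (ρ : ℝ) : Prop :=
  ∃ (P : Matrix (Fin R) (Fin R) ℝ) (z : ℝ), P.PosSemidef ∧ 0 ≤ z ∧
    ∀ F : Fin k ↪ Fin N, w ⊤ - ρ - w (G.comap F) = (P * B F).trace + z

open Classical in
/-- The number of ordered pairs of adjacent indices. -/
noncomputable def edgeCount {k : ℕ} (H : SimpleGraph (Fin k)) : ℝ := ∑ i, ∑ j, if H.Adj i j then (1 : ℝ) else 0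

end Pool.Agent.H9.SD
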