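import Pool.Agent.H9.SD.Defs
import Pool.Agent.H9.SD.Stm2

/-!
Module Dvl.  The value of a local objective under the signed density.
Fix `J` with at most `d` elements and put `h x = g J (G.comap x) - g J ⊤`; it depends only on the values of `x` on `J`, and it is `0` if the `x i`, `i ∈ J`, are pairwise adjacent (for different `i`).  Let `γ y = J.image (fun i => (i, y i))`.
`(number of y that agree with x on J) = n ^ (k - |J|)`, so `n ^ (k - |J|) * ∑ x, D x * h x = ∑ y, ∑ x, D x * h x * ext (γ y) x = ∑ y, h y * ∑ x, D x * ext (γ y) x = ∑ y, h y * n ^ k * E (γ y) = 0`: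
each term is `0`, because `h y = 0` or `E (γ y) = 0` by `hadj`.  Hence `∑ x, D x * w (G.comap x) = w ⊤ * ∑ x, D x = w ⊤ * n ^ k` (`ext ∅`, `h1`).
-/

set_option autoImplicit false
set_option linter.unusedSectionVars false

open Finset

namespace Pool.Agent.H9.SD

theorem Dvl_loc {k n : ℕ} (d : ℕ) (G : SimpleGraph (Fin n)) (E : Finset (Fin k × Fin n) → ℝ)
    (hadj : ∀ (f : Finset (Fin k × Fin n)) (x y : Fin k × Fin n), x ∈ f → y ∈ f → x ≠ y →
      ¬ (x.1 ≠ y.1 ∧ G.Adj x.2 y.2) → E f = 0)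
    (D : (Fin k → Fin n) → ℝ)
    (hD : ∀ f : Finset (Fin k × Fin n), f.card ≤ d → ∑ x, D x * ext f x = (n : ℝ) ^ k * E f)
    (J : Finset (Fin k)) (hJ : J.card ≤ d) (h : (Fin k → Fin n) → ℝ)
    (hdep : ∀ x y : Fin k → Fin n, (∀ i ∈ J, x i = y i) → h x = h y)
    (h0 : ∀ y : Fin k → Fin n, (∀ i ∈ J, ∀ j ∈ J, i ≠ j → G.Adj (y i) (y j)) → h y = 0) :
    ∑ x, D x * h x = 0 := by
  classical
  have hext : ∀ y x : Fin k → Fin n, ext (J.image (fun i => (i, y i))) x =
      if ∀ i ∈ J, x i = y i then 1 else 0 := by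
    intro y x
    unfold ext
    by_cases h1 : ∀ i ∈ J, x i = y i
    · rw [if_pos h1, if_pos]
      intro z hz
      obtain ⟨i, hi, rfl⟩ := Finset.mem_image.mp hz
      exact h1 i hi
    · rw [if_neg h1, if_neg]
      intro h2
      exact h1 (fun i hi => h2 (i, y i) (Finset.mem_image.mpr ⟨i, hi, rfl⟩))
  have hE : ∀ y : Fin k → Fin n, h y * E (J.image (fun i => (i, y i))) = 0 := by
    intro y
    by_cases hy : ∀ i ∈ J, ∀ j ∈ J, i ≠ j → G.Adj (y i) (y j)
    · rw [h0 y hy, zero_mul]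
    · push Not at hy
      obtain ⟨i, hi, j, hj, hij, hn⟩ := hy
      rw [hadj (J.image (fun i => (i, y i))) (i, y i) (j, y j) (Finset.mem_image.mpr ⟨i, hi, rfl⟩)
        (Finset.mem_image.mpr ⟨j, hj, rfl⟩) (fun h1 => hij (congrArg Prod.fst h1)) (fun h1 => hn h1.2), mul_zero]
  obtain ⟨c, hc⟩ : ∃ c : (Fin k → Fin n) → ℝ, ∀ x, c x =
      ∑ y : Fin k → Fin n, if (∀ i ∈ J, x i = y i) then (1 : ℝ) else 0 := ⟨_, fun x => rfl⟩
  have hc0 : ∀ x, 0 < c x := by
    intro x
    rw [hc]
    refine Finset.sum_pos' (fun y _ => by split_ifs <;> norm_num) ⟨x, Finset.mem_univ x, ?_⟩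
    rw [if_pos (fun i _ => rfl)]
    exact one_pos
  have hcc : ∀ x y : Fin k → Fin n, (∀ i ∈ J, x i = y i) → c y = c x := by
    intro x y hxy
    rw [hc, hc]
    refine Finset.sum_congr rfl (fun z _ => if_congr ?_ rfl rfl)
    constructor
    · intro h1 i hi
      rw [hxy i hi, h1 i hi]
    · intro h1 i hi
      rw [← hxy i hi, h1 i hi]
  have h2 : ∀ x, h x = ∑ y : Fin k → Fin n, (if (∀ i ∈ J, x i = y i) then (1 : ℝ) else 0) * (h y / c y) := by
    intro x
    have h3 : ∀ y ∈ (Finset.univ : Finset (Fin k → Fin n)),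
        (if (∀ i ∈ J, x i = y i) then (1 : ℝ) else 0) * (h y / c y) =
        (if (∀ i ∈ J, x i = y i) then (1 : ℝ) else 0) * (h x / c x) := by
      intro y _
      by_cases h4 : ∀ i ∈ J, x i = y i
      · rw [hcc x y h4, hdep x y h4]
      · rw [if_neg h4, zero_mul, zero_mul]
    rw [Finset.sum_congr rfl h3, ← Finset.sum_mul, ← hc x, mul_div_cancel₀ _ (hc0 x).ne']
  have h5 : ∑ x, D x * h x = ∑ y : Fin k → Fin n, h y / c y *
      ∑ x, D x * ext (J.image (fun i => (i, y i))) x := by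
    have h6 : ∀ x ∈ (Finset.univ : Finset (Fin k → Fin n)), D x * h x =
        ∑ y : Fin k → Fin n, h y / c y * (D x * ext (J.image (fun i => (i, y i))) x) := by
      intro x _
      conv_lhs => rw [h2 x]
      rw [Finset.mul_sum]
      refine Finset.sum_congr rfl (fun y _ => ?_)
      rw [hext]
      ring
    rw [Finset.sum_congr rfl h6, Finset.sum_comm]
    exact Finset.sum_congr rfl (fun y _ => by rw [Finset.mul_sum])
  rw [h5]
  refine Finset.sum_eq_zero (fun y _ => ?_)
  rw [hD _ (Finset.card_image_le.trans hJ)]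
  calc h y / c y * ((n : ℝ) ^ k * E (J.image (fun i => (i, y i))))
      = h y * E (J.image (fun i => (i, y i))) * ((n : ℝ) ^ k / c y) := by ring
    _ = 0 := by rw [hE y, zero_mul]

theorem Dvl_main {k n : ℕ} (hn : 0 < n) (d : ℕ) (G : SimpleGraph (Fin n)) (E : Finset (Fin k × Fin n) → ℝ)
    (h1 : E ∅ = 1)
    (hadj : ∀ (f : Finset (Fin k × Fin n)) (x y : Fin k × Fin n), x ∈ f → y ∈ f → x ≠ y →
      ¬ (x.1 ≠ y.1 ∧ G.Adj x.2 y.2) → E f = 0)
    (D : (Fin k → Fin n) → ℝ)
    (hD : ∀ f : Finset (Fin k × Fin n), f.card ≤ d → ∑ x, D x * ext f x = (n : ℝ) ^ k * E f)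
    (w : SimpleGraph (Fin k) → ℝ) (hw : LocalObjective d w) :
    ∑ x : Fin k → Fin n, D x * w (G.comap x) = (n : ℝ) ^ k * w ⊤ := by
  classical
  obtain ⟨g, hg1, hg2⟩ := hw
  have hD1 : ∑ x, D x = (n : ℝ) ^ k := by
    have h2 := hD ∅ (by rw [Finset.card_empty]; exact Nat.zero_le d)
    rw [h1, mul_one] at h2
    rw [← h2]
    refine Finset.sum_congr rfl (fun x _ => ?_)
    unfold ext
    rw [if_pos (fun y hy => absurd hy (Finset.notMem_empty y)), mul_one]
  have hJ : ∀ J : Finset (Fin k), J.card ≤ d →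
      ∑ x : Fin k → Fin n, D x * g J (G.comap x) = (n : ℝ) ^ k * g J ⊤ := by
    intro J hJd
    have h3 := Dvl_loc d G E hadj D hD J hJd (fun x => g J (G.comap x) - g J ⊤)
      (by
        intro x y hxy
        have h4 : g J (G.comap x) = g J (G.comap y) := by
          refine hg1 J _ _ (fun i hi j hj => ?_)
          rw [SimpleGraph.comap_adj, SimpleGraph.comap_adj, hxy i hi, hxy j hj]
        simp only [h4])
      (by
        intro y hy
        have h4 : g J (G.comap y) = g J ⊤ := by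
          refine hg1 J _ _ (fun i hi j hj => ?_)
          rw [SimpleGraph.comap_adj, SimpleGraph.top_adj]
          constructor
          · rintro h5 rfl
            exact G.loopless.irrefl _ h5
          · intro h5
            exact hy i hi j hj h5
        simp only [h4, sub_self])
    simp only [mul_sub, Finset.sum_sub_distrib] at h3
    rw [← Finset.sum_mul, hD1] at h3
    linarith
  simp only [hg2, Finset.mul_sum]
  rw [Finset.sum_comm]
  refine Finset.sum_congr rfl (fun J hJm => ?_)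
  exact hJ J (Finset.mem_filter.mp hJm).2

end Pool.Agent.H9.SD
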