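import Pool.Agent.H9.SD.Defs

/-!
Module Efa.  Basic properties of the Efron-Stein components.
`Efa_sum`: `∑ B, ∑ C ⊆ B, (-1)^|B \ C| av C h = ∑ C, av C h * ∑ B ⊇ C, (-1)^|B \ C|`, the inner sum is `0` unless `C = univ` (Finset.sum_powerset_neg_one_pow_card for `univ \ C`), and `av univ h = h`.
`Efa_zero`: for `v ∈ B`, pair the `C ⊆ B` with `v ∉ C` with `insert v C`: `∑ a, av (insert v C) h (update ψ v a) = |A| * av C h ψ = ∑ a, av C h (update ψ v a)` for `v ∉ C`.
`Efa_van`: take `v ∈ B \ C`; `av (insert v C') h = av C' h` because `h` does not depend on `v`; the terms cancel in pairs.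
-/

set_option autoImplicit false
set_option linter.unusedSectionVars false

open Finset

namespace Pool.Agent.H9.SD

variable {ι A : Type} [Fintype ι] [DecidableEq ι] [Fintype A] [DecidableEq A] [Nonempty A]

private theorem Efa_av_univ (h : (ι → A) → ℝ) (ψ : ι → A) : av univ h ψ = h ψ := by
  unfold av
  have h0 : (Fintype.card (ι → A) : ℝ) ≠ 0 := by
    have : 0 < Fintype.card (ι → A) := Fintype.card_pos
    positivity
  have h1 : ∀ φ : ι → A, h (fun v => if v ∈ (univ : Finset ι) then ψ v else φ v) = h ψ := by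
    intro φ
    congr 1
    funext v
    rw [if_pos (mem_univ v)]
  rw [Finset.sum_congr rfl fun φ _ => h1 φ, Finset.sum_const, card_univ, nsmul_eq_mul,
    mul_div_cancel_left₀ _ h0]

private theorem Efa_av_dep (C : Finset ι) (h : (ι → A) → ℝ) : Dep C (av C h) := by
  intro ψ ψ' hψ
  unfold av
  congr 1
  refine Finset.sum_congr rfl fun φ _ => ?_
  congr 1
  funext v
  by_cases hv : v ∈ C
  · rw [if_pos hv, if_pos hv, hψ v hv]
  · rw [if_neg hv, if_neg hv]

private theorem Efa_sum_update (g : (ι → A) → ℝ) (v : ι) :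
    ∑ φ : ι → A, ∑ a : A, g (Function.update φ v a) = (Fintype.card A : ℝ) * ∑ φ : ι → A, g φ := by
  let e : (ι → A) × A ≃ (ι → A) × A :=
    { toFun := fun p => (Function.update p.1 v p.2, p.1 v)
      invFun := fun p => (Function.update p.1 v p.2, p.1 v)
      left_inv := fun p => by
        simp
      right_inv := fun p => by
        simp }
  rw [← Fintype.sum_prod_type' (f := fun φ a => g (Function.update φ v a))]
  rw [Fintype.sum_equiv e (fun p => g (Function.update p.1 v p.2)) (fun p => g p.1) fun p => rfl]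
  rw [Fintype.sum_prod_type, Finset.mul_sum]
  refine Finset.sum_congr rfl fun φ _ => ?_
  simp

private theorem Efa_split (B : Finset ι) (h : (ι → A) → ℝ) (v : ι) (hv : v ∈ B) (ψ : ι → A) :
    es B h ψ = ∑ t ∈ (B.erase v).powerset,
      (-1 : ℝ) ^ ((B.erase v) \ t).card * (av (insert v t) h ψ - av t h ψ) := by
  unfold es
  have hv' : v ∉ B.erase v := Finset.notMem_erase v B
  conv_lhs => rw [← Finset.insert_erase hv]
  rw [Finset.sum_powerset_insert hv', ← Finset.sum_add_distrib]
  refine Finset.sum_congr rfl fun t ht => ?_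
  have hvt : v ∉ t := fun h1 => hv' (Finset.mem_powerset.1 ht h1)
  have h1 : (insert v (B.erase v) \ t).card = ((B.erase v) \ t).card + 1 := by
    rw [Finset.insert_sdiff_of_notMem _ hvt, Finset.card_insert_of_notMem]
    intro h2
    exact hv' (Finset.mem_sdiff.1 h2).1
  have h2 : insert v (B.erase v) \ insert v t = (B.erase v) \ t := by
    ext w
    simp only [Finset.mem_sdiff, Finset.mem_insert, Finset.mem_erase]
    tauto
  rw [h1, h2, pow_succ]
  ring

theorem Efa_sum (h : (ι → A) → ℝ) (ψ : ι → A) : ∑ B : Finset ι, es B h ψ = h ψ := by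
  unfold es
  have h1 : ∑ B : Finset ι, ∑ C ∈ B.powerset, (-1 : ℝ) ^ (B \ C).card * av C h ψ =
      ∑ C : Finset ι, ∑ B ∈ (univ : Finset (Finset ι)).filter (fun B => C ⊆ B),
        (-1 : ℝ) ^ (B \ C).card * av C h ψ := by
    refine Finset.sum_comm' fun B C => ?_
    simp
  rw [h1]
  have h2 : ∀ C : Finset ι, ∑ B ∈ (univ : Finset (Finset ι)).filter (fun B => C ⊆ B),
      (-1 : ℝ) ^ (B \ C).card * av C h ψ = if C = univ then av C h ψ else 0 := by
    intro C
    rw [← Finset.sum_mul]
    have h3 : ∑ B ∈ (univ : Finset (Finset ι)).filter (fun B => C ⊆ B), (-1 : ℝ) ^ (B \ C).card =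
        ∑ D ∈ (univ \ C).powerset, (-1 : ℝ) ^ D.card := by
      refine Finset.sum_nbij' (fun B => B \ C) (fun D => D ∪ C) ?_ ?_ ?_ ?_ ?_
      · intro B _
        rw [Finset.mem_powerset]
        exact Finset.sdiff_subset_sdiff (Finset.subset_univ B) (Finset.Subset.refl C)
      · intro D _
        simp
      · intro B hB
        simp only [Finset.mem_filter, Finset.mem_univ, true_and] at hB
        exact Finset.sdiff_union_of_subset hB
      · intro D hD
        rw [Finset.mem_powerset] at hD
        ext w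
        simp only [Finset.mem_sdiff, Finset.mem_union]
        constructor
        · rintro ⟨h4 | h4, h5⟩
          · exact h4
          · exact absurd h4 h5
        · intro h4
          exact ⟨Or.inl h4, (Finset.mem_sdiff.1 (hD h4)).2⟩
      · intro B _
        rfl
    have h4 : ∑ D ∈ (univ \ C).powerset, (-1 : ℝ) ^ D.card = if (univ \ C) = ∅ then 1 else 0 := by
      have h5 := Finset.sum_powerset_neg_one_pow_card (x := univ \ C)
      have h6 : ((∑ m ∈ (univ \ C).powerset, (-1 : ℤ) ^ m.card : ℤ) : ℝ) =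
        ((if (univ \ C) = ∅ then 1 else 0 : ℤ) : ℝ) := by rw [h5]
      push_cast at h6
      rw [h6]
    rw [h3, h4]
    have h7 : (univ \ C) = ∅ ↔ C = univ := by
      rw [Finset.sdiff_eq_empty_iff_subset, Finset.univ_subset_iff]
    by_cases h8 : C = univ
    · rw [if_pos (h7.2 h8), if_pos h8, one_mul]
    · rw [if_neg fun h9 => h8 (h7.1 h9), if_neg h8, zero_mul]
  rw [Finset.sum_congr rfl fun C _ => h2 C, Finset.sum_ite_eq' univ univ, if_pos (Finset.mem_univ _)]
  exact Efa_av_univ h ψ

theorem Efa_dep (B : Finset ι) (h : (ι → A) → ℝ) : Dep B (es B h) := by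
  intro ψ ψ' hψ
  unfold es
  refine Finset.sum_congr rfl fun C hC => ?_
  rw [Efa_av_dep C h ψ ψ' fun v hv => hψ v (Finset.mem_powerset.1 hC hv)]

theorem Efa_zero (B : Finset ι) (h : (ι → A) → ℝ) (v : ι) (hv : v ∈ B) (ψ : ι → A) :
    ∑ a : A, es B h (Function.update ψ v a) = 0 := by
  rw [Finset.sum_congr rfl fun a _ => Efa_split B h v hv (Function.update ψ v a), Finset.sum_comm]
  refine Finset.sum_eq_zero fun t ht => ?_
  have hvt : v ∉ t := fun h1 => Finset.notMem_erase v B (Finset.mem_powerset.1 ht h1)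
  rw [← Finset.mul_sum, Finset.sum_sub_distrib]
  have h1 : ∀ a : A, av t h (Function.update ψ v a) = av t h ψ := by
    intro a
    refine Efa_av_dep t h _ _ fun w hw => ?_
    have hwv : w ≠ v := by
      rintro rfl
      exact hvt hw
    exact Function.update_of_ne hwv _ _
  have h2 : ∑ a : A, av (insert v t) h (Function.update ψ v a) = (Fintype.card A : ℝ) * av t h ψ := by
    unfold av
    rw [← Finset.sum_div, Finset.sum_comm, ← mul_div_assoc,
      ← Efa_sum_update (fun φ => h (fun w => if w ∈ t then ψ w else φ w)) v]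
    congr 1
    refine Finset.sum_congr rfl fun φ _ => Finset.sum_congr rfl fun a _ => ?_
    congr 1
    funext w
    by_cases hw : w = v
    · subst hw
      rw [if_pos (Finset.mem_insert_self _ _), if_neg hvt, Function.update_self,
        Function.update_self]
    · by_cases hwt : w ∈ t
      · rw [if_pos (Finset.mem_insert_of_mem hwt), if_pos hwt, Function.update_of_ne hw]
      · rw [if_neg fun h3 => (Finset.mem_insert.1 h3).elim hw hwt, if_neg hwt,
          Function.update_of_ne hw]
  rw [h2, Finset.sum_congr rfl fun a _ => h1 a, Finset.sum_const, card_univ, nsmul_eq_mul, sub_self,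
    mul_zero]

theorem Efa_lin {κ : Type} (S : Finset κ) (c : κ → ℝ) (h : κ → (ι → A) → ℝ) (B : Finset ι) (ψ : ι → A) :
    es B (fun ψ => ∑ j ∈ S, c j * h j ψ) ψ = ∑ j ∈ S, c j * es B (h j) ψ := by
  have h1 : ∀ C : Finset ι, av C (fun ψ => ∑ j ∈ S, c j * h j ψ) ψ = ∑ j ∈ S, c j * av C (h j) ψ := by
    intro C
    unfold av
    rw [Finset.sum_comm, Finset.sum_div]
    refine Finset.sum_congr rfl fun j _ => ?_
    rw [← Finset.mul_sum, mul_div_assoc]
  unfold es
  rw [Finset.sum_congr rfl fun C _ => by rw [h1 C]]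
  simp only [Finset.mul_sum]
  rw [Finset.sum_comm]
  refine Finset.sum_congr rfl fun j _ => Finset.sum_congr rfl fun C _ => ?_
  ring

theorem Efa_van (B C : Finset ι) (h : (ι → A) → ℝ) (hC : Dep C h) (hB : ¬ B ⊆ C) (ψ : ι → A) : es B h ψ = 0 := by
  obtain ⟨v, hv, hvC⟩ := Finset.not_subset.1 hB
  rw [Efa_split B h v hv]
  refine Finset.sum_eq_zero fun t ht => ?_
  have h1 : av (insert v t) h ψ = av t h ψ := by
    unfold av
    congr 1
    refine Finset.sum_congr rfl fun φ _ => hC _ _ fun w hw => ?_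
    have hwv : w ≠ v := fun h2 => hvC (h2 ▸ hw)
    by_cases hwt : w ∈ t
    · rw [if_pos (Finset.mem_insert_of_mem hwt), if_pos hwt]
    · rw [if_neg fun h3 => (Finset.mem_insert.1 h3).elim hwv hwt, if_neg hwt]
  rw [h1, sub_self, mul_zero]

theorem Efa_loc (m : ℕ) (B : Finset ι) (h : (ι → A) → ℝ) (hh : Loc m h) (hB : m < B.card) (ψ : ι → A) :
    es B h ψ = 0 := by
  obtain ⟨g, hg1, hg2, hg3⟩ := hh
  have h1 : h = fun ψ => ∑ C ∈ (univ : Finset (Finset ι)), (1 : ℝ) * g C ψ := by
    funext ψ
    rw [hg3 ψ]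
    exact Finset.sum_congr rfl fun C _ => (one_mul _).symm
  rw [h1, Efa_lin]
  refine Finset.sum_eq_zero fun C _ => ?_
  rw [one_mul]
  by_cases hC : m < C.card
  · refine Efa_van B ∅ (g C) (fun ψ ψ' _ => by rw [hg2 C hC ψ, hg2 C hC ψ']) (fun h2 => ?_) ψ
    rw [Finset.subset_empty.1 h2] at hB
    simp at hB
  · refine Efa_van B C (g C) (hg1 C) (fun h2 => ?_) ψ
    exact absurd (Finset.card_le_card h2) (by omega)

end Pool.Agent.H9.SD
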