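import Pool.Agent.H9.SD.Efa

/-!
Module Efb.  Orthogonality.   Use only the STATEMENTS of Efa.
`Efb_orth`: there is `v` in exactly one of `B`, `B'`, say `v ∈ B`, `v ∉ B'`.  `|A| * ∑ ψ, G ψ = ∑ ψ, ∑ a, G (update ψ v a)` for every `G` (each point is hit `|A|` times), and `es B' h'` does not depend on `ψ v` (`Efa_dep`), while `∑ a, es B h (update ψ v a) = 0`.
`Efb_norm`, `Efb_hi`, `Efb_lo`: expand the square, orthogonality, `Efa_sum`.
-/

set_option autoImplicit false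
set_option linter.unusedSectionVars false

open Finset

namespace Pool.Agent.H9.SD

variable {ι A : Type} [Fintype ι] [DecidableEq ι] [Fintype A] [DecidableEq A] [Nonempty A]

lemma Efb_upd (G : (ι → A) → ℝ) (v : ι) :
    ∑ ψ : ι → A, ∑ a : A, G (Function.update ψ v a) = (Fintype.card A : ℝ) * ∑ ψ, G ψ := by
  have hinv : Function.Involutive
      (fun p : (ι → A) × A => ((Function.update p.1 v p.2, p.1 v) : (ι → A) × A)) := by
    rintro ⟨ψ, a⟩
    simp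
  have h1 : ∑ p : (ι → A) × A, G (Function.update p.1 v p.2) = ∑ p : (ι → A) × A, G p.1 :=
    Equiv.sum_comp (hinv.toPerm) (fun p : (ι → A) × A => G p.1)
  rw [Fintype.sum_prod_type, Fintype.sum_prod_type] at h1
  rw [h1, Finset.mul_sum]
  refine Finset.sum_congr rfl fun ψ _ => ?_
  simp

lemma Efb_orth' (B B' : Finset ι) (v : ι) (hv : v ∈ B) (hv' : v ∉ B') (h h' : (ι → A) → ℝ) :
    ∑ ψ, es B h ψ * es B' h' ψ = 0 := by
  have h1 := Efb_upd (fun ψ => es B h ψ * es B' h' ψ) v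
  have h2 : ∑ ψ : ι → A, ∑ a : A,
      (fun ψ => es B h ψ * es B' h' ψ) (Function.update ψ v a) = 0 := by
    refine Finset.sum_eq_zero fun ψ _ => ?_
    have h3 : ∀ a : A, es B' h' (Function.update ψ v a) = es B' h' ψ := by
      intro a
      refine Efa_dep B' h' _ _ fun w hw => ?_
      have : w ≠ v := fun hwv => hv' (hwv ▸ hw)
      simp [Function.update, this]
    simp only [h3]
    rw [← Finset.sum_mul, Efa_zero B h v hv ψ, zero_mul]
  rw [h2] at h1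
  have h4 : (Fintype.card A : ℝ) ≠ 0 := by
    exact_mod_cast Fintype.card_ne_zero
  rcases mul_eq_zero.1 h1.symm with h5 | h5
  · exact absurd h5 h4
  · exact h5

theorem Efb_orth (B B' : Finset ι) (hB : B ≠ B') (h h' : (ι → A) → ℝ) : ∑ ψ, es B h ψ * es B' h' ψ = 0 := by
  by_cases hsub : B ⊆ B'
  · have h1 : ¬ B' ⊆ B := fun h2 => hB (Finset.Subset.antisymm hsub h2)
    obtain ⟨v, hv, hv'⟩ := Finset.not_subset.1 h1
    have h3 := Efb_orth' B' B v hv hv' h' h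
    rw [← h3]
    exact Finset.sum_congr rfl fun ψ _ => mul_comm _ _
  · obtain ⟨v, hv, hv'⟩ := Finset.not_subset.1 hsub
    exact Efb_orth' B B' v hv hv' h h'

lemma Efb_sq (S : Finset (Finset ι)) (h : (ι → A) → ℝ) :
    ∑ ψ, (∑ B ∈ S, es B h ψ) ^ 2 = ∑ B ∈ S, ∑ ψ, es B h ψ ^ 2 := by
  have h1 : ∀ ψ : ι → A, (∑ B ∈ S, es B h ψ) ^ 2 = ∑ B ∈ S, ∑ B' ∈ S, es B h ψ * es B' h ψ := by
    intro ψ
    rw [sq, Finset.sum_mul_sum]
  simp only [h1]
  rw [Finset.sum_comm]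
  refine Finset.sum_congr rfl fun B hB => ?_
  rw [Finset.sum_comm]
  rw [Finset.sum_eq_single B]
  · exact Finset.sum_congr rfl fun ψ _ => (sq _).symm
  · intro B' _ hne
    exact Efb_orth B B' (Ne.symm hne) h h
  · intro hn
    exact absurd hB hn

theorem Efb_norm (h : (ι → A) → ℝ) : ∑ ψ, h ψ ^ 2 = ∑ B : Finset ι, ∑ ψ, es B h ψ ^ 2 := by
  rw [← Efb_sq]
  exact Finset.sum_congr rfl fun ψ _ => by rw [Efa_sum]

theorem Efb_add (s : ℕ) (B0 : Finset ι) (h : (ι → A) → ℝ) (ψ : ι → A) : lo s B0 h ψ + hi s B0 h ψ = h ψ := by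
  unfold lo hi
  have h1 : (univ : Finset (Finset ι)).filter (fun B => s < (B ∩ B0).card) =
      (univ : Finset (Finset ι)).filter (fun B => ¬ (B ∩ B0).card ≤ s) :=
    Finset.filter_congr fun B _ => not_le.symm
  rw [h1, Finset.sum_filter_add_sum_filter_not, Efa_sum]

theorem Efb_lo (s : ℕ) (B0 : Finset ι) (h : (ι → A) → ℝ) : ∑ ψ, lo s B0 h ψ ^ 2 ≤ ∑ ψ, h ψ ^ 2 := by
  unfold lo
  rw [Efb_sq, Efb_norm h]
  exact Finset.sum_le_sum_of_subset_of_nonneg (Finset.subset_univ _)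
    fun B _ _ => Finset.sum_nonneg fun ψ _ => sq_nonneg _

theorem Efb_hi (s : ℕ) (B0 : Finset ι) (h : (ι → A) → ℝ) :
    ∑ ψ, hi s B0 h ψ ^ 2 =
      ∑ B ∈ (univ : Finset (Finset ι)).filter (fun B => s < (B ∩ B0).card), ∑ ψ, es B h ψ ^ 2 := by
  unfold hi
  rw [Efb_sq]

theorem Efb_hit {Φ : Type} [Fintype Φ] (s m : ℕ) (I : Φ → Finset ι) (δ : ℝ) (h : (ι → A) → ℝ)
    (hδ : ∀ B : Finset ι, B.card ≤ m →
      ((univ.filter (fun F => s < (B ∩ I F).card)).card : ℝ) ≤ δ * Fintype.card Φ)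
    (hh : Loc m h) : ∑ F, ∑ ψ, hi s (I F) h ψ ^ 2 ≤ δ * Fintype.card Φ * ∑ ψ, h ψ ^ 2 := by
  simp only [Efb_hi]
  rw [Efb_norm h, Finset.mul_sum]
  simp only [Finset.sum_filter]
  rw [Finset.sum_comm]
  refine Finset.sum_le_sum fun B _ => ?_
  have hN : 0 ≤ ∑ ψ, es B h ψ ^ 2 := Finset.sum_nonneg fun ψ _ => sq_nonneg _
  rw [← Finset.sum_filter, Finset.sum_const, nsmul_eq_mul]
  by_cases hB : B.card ≤ m
  · exact mul_le_mul_of_nonneg_right (hδ B hB) hN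
  · have h0 : ∑ ψ, es B h ψ ^ 2 = 0 := by
      refine Finset.sum_eq_zero fun ψ _ => ?_
      rw [Efa_loc m B h hh (not_le.1 hB) ψ]
      norm_num
    rw [h0, mul_zero, mul_zero]

end Pool.Agent.H9.SD
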