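import Pool.Agent.H9.SI.Fnj

/-!
Module Exi.  A graph without large clique that has pseudo-moments for `k`-cliques.
-/

set_option autoImplicit false
set_option linter.unusedSectionVars false

open Finset

namespace Pool.Agent.H9.SD

open Pool.Agent.H9.KR Pool.Agent.H9.SQ Pool.Agent.H9.SI

theorem Exi_graph (s k : ℕ) (hs : 1 ≤ s) (hk : 4 * s ≤ k) :
    ∃ (N n : ℕ) (p ε τ χ : ℝ) (G : SimpleGraph (Fin N)) (U : Finset (Fin N)), 0 < N ∧ k ≤ N ∧
      Num n (2 * s) k p ε τ χ ∧ Reg G U n p ε (4 * (2 * s)) ∧ G.CliqueFree (400 * s + 4) := by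
  classical
  set m : ℕ := k.choose (2 * s) + 2 with hm
  have hm2 : 2 ≤ m := by omega
  have hm0 : (0 : ℝ) < m := by positivity
  set N : ℕ := m ^ (200 * s) with hNdef
  have hpI : (1 / (m : ℝ)) ∈ unitInterval := by
    refine ⟨by positivity, ?_⟩
    rw [div_le_one hm0]
    exact_mod_cast (by omega : 1 ≤ m)
  set p : unitInterval := ⟨1 / (m : ℝ), hpI⟩ with hp
  have hpv : (p : ℝ) = 1 / (m : ℝ) := rfl
  have hp0 : (0 : ℝ) ≤ (p : ℝ) := p.2.1
  have hp1 : (p : ℝ) ≤ 1 := p.2.2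
  have hA : (1 * k.choose (2 * s)) ^ (100 * 1) ≤ N := by
    rw [hNdef, one_mul, mul_one]
    calc (k.choose (2 * s)) ^ 100 ≤ m ^ 100 := Nat.pow_le_pow_left (by omega) _
      _ ≤ m ^ (200 * s) := Nat.pow_le_pow_right (by omega) (by omega)
  have hpN : (1 : ℝ) ≤ N * (p : ℝ) ^ (100 * 1 * (2 * s)) := by
    rw [hpv, hNdef]
    push_cast
    rw [show 100 * 1 * (2 * s) = 200 * s by ring, ← mul_pow, mul_one_div_cancel hm0.ne', one_pow]
  obtain ⟨n, ε, τ, χ, H, hn, hN, hε1, hz, hpr⟩ := Nmb_main N 1 (2 * s) k p le_rfl (by omega) (by omega) hA hp0 hp1 hpN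
  have hN1 : 1 ≤ N := by omega
  have hN0 : (0 : ℝ) < N := by exact_mod_cast (by omega : 0 < N)
  have hnN : n ≤ N := (Nat.le_self_pow (by omega) n).trans hn
  have hkN : k ≤ N := by
    have h1 := H.ρ_le
    have h2 := H.p_pos
    have h3 := H.n_pos
    have h4 : (0 : ℝ) < n * (p : ℝ) ^ (2 * s) := by
      have : (0 : ℝ) < n := by exact_mod_cast h3
      positivity
    have h5 : (1 : ℝ) ≤ ((2 * s : ℕ) : ℝ) := by exact_mod_cast H.r_pos
    have h6 : (k : ℝ) / (n * (p : ℝ) ^ (2 * s)) ≤ 1 := by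
      have h7 : (0 : ℝ) ≤ (k : ℝ) / (n * (p : ℝ) ^ (2 * s)) := by positivity
      nlinarith
    rw [div_le_one h4] at h6
    have h8 : (n : ℝ) * (p : ℝ) ^ (2 * s) ≤ n := by
      have h9 : (p : ℝ) ^ (2 * s) ≤ 1 := pow_le_one₀ hp0 hp1
      have : (0 : ℝ) ≤ n := by positivity
      nlinarith
    have h10 : (k : ℝ) ≤ n := h6.trans h8
    exact (Nat.cast_le.1 h10).trans hnN
  have hw : ∀ G : SimpleGraph (Fin N), 0 ≤ (SimpleGraph.binomialRandom (Fin N) p).real {G} :=
    fun G => MeasureTheory.measureReal_nonneg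
  have h1 := Avg_markov (fun G : SimpleGraph (Fin N) => (SimpleGraph.binomialRandom (Fin N) p).real {G}) hw hnN
    (fun G U => ¬ Reg G U n (p : ℝ) ε (4 * (2 * s))) (1 / (2 * N))
    (fun U hU => (Rgp_main p U n (4 * (2 * s)) hU ε H.ε_pos hε1 hz).trans hpr)
  have h2 : 2 * (1 / (2 * (N : ℝ))) = 1 / N := by
    field_simp
  rw [h2] at h1
  have h3 := FinS_clique (400 * s + 4) N p hN1 (by
    rw [hpv, hNdef]
    push_cast
    rw [← pow_mul, one_div, inv_pow, ← div_eq_mul_inv, div_le_one (by positivity)]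
    refine pow_le_pow_right₀ (by exact_mod_cast (by omega : 1 ≤ m)) ?_
    rw [Nat.choose_two_right, Nat.le_div_iff_mul_le (by norm_num)]
    have h5 : 400 * s + 4 - 1 = 400 * s + 3 := by omega
    rw [h5]
    nlinarith)
  rw [real_eq_pr] at h3
  -- a good graph
  by_contra hcon
  push Not at hcon
  have h4 : ∀ G : SimpleGraph (Fin N), (N.choose n ≤
      2 * ((powersetCard n (univ : Finset (Fin N))).filter (fun U => ¬ Reg G U n (p : ℝ) ε (4 * (2 * s)))).card) ∨
      ¬ G.CliqueFree (400 * s + 4) := by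
    intro G
    by_contra h5
    push Not at h5
    obtain ⟨h5, h6⟩ := h5
    have h7 : ((powersetCard n (univ : Finset (Fin N))).filter
        (fun U => ¬ Reg G U n (p : ℝ) ε (4 * (2 * s)))).card < (powersetCard n (univ : Finset (Fin N))).card := by
      rw [Finset.card_powersetCard, Finset.card_univ, Fintype.card_fin]
      have : 0 < N.choose n := Nat.choose_pos hnN
      omega
    have h8 : ∃ U ∈ powersetCard n (univ : Finset (Fin N)), Reg G U n (p : ℝ) ε (4 * (2 * s)) := by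
      by_contra h9
      push Not at h9
      have h10 : (powersetCard n (univ : Finset (Fin N))).filter
          (fun U => ¬ Reg G U n (p : ℝ) ε (4 * (2 * s))) = powersetCard n (univ : Finset (Fin N)) :=
        Finset.filter_true_of_mem h9
      rw [h10] at h7
      exact lt_irrefl _ h7
    obtain ⟨U, _, hU⟩ := h8
    exact hcon N n p ε τ χ G U (by omega) hkN H hU h6
  have h5 : (1 : ℝ) ≤ 1 / N + 1 / N := by
    have h6 : pr (fun G : SimpleGraph (Fin N) => (SimpleGraph.binomialRandom (Fin N) p).real {G}) (fun _ => True) = 1 := by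
      rw [← real_eq_pr]
      simp
    have h7 := pr_mono hw (P := fun _ : SimpleGraph (Fin N) => True) (Q := fun G => (N.choose n ≤
      2 * ((powersetCard n (univ : Finset (Fin N))).filter (fun U => ¬ Reg G U n (p : ℝ) ε (4 * (2 * s)))).card) ∨
      ¬ G.CliqueFree (400 * s + 4)) (fun G _ => h4 G)
    rw [h6] at h7
    have h1' : pr (fun G : SimpleGraph (Fin N) => (SimpleGraph.binomialRandom (Fin N) p).real {G})
        (fun G => N.choose n ≤ 2 * ((powersetCard n (univ : Finset (Fin N))).filter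
          (fun U => ¬ Reg G U n (p : ℝ) ε (4 * (2 * s)))).card) ≤ 1 / N := by
      convert h1
    exact h7.trans ((pr_or_le hw _ _).trans (add_le_add h1' h3))
  have h6 : (1 : ℝ) / N + 1 / N < 1 := by
    have h7 : (16 : ℝ) < N := by exact_mod_cast hN
    rw [← add_div, div_lt_one hN0]
    linarith
  linarith

theorem Exi_main (s k : ℕ) (hs : 1 ≤ s) (hk : 4 * s ≤ k) :
    ∃ (n : ℕ) (G : SimpleGraph (Fin n)) (E : Finset (Fin k × Fin n) → ℝ), 0 < n ∧ G.CliqueFree (400 * s + 4) ∧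
      E ∅ = 1 ∧
      (∀ f : Finset (Fin k × Fin n), f.card < 2 * s → ∀ j : Fin k, ∑ v, E (insert (j, v) f) = E f) ∧
      (∀ (f : Finset (Fin k × Fin n)) (x y : Fin k × Fin n), x ∈ f → y ∈ f → x ≠ y →
        ¬ (x.1 ≠ y.1 ∧ G.Adj x.2 y.2) → E f = 0) ∧
      ∀ c : Finset (Fin k × Fin n) → ℝ, (∀ f, s < f.card → c f = 0) → 0 ≤ ∑ f, ∑ g, c f * c g * E (f ∪ g) := by
  obtain ⟨N, n, p, ε, τ, χ, G, U, hN, hkN, H, h, hG⟩ := Exi_graph s k hs hk
  have hk2 := H.k_ge
  have hlin : ∀ S : Finset (Fin N), S.card < 2 * (2 * s) →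
      ∑ v ∈ univ \ S, Ez G U k (2 * (2 * s)) (insert v S) = ((k : ℝ) - S.card) * Ez G U k (2 * (2 * s)) S :=
    fun S hS => Lin_main G U k (2 * (2 * s)) hk2 S hS
  refine ⟨N, G, Ey (Ez G U k (2 * (2 * s))), hN, hG, ?_, ?_, ?_, ?_⟩
  · rw [Lic_one, Lin_one G U k (2 * (2 * s)) (Psd_pos H h)]
  · exact fun f hf j => Lic_lin _ (2 * (2 * s)) hk2 hlin f (by omega) j
  · exact fun f x y hx hy hxy hn => Lic_adj G _ (fun S u v hu hv huv hadj =>
      Lin_adj G U k (2 * (2 * s)) S u v hu hv huv hadj) f x y hx hy hxy hn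
  · exact fun c hc => Lft_main _ k s (2 * s) (by omega) le_rfl hk2 (by rw [Fintype.card_fin]; exact hkN) hlin
      (fun c hc => Psd_main H h c hc) c hc

end Pool.Agent.H9.SD
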