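import Pool.Agent.H9.SQ.Defs

/-!
Module Exn.  Numbers for large `t`.
With `n = t ^ (4 * (8 * s + 1))`, `p = 1 / t ^ 4`, `ε = 1 / t`, `τ = 16 s / t`, `χ = 4 s ^ 2 / t ^ (8 s + 4)` all conditions hold for all large `t` (`Filter.Eventually` along `atTop`): `n * p ^ (8 s) = t ^ 4`, `n * p ^ (6 s) = t ^ (8 s + 4)`, `n * p ^ (2 s) = t ^ (24 s + 4)`,
`ε ^ 2 * (n * p ^ (8 s)) / 32 = t ^ 2 / 32`, and `(t ^ (4 * (8 s + 1)) + 1) ^ (8 s) * exp (- t ^ 2 / 32) → 0`.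
-/

set_option autoImplicit false
set_option linter.unusedSectionVars false

open Finset

namespace Pool.Agent.H9.SD

open Pool.Agent.H9.SQ

theorem Exn_exp (s : ℕ) : ∀ᶠ t : ℕ in Filter.atTop,
    2 * (((t ^ (4 * (8 * s + 1)) : ℕ) : ℝ) + 1) ^ (4 * (2 * s)) * Real.exp (-((t : ℝ) ^ 2 / 32)) ≤ 1 / 4 := by
  set M : ℕ := 4 * (8 * s + 1) * (4 * (2 * s)) with hM
  have h1 : Filter.Tendsto (fun t : ℕ => (t : ℝ) ^ 2 / 32) Filter.atTop Filter.atTop := by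
    refine Filter.Tendsto.atTop_div_const (by norm_num) ?_
    exact (Filter.tendsto_pow_atTop two_ne_zero).comp tendsto_natCast_atTop_atTop
  have h2 := (Real.tendsto_pow_mul_exp_neg_atTop_nhds_zero M).comp h1
  set A : ℝ := 2 * 2 ^ (4 * (2 * s)) * 32 ^ M with hA
  have hA0 : 0 < A := by positivity
  have h3 : ∀ᶠ t : ℕ in Filter.atTop, ((t : ℝ) ^ 2 / 32) ^ M * Real.exp (-((t : ℝ) ^ 2 / 32)) < 1 / (4 * A) :=
    h2.eventually (gt_mem_nhds (by positivity))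
  filter_upwards [h3, Filter.eventually_ge_atTop 1] with t ht ht1
  have ht1' : (1 : ℝ) ≤ t := by exact_mod_cast ht1
  have h4 : (((t ^ (4 * (8 * s + 1)) : ℕ) : ℝ) + 1) ^ (4 * (2 * s)) ≤
      2 ^ (4 * (2 * s)) * (32 ^ M * ((t : ℝ) ^ 2 / 32) ^ M) := by
    have h5 : (1 : ℝ) ≤ (t : ℝ) ^ (4 * (8 * s + 1)) := one_le_pow₀ ht1'
    have h6 : ((t ^ (4 * (8 * s + 1)) : ℕ) : ℝ) + 1 ≤ 2 * (t : ℝ) ^ (4 * (8 * s + 1)) := by
      push_cast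
      linarith
    refine le_trans (pow_le_pow_left₀ (by positivity) h6 _) ?_
    rw [mul_pow, ← pow_mul, ← hM, ← mul_pow]
    refine mul_le_mul_of_nonneg_left ?_ (by positivity)
    refine pow_le_pow_left₀ (by positivity) ?_ _
    rw [mul_div_cancel₀ _ (by norm_num : (32 : ℝ) ≠ 0)]
    nlinarith
  have h7 : 0 < Real.exp (-((t : ℝ) ^ 2 / 32)) := Real.exp_pos _
  calc 2 * (((t ^ (4 * (8 * s + 1)) : ℕ) : ℝ) + 1) ^ (4 * (2 * s)) * Real.exp (-((t : ℝ) ^ 2 / 32))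
      ≤ 2 * (2 ^ (4 * (2 * s)) * (32 ^ M * ((t : ℝ) ^ 2 / 32) ^ M)) * Real.exp (-((t : ℝ) ^ 2 / 32)) := by
        gcongr
    _ = A * (((t : ℝ) ^ 2 / 32) ^ M * Real.exp (-((t : ℝ) ^ 2 / 32))) := by rw [hA]; ring
    _ ≤ A * (1 / (4 * A)) := mul_le_mul_of_nonneg_left ht.le hA0.le
    _ = 1 / 4 := by field_simp

theorem Exn_pw (t : ℝ) (ht : 1 ≤ t) (a b : ℕ) (h : 4 * b ≤ a) : t ^ a * (1 / t ^ 4) ^ b = t ^ (a - 4 * b) := by
  have h0 : t ≠ 0 := by positivity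
  rw [one_div, inv_pow, ← pow_mul, mul_inv_eq_iff_eq_mul₀ (pow_ne_zero _ h0), ← pow_add]
  congr 1
  omega

theorem Exn_main (s k : ℕ) (hs : 1 ≤ s) (hk : 4 * s ≤ k) :
    ∃ (t : ℕ) (τ χ : ℝ), 3 ≤ t ∧
      Num (t ^ (4 * (8 * s + 1))) (2 * s) k (1 / (t : ℝ) ^ 4) (1 / (t : ℝ)) τ χ ∧
      2 * ((4 * (2 * s) : ℕ) : ℝ) ≤ (1 / (t : ℝ)) * ((t ^ (4 * (8 * s + 1)) : ℕ) : ℝ) ∧
      2 * (((t ^ (4 * (8 * s + 1)) : ℕ) : ℝ) + 1) ^ (4 * (2 * s)) *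
        Real.exp (-((1 / (t : ℝ)) ^ 2 * (((t ^ (4 * (8 * s + 1)) : ℕ) : ℝ) * (1 / (t : ℝ) ^ 4) ^ (4 * (2 * s))) / 32)) ≤
        1 / 4 := by
  set B : ℝ := (k.choose (2 * s) : ℝ) ^ 4 * (16 * (100 * (16 * s) ^ 2 + 30 * (4 * s ^ 2))) with hB
  have hB0 : 0 ≤ B := by positivity
  have hs' : (1 : ℝ) ≤ s := by exact_mod_cast hs
  have hsum : ∀ᶠ t : ℕ in Filter.atTop, (B + 1024 * s ^ 2 + 32 * s * k + 3 : ℝ) ≤ t :=
    tendsto_natCast_atTop_atTop.eventually_ge_atTop _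
  obtain ⟨t, h1, h2⟩ := ((Exn_exp s).and hsum).exists
  have hsk : (0 : ℝ) ≤ 32 * s * k := by positivity
  have hs2 : (s : ℝ) ≤ s ^ 2 := by nlinarith
  have ht1 : (1 : ℝ) ≤ t := by nlinarith
  have ht0 : (0 : ℝ) < t := by linarith
  have ht3 : (3 : ℝ) ≤ t := by nlinarith
  have htB : B ≤ t := by nlinarith
  have hts : 1024 * (s : ℝ) ^ 2 ≤ t := by nlinarith
  have htk : 32 * (s : ℝ) * k ≤ t := by nlinarith
  have hn : ((t ^ (4 * (8 * s + 1)) : ℕ) : ℝ) = (t : ℝ) ^ (4 * (8 * s + 1)) := by push_cast; rfl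
  have hp8 : (t : ℝ) ^ (4 * (8 * s + 1)) * (1 / (t : ℝ) ^ 4) ^ (4 * (2 * s)) = t ^ 4 := by
    rw [Exn_pw _ ht1 _ _ (by omega)]
    congr 1
    omega
  have hp6 : (t : ℝ) ^ (4 * (8 * s + 1)) * (1 / (t : ℝ) ^ 4) ^ (3 * (2 * s)) = t ^ (8 * s + 4) := by
    rw [Exn_pw _ ht1 _ _ (by omega)]
    congr 1
    omega
  have hp2 : (t : ℝ) ^ (4 * (8 * s + 1)) * (1 / (t : ℝ) ^ 4) ^ (2 * s) = t ^ (24 * s + 4) := by
    rw [Exn_pw _ ht1 _ _ (by omega)]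
    congr 1
    omega
  have hpow : ∀ a : ℕ, 1 ≤ a → (t : ℝ) ≤ (t : ℝ) ^ a := fun a ha => by
    calc (t : ℝ) = (t : ℝ) ^ 1 := (pow_one _).symm
      _ ≤ (t : ℝ) ^ a := pow_le_pow_right₀ ht1 ha
  have hχ : 4 * (s : ℝ) ^ 2 / (t : ℝ) ^ (8 * s + 4) ≤ 4 * (s : ℝ) ^ 2 / t := by
    refine div_le_div_of_nonneg_left (by positivity) ht0 (hpow _ (by omega))
  refine ⟨t, 16 * s / t, 4 * s ^ 2 / t ^ (8 * s + 4), by exact_mod_cast ht3, ?_, ?_, ?_⟩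
  · refine ⟨by positivity, ?_, by omega, by omega, Nat.one_le_iff_ne_zero.2 (pow_ne_zero _ (by
      have : 3 ≤ t := by exact_mod_cast ht3
      omega)), by positivity, ?_, ?_, ?_, ?_, ?_, ?_, ?_⟩
    · rw [div_le_one (by positivity)]
      exact one_le_pow₀ ht1
    · rw [hn, hp8]
      have h3 : 1 / (t : ℝ) * t ^ 4 = t ^ 3 := by field_simp
      rw [h3]
      have h4 := hpow 3 (by norm_num)
      push_cast
      nlinarith
    · push_cast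
      apply le_of_eq
      ring
    · rw [div_le_div_iff₀ ht0 (by norm_num)]
      nlinarith
    · rw [hn, hp6]
      push_cast
      apply le_of_eq
      ring
    · refine le_trans hχ ?_
      rw [div_le_div_iff₀ ht0 (by norm_num)]
      nlinarith
    · rw [hn, hp2]
      have h3 : (k : ℝ) / t ^ (24 * s + 4) ≤ k / t :=
        div_le_div_of_nonneg_left (by positivity) ht0 (hpow _ (by omega))
      push_cast
      calc 2 * (s : ℝ) * (k / t ^ (24 * s + 4)) ≤ 2 * (s : ℝ) * (k / t) := by gcongr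
        _ = (2 * s * k) / t := by ring
        _ ≤ 1 / 16 := by
          rw [div_le_div_iff₀ ht0 (by norm_num)]
          linarith
    · have h3 : (16 * (s : ℝ) / t) ^ 2 ≤ (16 * s) ^ 2 / t := by
        rw [div_pow]
        exact div_le_div_of_nonneg_left (by positivity) ht0 (hpow 2 (by norm_num))
      calc (k.choose (2 * s) : ℝ) ^ 4 * (16 * (100 * (16 * (s : ℝ) / t) ^ 2 + 30 * (4 * (s : ℝ) ^ 2 / t ^ (8 * s + 4))))
          ≤ (k.choose (2 * s) : ℝ) ^ 4 * (16 * (100 * ((16 * s) ^ 2 / t) + 30 * (4 * (s : ℝ) ^ 2 / t))) := by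
            gcongr
        _ = B / t := by rw [hB]; ring
        _ ≤ 1 := by rw [div_le_one ht0]; exact htB
  · rw [hn]
    have h3 : 1 / (t : ℝ) * t ^ (4 * (8 * s + 1)) = t ^ (4 * (8 * s + 1) - 1) := by
      rw [one_div, inv_mul_eq_iff_eq_mul₀ ht0.ne', ← pow_succ']
      congr 1
    rw [h3]
    have h4 := hpow (4 * (8 * s + 1) - 1) (by omega)
    push_cast
    nlinarith
  · have h3 : (1 / (t : ℝ)) ^ 2 * (((t ^ (4 * (8 * s + 1)) : ℕ) : ℝ) * (1 / (t : ℝ) ^ 4) ^ (4 * (2 * s))) / 32 =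
        (t : ℝ) ^ 2 / 32 := by
      rw [hn, hp8]
      field_simp
    rw [h3]
    exact h1

end Pool.Agent.H9.SD
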