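import Pool.Agent.H9.SI.Fnj
import Pool.Agent.H9.SD.Exn

/-!
Module Exj.  A graph without clique on `16 s + 4` vertices that has pseudo-moments for `k`-cliques.
-/

set_option autoImplicit false
set_option linter.unusedSectionVars false

open Finset

namespace Pool.Agent.H9.SD

open Pool.Agent.H9.KR Pool.Agent.H9.SQ Pool.Agent.H9.SI

theorem Exj_graph (s k : ℕ) (hs : 1 ≤ s) (hk : 4 * s ≤ k) :
    ∃ (n : ℕ) (p ε τ χ : ℝ) (G : SimpleGraph (Fin n)), 0 < n ∧ k ≤ n ∧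
      Num n (2 * s) k p ε τ χ ∧ Reg G univ n p ε (4 * (2 * s)) ∧ G.CliqueFree (16 * s + 4) := by
  classical
  obtain ⟨t, τ, χ, ht, H, hz, hpr⟩ := Exn_main s k hs hk
  have ht0 : (0 : ℝ) < t := by positivity
  have ht1 : (1 : ℝ) ≤ t := by exact_mod_cast (by omega : 1 ≤ t)
  have hpI : (1 / (t : ℝ) ^ 4) ∈ unitInterval := by
    refine ⟨by positivity, ?_⟩
    rw [div_le_one (by positivity)]
    exact one_le_pow₀ ht1
  set p : unitInterval := ⟨1 / (t : ℝ) ^ 4, hpI⟩ with hp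
  have hpv : (p : ℝ) = 1 / (t : ℝ) ^ 4 := rfl
  have hp0 : (0 : ℝ) ≤ (p : ℝ) := p.2.1
  have hp1 : (p : ℝ) ≤ 1 := p.2.2
  obtain ⟨n, hn⟩ : ∃ n : ℕ, n = t ^ (4 * (8 * s + 1)) := ⟨_, rfl⟩
  rw [← hpv] at H hpr
  rw [← hn] at H hz hpr
  have hn3 : 3 ≤ n := by
    rw [hn]
    calc 3 ≤ t := ht
      _ = t ^ 1 := (pow_one t).symm
      _ ≤ t ^ (4 * (8 * s + 1)) := Nat.pow_le_pow_right (by omega) (by omega)
  have hn0 : (0 : ℝ) < n := by exact_mod_cast (by omega : 0 < n)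
  have hε1 : 1 / (t : ℝ) ≤ 1 := by
    rw [div_le_one ht0]
    exact ht1
  have hkN : k ≤ n := by
    have h1 := H.ρ_le
    have h4 : (0 : ℝ) < n * (p : ℝ) ^ (2 * s) := by
      have := H.p_pos
      positivity
    have h5 : (1 : ℝ) ≤ ((2 * s : ℕ) : ℝ) := by exact_mod_cast H.r_pos
    have h6 : (k : ℝ) / (n * (p : ℝ) ^ (2 * s)) ≤ 1 := by
      have h7 : (0 : ℝ) ≤ (k : ℝ) / (n * (p : ℝ) ^ (2 * s)) := by positivity
      nlinarith
    rw [div_le_one h4] at h6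
    have h8 : (n : ℝ) * (p : ℝ) ^ (2 * s) ≤ n := by
      have h9 : (p : ℝ) ^ (2 * s) ≤ 1 := pow_le_one₀ hp0 hp1
      nlinarith
    exact Nat.cast_le.1 (h6.trans h8)
  have hw : ∀ G : SimpleGraph (Fin n), 0 ≤ (SimpleGraph.binomialRandom (Fin n) p).real {G} :=
    fun G => MeasureTheory.measureReal_nonneg
  have h1 := (Rgp_main p (univ : Finset (Fin n)) n (4 * (2 * s)) (by rw [card_univ, Fintype.card_fin]) (1 / (t : ℝ))
    H.ε_pos hε1 hz).trans hpr
  have h3 := FinS_clique (16 * s + 4) n p (by omega) (by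
    rw [hpv, hn]
    push_cast
    rw [← pow_mul, one_div, inv_pow, ← pow_mul, ← div_eq_mul_inv, div_le_one (by positivity)]
    refine pow_le_pow_right₀ ht1 ?_
    rw [Nat.choose_two_right]
    have h5 : (16 * s + 4) * (16 * s + 4 - 1) / 2 = (8 * s + 2) * (16 * s + 3) := by
      have h6 : 16 * s + 4 - 1 = 16 * s + 3 := by omega
      rw [h6]
      have h7 : (16 * s + 4) * (16 * s + 3) = 2 * ((8 * s + 2) * (16 * s + 3)) := by ring
      rw [h7, Nat.mul_div_cancel_left _ (by norm_num)]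
    rw [h5]
    nlinarith)
  rw [real_eq_pr] at h3
  by_contra hcon
  push Not at hcon
  have h4 : ∀ G : SimpleGraph (Fin n), (¬ Reg G univ n (p : ℝ) (1 / (t : ℝ)) (4 * (2 * s))) ∨
      ¬ G.CliqueFree (16 * s + 4) := by
    intro G
    by_contra h5
    push Not at h5
    exact hcon n p (1 / (t : ℝ)) τ χ G (by omega) hkN H h5.1 h5.2
  have h5 : (1 : ℝ) ≤ 1 / 4 + 1 / n := by
    have h6 : pr (fun G : SimpleGraph (Fin n) => (SimpleGraph.binomialRandom (Fin n) p).real {G}) (fun _ => True) = 1 := by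
      rw [← real_eq_pr]
      simp
    have h7 := pr_mono hw (P := fun _ : SimpleGraph (Fin n) => True)
      (Q := fun G => (¬ Reg G univ n (p : ℝ) (1 / (t : ℝ)) (4 * (2 * s))) ∨ ¬ G.CliqueFree (16 * s + 4)) (fun G _ => h4 G)
    rw [h6] at h7
    exact h7.trans ((pr_or_le hw _ _).trans (add_le_add h1 h3))
  have h6 : (1 : ℝ) / n ≤ 1 / 3 := by
    apply one_div_le_one_div_of_le (by norm_num)
    exact_mod_cast hn3
  linarith

theorem Exj_main (s k : ℕ) (hs : 1 ≤ s) (hk : 4 * s ≤ k) :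
    ∃ (n : ℕ) (G : SimpleGraph (Fin n)) (E : Finset (Fin k × Fin n) → ℝ), 0 < n ∧ G.CliqueFree (16 * s + 4) ∧
      E ∅ = 1 ∧
      (∀ f : Finset (Fin k × Fin n), f.card < 2 * s → ∀ j : Fin k, ∑ v, E (insert (j, v) f) = E f) ∧
      (∀ (f : Finset (Fin k × Fin n)) (x y : Fin k × Fin n), x ∈ f → y ∈ f → x ≠ y →
        ¬ (x.1 ≠ y.1 ∧ G.Adj x.2 y.2) → E f = 0) ∧
      ∀ c : Finset (Fin k × Fin n) → ℝ, (∀ f, s < f.card → c f = 0) → 0 ≤ ∑ f, ∑ g, c f * c g * E (f ∪ g) := by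
  obtain ⟨n, p, ε, τ, χ, G, hn, hkn, H, h, hG⟩ := Exj_graph s k hs hk
  have hk2 := H.k_ge
  have hlin : ∀ S : Finset (Fin n), S.card < 2 * (2 * s) →
      ∑ v ∈ univ \ S, Ez G univ k (2 * (2 * s)) (insert v S) =
        ((k : ℝ) - S.card) * Ez G univ k (2 * (2 * s)) S :=
    fun S hS => Lin_main G univ k (2 * (2 * s)) hk2 S hS
  refine ⟨n, G, Ey (Ez G univ k (2 * (2 * s))), hn, hG, ?_, ?_, ?_, ?_⟩
  · rw [Lic_one, Lin_one G univ k (2 * (2 * s)) (Psd_pos H h)]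
  · exact fun f hf j => Lic_lin _ (2 * (2 * s)) hk2 hlin f (by omega) j
  · exact fun f x y hx hy hxy hn => Lic_adj G _ (fun S u v hu hv huv hadj =>
      Lin_adj G univ k (2 * (2 * s)) S u v hu hv huv hadj) f x y hx hy hxy hn
  · exact fun c hc => Lft_main _ k s (2 * s) (by omega) le_rfl hk2 (by rw [Fintype.card_fin]; exact hkn) hlin
      (fun c hc => Psd_main H h c hc) c hc

end Pool.Agent.H9.SD
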