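import Mathlib

/-!
# SDP relaxations of `k`-clique
-/

set_option autoImplicit false

open Finset

namespace Pool.Agent.H9.SD

open Classical in
/-- The number of ordered pairs `(i, j)` of indices for which the vertices `F i` and `F j` are adjacent in `G`; it is at most
`k * (k - 1)`, with equality if and only if the vertices `F i` form a clique. -/
noncomputable def adjCount {k N : ℕ} (G : SimpleGraph (Fin N)) (F : Fin k ↪ Fin N) : ℝ :=
  ∑ i, ∑ j, if G.Adj (F i) (F j) then (1 : ℝ) else 0

/-- An SDP relaxation with matrices of size `R` for `k`-clique on `N` vertices gives a positive semidefinite matrix `B F` for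
each choice `F` of `k` different vertices (independent of the graph).  It certifies that `G` has no `k`-clique, with slack `ρ`,
if there is a positive semidefinite `P` with `k * (k - 1) - ρ - adjCount G F = trace (P * B F)` for all `F` (so
`adjCount G F ≤ k * (k - 1) - ρ` for all `F`). -/
def Certifies {k N R : ℕ} (B : (Fin k ↪ Fin N) → Matrix (Fin R) (Fin R) ℝ) (G : SimpleGraph (Fin N)) (ρ : ℝ) : Prop :=
  ∃ P : Matrix (Fin R) (Fin R) ℝ, P.PosSemidef ∧ ∀ F, ((k : ℝ) * (k - 1) - ρ) - adjCount G F = (P * B F).trace

end Pool.Agent.H9.SD
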