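import Pool.Agent.H9.SD.Abs
import Pool.Agent.H9.SD.Exi
import Pool.Agent.H9.SD.Den
import Pool.Agent.H9.SD.Dps
import Pool.Agent.H9.SD.Nmr
import Pool.Agent.H9.SD.Stm

/-!
Module Fin.  The lower bound for SDP relaxations of k-clique.
-/

set_option autoImplicit false
set_option linter.unusedSectionVars false

open Finset

namespace Pool.Agent.H9.SD

theorem Fin_comap {N n m : ℕ} (G : SimpleGraph (Fin n)) (ψ : Fin N → Fin n) (hG : G.CliqueFree m) :
    (G.comap ψ).CliqueFree m := by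
  classical
  intro t ht
  refine hG (t.image ψ) ?_
  have hinj : Set.InjOn ψ (t : Set (Fin N)) := by
    intro u hu v hv huv
    by_contra hne
    have h1 := ht.isClique hu hv hne
    rw [SimpleGraph.comap_adj, huv] at h1
    exact G.loopless.irrefl _ h1
  rw [SimpleGraph.isNClique_iff]
  refine ⟨?_, ?_⟩
  · intro x hx y hy hxy
    rw [mem_coe, mem_image] at hx hy
    obtain ⟨u, hu, rfl⟩ := hx
    obtain ⟨v, hv, rfl⟩ := hy
    exact ht.isClique hu hv (fun h => hxy (by rw [h]))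
  · rw [card_image_of_injOn hinj]
    exact ht.card_eq

open Classical in
theorem Fin_main (s k : ℕ) (hs : 1 ≤ s) (hk : 4 * s ≤ k) (ρ : ℝ) (hρ : 0 < ρ) :
    ∃ c : ℝ, 0 < c ∧ ∀ N R : ℕ, k ≤ N → ∀ B : (Fin k ↪ Fin N) → Matrix (Fin R) (Fin R) ℝ,
      (∀ F, (B F).PosSemidef) →
      (∀ G : SimpleGraph (Fin N), G.CliqueFree (400 * s + 4) → Certifies B G ρ) → c * (N : ℝ) ^ s < R := by
  obtain ⟨n, G, E, hn, hG, hE1, hlin, hadj, hpsd⟩ := Exi_main s k hs hk
  have : Nonempty (Fin n) := ⟨⟨0, hn⟩⟩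
  obtain ⟨D, hD⟩ := Den_main hn (2 * s) E hlin (fun f x y hx hy hxy h => hadj f x y hx hy hxy (fun h2 => h2.1 h))
  set f : (Fin k → Fin n) → ℝ := fun x => ((k : ℝ) * (k - 1) - ρ) -
    ∑ i, ∑ j, if G.Adj (x i) (x j) then (1 : ℝ) else 0 with hf
  have hval : ∑ x, D x * f x = -ρ * (n : ℝ) ^ k := Dps_val (2 * s) (by omega) G E hE1 hlin hadj D hD ρ
  have hpos : ∀ q : (Fin k → Fin n) → ℝ, LowDeg s q → 0 ≤ ∑ x, D x * q x ^ 2 :=
    fun q hq => Dps_main s E hpsd D hD q hq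
  obtain ⟨L, hL1, hL⟩ : ∃ L : ℝ, 1 ≤ L ∧ ∀ x, |D x| ≤ L := by
    refine ⟨1 + ∑ x, |D x|, ?_, fun x => ?_⟩
    · have : 0 ≤ ∑ x, |D x| := Finset.sum_nonneg fun x _ => abs_nonneg _
      linarith
    · have := Finset.single_le_sum (f := fun x => |D x|) (fun x _ => abs_nonneg _) (mem_univ x)
      linarith
  have hk0 : (0 : ℝ) ≤ (k : ℝ) * k := by positivity
  have hfK : ∀ x, f x ≤ (k : ℝ) * k := by
    intro x
    have h1 : 0 ≤ ∑ i, ∑ j, if G.Adj (x i) (x j) then (1 : ℝ) else 0 :=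
      Finset.sum_nonneg fun i _ => Finset.sum_nonneg fun j _ => by split_ifs <;> norm_num
    have h2 : (0 : ℝ) ≤ k := by positivity
    simp only [hf]
    nlinarith
  obtain ⟨c, hc, hnum⟩ := Nmr_main k s hs L ((k : ℝ) * k + 1) ρ hL1 (by linarith) hρ
  refine ⟨c, hc, fun N R hkN B hB hcert => ?_⟩
  by_contra hcon
  push Not at hcon
  have hN : 0 < N := by omega
  choose P hP hPB using fun ψ : Fin N → Fin n => hcert (G.comap ψ) (Fin_comap G ψ hG)
  have hPQ : ∀ (ψ : Fin N → Fin n) (F : Fin k ↪ Fin N), (P ψ * B F).trace = f (ψ ∘ F) := by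
    intro ψ F
    rw [← hPB ψ F]
    rfl
  by_cases hR : 1 ≤ R
  · obtain ⟨d, η, hη, h1, h2⟩ := hnum N R (by omega) hR hcon
    exact Abs_main hkN hN hR D f L ((k : ℝ) * k) ρ η hL1 hL hpos hk0 hfK hρ
      (by rw [Fintype.card_fin]; exact hval) P B hP hB hPQ hη h1 h2
  · have hR0 : R = 0 := by omega
    subst hR0
    have hf0 : ∀ x, f x = 0 := by
      intro x
      have h1 := hPQ (fun v => if h : v.1 < k then x ⟨v.1, h⟩ else ⟨0, hn⟩) (Fin.castLEEmb hkN)
      have h2 : (fun v : Fin N => if h : v.1 < k then x ⟨v.1, h⟩ else ⟨0, hn⟩) ∘ (Fin.castLEEmb hkN) = x := by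
        funext i
        simp
      rw [h2] at h1
      rw [← h1]
      simp [Matrix.trace]
    rw [Finset.sum_eq_zero (fun x _ => by rw [hf0 x, mul_zero])] at hval
    have h3 : 0 < ρ * (n : ℝ) ^ k := by
      have : (0 : ℝ) < n := by exact_mod_cast hn
      positivity
    linarith

end Pool.Agent.H9.SD
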