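import Mathlib

/-!
Module Nms.  The numbers, with the better exponent (compare `Pool/Agent/H9/SD/Nmr.lean`, the same proof without the last step).
`ρ' = ρ / (8 K)`, `a = L + ρ'`, `b = L + 2 ρ'`, `1 < b / a`, `η = ρ' / (4 L)` (so `L η = ρ' / 4`).  Let `C₁` be such that `d := ⌈C₁ * (1 + log N)⌉₊` satisfies `(b / a) ^ (2 d) > 8 K a R / ρ` for all `R ≤ N ^ (s + 1)` (take `c ≤ 1`).
Then `L (1 + 1/η) * 2 R * (k.choose (s+1)) * (d k / N) ^ (s+1) ≤ c * C₂` for a constant `C₂` (as `d ≤ (C₁ + 1) (1 + log N)`), so a small `c` works.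
-/

set_option autoImplicit false
set_option linter.unusedSectionVars false

open Finset

namespace Pool.Agent.H9.SD

theorem Nms_pow (A q C : ℝ) (hA : 0 < A) (hq : 1 < q) (s N d : ℕ) (hN : 1 ≤ N)
    (hC : C = (|Real.log A| + s + 1) / (2 * Real.log q)) (hd : C * (1 + Real.log N) ≤ d) :
    A * (N : ℝ) ^ s < q ^ (2 * d) := by
  have hN0 : (0 : ℝ) < N := by exact_mod_cast hN
  have hlq : 0 < Real.log q := Real.log_pos hq
  have hlN : 0 ≤ Real.log N := Real.log_nonneg (by exact_mod_cast hN)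
  have h1 : 0 < A * (N : ℝ) ^ s := by positivity
  rw [← Real.log_lt_log_iff h1 (by positivity), Real.log_mul hA.ne' (by positivity), Real.log_pow,
    Real.log_pow]
  push_cast
  have h2 : 2 * Real.log q * (C * (1 + Real.log N)) ≤ 2 * Real.log q * d :=
    mul_le_mul_of_nonneg_left hd (by linarith)
  have h3 : 2 * Real.log q * (C * (1 + Real.log N)) = (|Real.log A| + s + 1) * (1 + Real.log N) := by
    rw [hC]
    field_simp
  have h4 : Real.log A ≤ |Real.log A| := le_abs_self _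
  have h5 : 0 ≤ |Real.log A| := abs_nonneg _
  have h6 : (0 : ℝ) ≤ s := Nat.cast_nonneg s
  nlinarith [mul_nonneg h5 hlN, mul_nonneg h6 hlN]

theorem Nms_main (k s : ℕ) (L K ρ : ℝ) (hL : 1 ≤ L) (hK : 1 ≤ K) (hρ : 0 < ρ) :
    ∃ c : ℝ, 0 < c ∧ ∀ N R : ℕ, 1 ≤ N → 1 ≤ R → (R : ℝ) ≤ c * ((N : ℝ) / (1 + Real.log N)) ^ (s + 1) →
      ∃ (d : ℕ) (η : ℝ), 0 < η ∧
      K * R * (L + ρ / (8 * K)) ^ (2 * d + 1) < (L + 2 * (ρ / (8 * K))) ^ (2 * d) * (ρ / 4) ∧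
      L * (η + (1 + 1 / η) * (2 * R * ((k.choose (s + 1) : ℝ) * (((d * k : ℕ) : ℝ) / N) ^ (s + 1)))) <
        ρ / (8 * K) := by
  obtain ⟨r, hr⟩ : ∃ r, r = ρ / (8 * K) := ⟨_, rfl⟩
  have hr0 : 0 < r := by
    rw [hr]
    positivity
  rw [← hr]
  obtain ⟨a, ha⟩ : ∃ a, a = L + r := ⟨_, rfl⟩
  obtain ⟨b, hb⟩ : ∃ b, b = L + 2 * r := ⟨_, rfl⟩
  have ha0 : 0 < a := by linarith
  have hab : a < b := by linarith
  obtain ⟨q, hq⟩ : ∃ q, q = b / a := ⟨_, rfl⟩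
  have hq1 : 1 < q := by
    rw [hq, one_lt_div ha0]
    exact hab
  have hqa : b = q * a := by
    rw [hq]
    field_simp
  obtain ⟨A, hA⟩ : ∃ A, A = 4 * K * a / ρ := ⟨_, rfl⟩
  have hA0 : 0 < A := by
    rw [hA]
    positivity
  have hAρ : A * (ρ / 4) = K * a := by
    rw [hA]
    field_simp
  obtain ⟨C, hC⟩ : ∃ C, C = (|Real.log A| + (s + 1 : ℕ) + 1) / (2 * Real.log q) := ⟨_, rfl⟩
  have hlq : 0 < Real.log q := Real.log_pos hq1
  have hC0 : 0 < C := by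
    rw [hC]
    positivity
  obtain ⟨E, hE⟩ : ∃ E, E = 1 + 1 / (r / (4 * L)) := ⟨_, rfl⟩
  have hE0 : 0 < E := by
    rw [hE]
    positivity
  obtain ⟨D, hD⟩ : ∃ D, D = 2 * L * E * (k.choose (s + 1) : ℝ) * ((C + 1) * k) ^ (s + 1) := ⟨_, rfl⟩
  have hD0 : 0 ≤ D := by
    rw [hD]
    positivity
  refine ⟨min 1 (r / (2 * (D + 1))), lt_min one_pos (by positivity), ?_⟩
  intro N R hN hR hRN
  have hN0 : (0 : ℝ) < N := by exact_mod_cast hN
  have hR0 : (0 : ℝ) < R := by exact_mod_cast hR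
  have hlN : 0 ≤ Real.log N := Real.log_nonneg (by exact_mod_cast hN)
  obtain ⟨l, hl⟩ : ∃ l, l = 1 + Real.log N := ⟨_, rfl⟩
  have hl1 : 1 ≤ l := by linarith
  have hl0 : 0 < l := by linarith
  rw [← hl] at hRN
  have hP0 : 0 < ((N : ℝ) / l) ^ (s + 1) := by positivity
  have hR2 : (R : ℝ) ≤ r / (2 * (D + 1)) * ((N : ℝ) / l) ^ (s + 1) :=
    hRN.trans (mul_le_mul_of_nonneg_right (min_le_right 1 (r / (2 * (D + 1)))) hP0.le)
  have hR1 : (R : ℝ) ≤ (N : ℝ) ^ (s + 1) := by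
    refine hRN.trans ?_
    have h1 := mul_le_mul_of_nonneg_right (min_le_left 1 (r / (2 * (D + 1)))) hP0.le
    have h2 : ((N : ℝ) / l) ^ (s + 1) ≤ (N : ℝ) ^ (s + 1) :=
      pow_le_pow_left₀ (by positivity) (div_le_self hN0.le hl1) _
    linarith
  obtain ⟨d, hd⟩ : ∃ d, d = ⌈C * (1 + Real.log N)⌉₊ := ⟨_, rfl⟩
  have hd1 : C * (1 + Real.log N) ≤ d := by
    rw [hd]
    exact Nat.le_ceil _
  have hd2 : (d : ℝ) ≤ (C + 1) * (1 + Real.log N) := by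
    have h1 : (d : ℝ) < C * (1 + Real.log N) + 1 := by
      rw [hd]
      exact Nat.ceil_lt_add_one (by positivity)
    nlinarith
  refine ⟨d, r / (4 * L), by positivity, ?_, ?_⟩
  · rw [← ha, ← hb]
    have h1 := Nms_pow A q C hA0 hq1 (s + 1) N d hN hC hd1
    have h2 : K * R * a ^ (2 * d + 1) ≤ K * (N : ℝ) ^ (s + 1) * a ^ (2 * d + 1) := by
      gcongr
    have h3 : K * (N : ℝ) ^ (s + 1) * a ^ (2 * d + 1) = (A * (N : ℝ) ^ (s + 1)) * (a ^ (2 * d) * (ρ / 4)) := by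
      calc K * (N : ℝ) ^ (s + 1) * a ^ (2 * d + 1) = (K * a) * ((N : ℝ) ^ (s + 1) * a ^ (2 * d)) := by ring
        _ = (A * (ρ / 4)) * ((N : ℝ) ^ (s + 1) * a ^ (2 * d)) := by rw [hAρ]
        _ = (A * (N : ℝ) ^ (s + 1)) * (a ^ (2 * d) * (ρ / 4)) := by ring
    have h4 : (A * (N : ℝ) ^ (s + 1)) * (a ^ (2 * d) * (ρ / 4)) < q ^ (2 * d) * (a ^ (2 * d) * (ρ / 4)) :=
      mul_lt_mul_of_pos_right h1 (by positivity)
    have h5 : b ^ (2 * d) * (ρ / 4) = q ^ (2 * d) * (a ^ (2 * d) * (ρ / 4)) := by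
      rw [hqa, mul_pow]
      ring
    rw [h5]
    exact (h2.trans h3.le).trans_lt h4
  · rw [← hE]
    have h1 : (((d * k : ℕ) : ℝ) / N) ^ (s + 1) ≤ ((C + 1) * k) ^ (s + 1) / ((N : ℝ) / l) ^ (s + 1) := by
      have h2 : ((d * k : ℕ) : ℝ) ≤ ((C + 1) * k) * l := by
        push_cast
        rw [hl]
        nlinarith [mul_le_mul_of_nonneg_right hd2 (Nat.cast_nonneg (α := ℝ) k)]
      rw [← div_pow]
      apply pow_le_pow_left₀ (by positivity)
      rw [div_div_eq_mul_div]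
      gcongr
    have h2 : L * (r / (4 * L)) = r / 4 := by
      field_simp
    have h3 : L * (E * (2 * R * ((k.choose (s + 1) : ℝ) * (((d * k : ℕ) : ℝ) / N) ^ (s + 1)))) ≤ r / 2 := by
      calc L * (E * (2 * R * ((k.choose (s + 1) : ℝ) * (((d * k : ℕ) : ℝ) / N) ^ (s + 1))))
          ≤ L * (E * (2 * (r / (2 * (D + 1)) * ((N : ℝ) / l) ^ (s + 1)) * ((k.choose (s + 1) : ℝ) *
            (((C + 1) * k) ^ (s + 1) / ((N : ℝ) / l) ^ (s + 1))))) := by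
            gcongr
        _ = (r / (2 * (D + 1))) * D := by
            rw [hD]
            obtain ⟨P, hP⟩ : ∃ P, P = ((N : ℝ) / l) ^ (s + 1) := ⟨_, rfl⟩
            rw [← hP] at hP0 ⊢
            field_simp
        _ ≤ r / 2 := by
            rw [div_mul_eq_mul_div, div_le_div_iff₀ (by positivity) (by norm_num)]
            nlinarith
    rw [mul_add, h2]
    linarith

end Pool.Agent.H9.SD
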