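import Pool.Agent.H9.SD.Abs
import Pool.Agent.H9.SD.Exj
import Pool.Agent.H9.SD.Den
import Pool.Agent.H9.SD.Dps
import Pool.Agent.H9.SD.Dvl
import Pool.Agent.H9.SD.Blk
import Pool.Agent.H9.SD.Nms
import Pool.Agent.H9.SD.Stm2

/-!
Module Fin2.  The lower bound for SDP relaxations of k-clique, final form.
-/

set_option autoImplicit false
set_option linter.unusedSectionVars false

open Finset

namespace Pool.Agent.H9.SD

theorem Fin2_main (s k : ℕ) (hs : 1 ≤ s) (hk : 4 * s ≤ k) :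
    ∃ (n : ℕ) (H : SimpleGraph (Fin n)), H.CliqueFree (16 * s + 4) ∧
      ∀ w : SimpleGraph (Fin k) → ℝ, LocalObjective (2 * s) w → ∀ ρ : ℝ, 0 < ρ → ∃ c : ℝ, 0 < c ∧
        ∀ N R : ℕ, k ≤ N → ∀ B : (Fin k ↪ Fin N) → Matrix (Fin R) (Fin R) ℝ, (∀ F, (B F).PosSemidef) →
          (∀ ψ : Fin N → Fin n, Certifies2 w B (H.comap ψ) ρ) →
          c * ((N : ℝ) / (1 + Real.log N)) ^ (s + 1) < R + 1 := by
  classical
  obtain ⟨n, G, E, hn, hG, hE1, hlin, hadj, hpsd⟩ := Exj_main s k hs hk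
  refine ⟨n, G, hG, fun w hw ρ hρ => ?_⟩
  have : Nonempty (Fin n) := ⟨⟨0, hn⟩⟩
  obtain ⟨D, hD⟩ := Den_main hn (2 * s) E hlin (fun f x y hx hy hxy h => hadj f x y hx hy hxy (fun h2 => h2.1 h))
  set f : (Fin k → Fin n) → ℝ := fun x => w ⊤ - ρ - w (G.comap x) with hf
  have hval : ∑ x, D x * f x = -ρ * (n : ℝ) ^ k := by
    have h1 := Dvl_main hn (2 * s) G E hE1 hadj D hD w hw
    have h2 : ∑ x, D x = (n : ℝ) ^ k := by
      have h3 := hD ∅ (by simp)
      rw [hE1, mul_one] at h3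
      rw [← h3]
      refine Finset.sum_congr rfl fun x _ => ?_
      simp [ext]
    have h3 : ∀ x, D x * f x = (w ⊤ - ρ) * D x - D x * w (G.comap x) := by
      intro x
      simp only [hf]
      ring
    rw [Finset.sum_congr rfl fun x _ => h3 x, Finset.sum_sub_distrib, ← Finset.mul_sum, h1, h2]
    ring
  have hpos : ∀ q : (Fin k → Fin n) → ℝ, LowDeg s q → 0 ≤ ∑ x, D x * q x ^ 2 :=
    fun q hq => Dps_main s E hpsd D hD q hq
  obtain ⟨L, hL1, hL⟩ : ∃ L : ℝ, 1 ≤ L ∧ ∀ x, |D x| ≤ L := by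
    refine ⟨1 + ∑ x, |D x|, ?_, fun x => ?_⟩
    · have : 0 ≤ ∑ x, |D x| := Finset.sum_nonneg fun x _ => abs_nonneg _
      linarith
    · have := Finset.single_le_sum (f := fun x => |D x|) (fun x _ => abs_nonneg _) (mem_univ x)
      linarith
  obtain ⟨K, hK0, hfK⟩ : ∃ K : ℝ, 0 ≤ K ∧ ∀ x, f x ≤ K := by
    refine ⟨∑ x, |f x|, Finset.sum_nonneg fun x _ => abs_nonneg _, fun x => ?_⟩
    have := Finset.single_le_sum (f := fun x => |f x|) (fun x _ => abs_nonneg _) (mem_univ x)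
    exact (le_abs_self _).trans this
  obtain ⟨c, hc, hnum⟩ := Nms_main k s L (K + 1) ρ hL1 (by linarith) hρ
  refine ⟨c, hc, fun N R hkN B hB hcert => ?_⟩
  by_contra hcon
  push Not at hcon
  have hN : 0 < N := by omega
  choose P z hP hz hPB using hcert
  obtain ⟨P', B', hP', hB', hPB'⟩ := Blk_main P B z hP hB hz
  have hPQ : ∀ (ψ : Fin N → Fin n) (F : Fin k ↪ Fin N), (P' ψ * B' F).trace = f (ψ ∘ F) := by
    intro ψ F
    rw [hPB', ← hPB ψ F]
    rfl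
  obtain ⟨d, η, hη, h1, h2⟩ := hnum N (R + 1) (by omega) (by omega) (by push_cast; exact hcon)
  exact Abs_main hkN hN (by omega) D f L K ρ η hL1 hL hpos hK0 hfK hρ
    (by rw [Fintype.card_fin]; exact hval) P' B' hP' hB' hPQ hη h1 h2

end Pool.Agent.H9.SD
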