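import Pool.Agent.H9.SD.Abt
import Pool.Agent.H9.SD.Exj
import Pool.Agent.H9.SD.Den
import Pool.Agent.H9.SD.Dps
import Pool.Agent.H9.SD.Dvl
import Pool.Agent.H9.SD.Blk
import Pool.Agent.H9.SD.Nmt
import Pool.Agent.H9.SD.Stm2

/-!
Module Fin3.  The average-case lower bound for SDP relaxations of k-clique.
-/

set_option autoImplicit false
set_option linter.unusedSectionVars false

open Finset

namespace Pool.Agent.H9.SD

open Classical in
theorem Fin3_main (s k : ℕ) (hs : 1 ≤ s) (hk : 4 * s ≤ k) :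
    ∃ (n : ℕ) (H : SimpleGraph (Fin n)), H.CliqueFree (16 * s + 4) ∧
      ∀ w : SimpleGraph (Fin k) → ℝ, LocalObjective (2 * s) w → ∀ ρ : ℝ, 0 < ρ → ∃ c C : ℝ, 0 < c ∧ 0 < C ∧
        ∀ N R : ℕ, k ≤ N → ∀ B : (Fin k ↪ Fin N) → Matrix (Fin R) (Fin R) ℝ, (∀ F, (B F).PosSemidef) →
          C / N * (n : ℝ) ^ N ≤
            ((univ : Finset (Fin N → Fin n)).filter (fun ψ => Certifies2 w B (H.comap ψ) ρ)).card →
          c * ((N : ℝ) / (1 + Real.log N)) ^ (s + 1) < R + 1 := by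
  obtain ⟨n, G, E, hn, hG, hE1, hlin, hadj, hpsd⟩ := Exj_main s k hs hk
  refine ⟨n, G, hG, fun w hw ρ hρ => ?_⟩
  have : Nonempty (Fin n) := ⟨⟨0, hn⟩⟩
  obtain ⟨D, hD⟩ := Den_main hn (2 * s) E hlin (fun f x y hx hy hxy h => hadj f x y hx hy hxy (fun h2 => h2.1 h))
  set f : (Fin k → Fin n) → ℝ := fun x => w ⊤ - ρ - w (G.comap x) with hf
  have hval : ∑ x, D x * f x = -ρ * (n : ℝ) ^ k := by
    have h1 := Dvl_main hn (2 * s) G E hE1 hadj D hD w hw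
    have h2 : ∑ x, D x = (n : ℝ) ^ k := by
      have h3 := hD ∅ (by simp)
      rw [hE1, mul_one] at h3
      rw [← h3]
      refine Finset.sum_congr rfl fun x _ => ?_
      simp [ext]
    have h3 : ∀ x, D x * f x = (w ⊤ - ρ) * D x - D x * w (G.comap x) := by
      intro x
      simp only [hf]
      ring
    rw [Finset.sum_congr rfl fun x _ => h3 x, Finset.sum_sub_distrib, ← Finset.mul_sum, h1, h2]
    ring
  have hpos : ∀ q : (Fin k → Fin n) → ℝ, LowDeg s q → 0 ≤ ∑ x, D x * q x ^ 2 :=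
    fun q hq => Dps_main s E hpsd D hD q hq
  obtain ⟨L, hL1, hL⟩ : ∃ L : ℝ, 1 ≤ L ∧ ∀ x, |D x| ≤ L := by
    refine ⟨1 + ∑ x, |D x|, ?_, fun x => ?_⟩
    · have : 0 ≤ ∑ x, |D x| := Finset.sum_nonneg fun x _ => abs_nonneg _
      linarith
    · have := Finset.single_le_sum (f := fun x => |D x|) (fun x _ => abs_nonneg _) (mem_univ x)
      linarith
  obtain ⟨K, hK0, hfK⟩ : ∃ K : ℝ, 0 ≤ K ∧ ∀ x, |f x| ≤ K := by
    refine ⟨∑ x, |f x|, Finset.sum_nonneg fun x _ => abs_nonneg _, fun x => ?_⟩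
    exact Finset.single_le_sum (f := fun x => |f x|) (fun x _ => abs_nonneg _) (mem_univ x)
  obtain ⟨C, hC0, hC⟩ : ∃ C : ℝ, 0 < C ∧ 64 * (L * K) ^ 2 * k / ρ ^ 2 ≤ C :=
    ⟨64 * (L * K) ^ 2 * k / ρ ^ 2 + 1, by positivity, by linarith⟩
  obtain ⟨c, hc, hnum⟩ := Nmt_main k s L (K + 1) ρ C hL1 (by linarith) hρ hC0
  refine ⟨c, C, hc, hC0, fun N R hkN B hB hcert => ?_⟩
  by_contra hcon
  push Not at hcon
  have hN : 0 < N := by omega
  set Z : Finset (Fin N → Fin n) := univ.filter (fun ψ => Certifies2 w B (G.comap ψ) ρ) with hZdef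
  have hch : ∀ ψ : Fin N → Fin n, ∃ (P : Matrix (Fin R) (Fin R) ℝ) (z : ℝ), P.PosSemidef ∧ 0 ≤ z ∧
      (ψ ∈ Z → ∀ F : Fin k ↪ Fin N, w ⊤ - ρ - w ((G.comap ψ).comap F) = (P * B F).trace + z) := by
    intro ψ
    by_cases hψ : ψ ∈ Z
    · obtain ⟨P, z, h1, h2, h3⟩ := (mem_filter.1 hψ).2
      exact ⟨P, z, h1, h2, fun _ => h3⟩
    · exact ⟨0, 0, Matrix.PosSemidef.zero, le_rfl, fun h => absurd h hψ⟩
  choose P z hP hz hPB using hch
  obtain ⟨P', B', hP', hB', hPB'⟩ := Blk_main P B z hP hB hz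
  have hPQ : ∀ ψ ∈ Z, ∀ F : Fin k ↪ Fin N, ((if ψ ∈ Z then P' ψ else 0) * B' F).trace = f (ψ ∘ F) := by
    intro ψ hψ F
    rw [if_pos hψ, hPB', ← hPB ψ hψ F]
    rfl
  obtain ⟨d, η, hη, h1, h2⟩ := hnum N (R + 1) (by omega) (by omega) (by push_cast; exact hcon)
  exact Abt_main hkN hN (by omega) D f L K ρ η C hL1 hL hpos hK0 hfK hρ
    (by rw [Fintype.card_fin]; exact hval) (fun ψ => if ψ ∈ Z then P' ψ else 0) B'
    (fun ψ => by
      show (if ψ ∈ Z then P' ψ else 0).PosSemidef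
      split_ifs
      · exact hP' ψ
      · exact Matrix.PosSemidef.zero) hB' Z hC
    (by rw [Fintype.card_fun, Fintype.card_fin, Fintype.card_fin]; push_cast; exact hcert) hPQ
    (fun ψ hψ => if_neg hψ) hη h1 h2

end Pool.Agent.H9.SD
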