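import Pool.Agent.H9.SD.Efa
import Pool.Agent.H9.SD.Lde

/-!
Module Low.  Positivity for the low-degree part.   Use only the STATEMENTS of Efa, Lde.
By `Lde_over`, `|A|^k ∑ ψ, D (ψ ∘ F) * lo .. ψ ^ 2 = ∑ ψ, ∑ x, D x * lo .. (ov F ψ x) ^ 2` (`Lde_ov`), and for fixed `ψ` the function `x ↦ lo s (im F) h (ov F ψ x)` is `LowDeg s` (`Lde_sum`, `Lde_main` with `J = {i | F i ∈ B}`, `J.card = (B ∩ im F).card ≤ s`, `Efa_dep`).
-/

set_option autoImplicit false
set_option linter.unusedSectionVars false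

open Finset

namespace Pool.Agent.H9.SD

variable {ι A : Type} [Fintype ι] [DecidableEq ι] [Fintype A] [DecidableEq A] [Nonempty A] {k : ℕ}

theorem Low_deg (s : ℕ) (F : Fin k ↪ ι) (h : (ι → A) → ℝ) (ψ : ι → A) :
    LowDeg s (fun x => lo s (im F) h (ov F ψ x)) := by
  unfold lo
  apply Lde_sum
  intro B hB
  rw [Finset.mem_filter] at hB
  apply Lde_main s (univ.filter fun i => F i ∈ B)
  · refine le_trans ?_ hB.2
    rw [← Finset.card_map F]
    apply Finset.card_le_card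
    intro v hv
    rw [Finset.mem_map] at hv
    obtain ⟨i, hi, rfl⟩ := hv
    rw [Finset.mem_filter] at hi
    rw [Finset.mem_inter]
    exact ⟨hi.2, by
      unfold im
      rw [Finset.mem_map]
      exact ⟨i, Finset.mem_univ i, rfl⟩⟩
  · intro x y hxy
    apply Efa_dep B h
    intro v hv
    unfold ov
    by_cases hi : ∃ i, F i = v
    · rw [dif_pos hi, dif_pos hi]
      apply hxy
      rw [Finset.mem_filter]
      refine ⟨Finset.mem_univ _, ?_⟩
      rw [hi.choose_spec]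
      exact hv
    · rw [dif_neg hi, dif_neg hi]

theorem Low_main (s : ℕ) (D : (Fin k → A) → ℝ) (hD : ∀ q : (Fin k → A) → ℝ, LowDeg s q → 0 ≤ ∑ x, D x * q x ^ 2)
    (F : Fin k ↪ ι) (h : (ι → A) → ℝ) : 0 ≤ ∑ ψ : ι → A, D (ψ ∘ F) * lo s (im F) h ψ ^ 2 := by
  have h1 := Lde_over F (fun ψ => D (ψ ∘ F) * lo s (im F) h ψ ^ 2)
  have h2 : 0 ≤ ∑ ψ : ι → A, ∑ x : Fin k → A, D ((ov F ψ x) ∘ F) * lo s (im F) h (ov F ψ x) ^ 2 := by
    apply Finset.sum_nonneg
    intro ψ _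
    have h3 := hD _ (Low_deg s F h ψ)
    simp only [Lde_ov]
    exact h3
  have h4 : (0 : ℝ) < (Fintype.card A : ℝ) ^ k := by
    apply pow_pos
    exact_mod_cast Fintype.card_pos
  rw [← h1] at h2
  exact nonneg_of_mul_nonneg_right h2 h4

end Pool.Agent.H9.SD
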