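import Pool.Agent.H9.SD.Efb
import Pool.Agent.H9.SD.Low

/-!
Module One.  The inequality for one `F`.   Use only the STATEMENTS of Efa, Efb, Low.
`One_sc` (scalar functions): `D h² = D lo² + D (2 lo hi + hi²) ≥ D lo² - L (η lo² + (1 + 1/η) hi²)` pointwise (`|2 lo hi| ≤ η lo² + hi²/η`), sum over `ψ`, `Low_main`, `Efb_lo`.
`One_main`: write `Q = Cᵀ * C` (`Matrix.posSemidef_iff_eq_conjTranspose_mul_self` or similar).  `trace (Q * (T ψ * T ψ)) = ∑ a b, ((C * T ψ) a b)²` as `T ψ` is symmetric.  Apply `One_sc` to the functions `ψ ↦ (C * T ψ) a b = ∑ c, C a c * T ψ c b` and sum over `a, b`;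
`hi` of it is `∑ c, C a c * hi (T · c b)` (`Efa_lin`), and `∑ a b, (∑ c, C a c * y c b)² ≤ (∑ a c, C a c ²) (∑ c b, y c b ²)` with `∑ a c, C a c ² = trace Q`.
-/

set_option autoImplicit false
set_option linter.unusedSectionVars false

open Finset

namespace Pool.Agent.H9.SD

variable {ι A : Type} [Fintype ι] [DecidableEq ι] [Fintype A] [DecidableEq A] [Nonempty A] {k : ℕ}

theorem One_pt {D L lo hi η : ℝ} (hL : |D| ≤ L) (hη : 0 < η) :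
    D * lo ^ 2 - L * (η * lo ^ 2 + (1 + 1 / η) * hi ^ 2) ≤ D * (lo + hi) ^ 2 := by
  have hL0 : 0 ≤ L := (abs_nonneg D).trans hL
  have h1 : |2 * lo * hi + hi ^ 2| ≤ η * lo ^ 2 + (1 + 1 / η) * hi ^ 2 := by
    have h2 : |2 * lo * hi| ≤ η * lo ^ 2 + 1 / η * hi ^ 2 := by
      have e1 : η * lo ^ 2 + 1 / η * hi ^ 2 - 2 * lo * hi = (η * lo - hi) ^ 2 / η := by
        field_simp
        ring
      have e2 : η * lo ^ 2 + 1 / η * hi ^ 2 + 2 * lo * hi = (η * lo + hi) ^ 2 / η := by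
        field_simp
        ring
      have p1 : 0 ≤ (η * lo - hi) ^ 2 / η := by positivity
      have p2 : 0 ≤ (η * lo + hi) ^ 2 / η := by positivity
      rw [abs_le]
      constructor <;> linarith
    calc |2 * lo * hi + hi ^ 2| ≤ |2 * lo * hi| + |hi ^ 2| := abs_add_le _ _
      _ = |2 * lo * hi| + hi ^ 2 := by rw [abs_of_nonneg (sq_nonneg hi)]
      _ ≤ _ := by linarith
  have h4 : |D * (2 * lo * hi + hi ^ 2)| ≤ L * (η * lo ^ 2 + (1 + 1 / η) * hi ^ 2) := by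
    rw [abs_mul]
    exact mul_le_mul hL h1 (abs_nonneg _) hL0
  have h5 := neg_abs_le (D * (2 * lo * hi + hi ^ 2))
  have h6 : D * (lo + hi) ^ 2 = D * lo ^ 2 + D * (2 * lo * hi + hi ^ 2) := by ring
  rw [h6]
  linarith

theorem One_L0 (D : (Fin k → A) → ℝ) (L : ℝ) (hL : ∀ x, |D x| ≤ L) : 0 ≤ L :=
  (abs_nonneg _).trans (hL (fun _ => Classical.arbitrary A))

theorem One_sc (s : ℕ) (D : (Fin k → A) → ℝ) (L : ℝ) (hL : ∀ x, |D x| ≤ L)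
    (hD : ∀ q : (Fin k → A) → ℝ, LowDeg s q → 0 ≤ ∑ x, D x * q x ^ 2) (F : Fin k ↪ ι) (h : (ι → A) → ℝ) (η : ℝ)
    (hη : 0 < η) :
    -(L * (η * ∑ ψ, h ψ ^ 2 + (1 + 1 / η) * ∑ ψ, hi s (im F) h ψ ^ 2)) ≤ ∑ ψ : ι → A, D (ψ ∘ F) * h ψ ^ 2 := by
  have hL0 : 0 ≤ L := One_L0 D L hL
  have h1 : ∑ ψ : ι → A, (D (ψ ∘ F) * lo s (im F) h ψ ^ 2 -
      L * (η * lo s (im F) h ψ ^ 2 + (1 + 1 / η) * hi s (im F) h ψ ^ 2)) ≤
      ∑ ψ : ι → A, D (ψ ∘ F) * h ψ ^ 2 := by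
    apply Finset.sum_le_sum
    intro ψ _
    have h2 := One_pt (D := D (ψ ∘ F)) (lo := lo s (im F) h ψ) (hi := hi s (im F) h ψ)
      (hL (ψ ∘ F)) hη
    rw [Efb_add] at h2
    exact h2
  have h2 : ∑ ψ : ι → A, (D (ψ ∘ F) * lo s (im F) h ψ ^ 2 -
      L * (η * lo s (im F) h ψ ^ 2 + (1 + 1 / η) * hi s (im F) h ψ ^ 2)) =
      ∑ ψ : ι → A, D (ψ ∘ F) * lo s (im F) h ψ ^ 2 -
        L * (η * ∑ ψ, lo s (im F) h ψ ^ 2 + (1 + 1 / η) * ∑ ψ, hi s (im F) h ψ ^ 2) := by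
    rw [Finset.sum_sub_distrib, ← Finset.mul_sum, Finset.sum_add_distrib, ← Finset.mul_sum,
      ← Finset.mul_sum]
  rw [h2] at h1
  have h3 := Low_main s D hD F h
  have h4 := Efb_lo s (im F) h
  have h5 : L * (η * ∑ ψ, lo s (im F) h ψ ^ 2 + (1 + 1 / η) * ∑ ψ, hi s (im F) h ψ ^ 2) ≤
      L * (η * ∑ ψ, h ψ ^ 2 + (1 + 1 / η) * ∑ ψ, hi s (im F) h ψ ^ 2) := by
    apply mul_le_mul_of_nonneg_left _ hL0
    have := mul_le_mul_of_nonneg_left h4 hη.le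
    linarith
  linarith

theorem One_hi {κ : Type} (s : ℕ) (B0 : Finset ι) (S : Finset κ) (c : κ → ℝ)
    (h : κ → (ι → A) → ℝ) (ψ : ι → A) :
    hi s B0 (fun ψ => ∑ j ∈ S, c j * h j ψ) ψ = ∑ j ∈ S, c j * hi s B0 (h j) ψ := by
  unfold hi
  rw [Finset.sum_congr rfl (fun B _ => Efa_lin S c h B ψ), Finset.sum_comm]
  apply Finset.sum_congr rfl
  intro j _
  rw [Finset.mul_sum]

theorem One_tr {R : ℕ} (C T : Matrix (Fin R) (Fin R) ℝ) (hT : T.transpose = T) :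
    (C.transpose * C * (T * T)).trace = ∑ a, ∑ b, (∑ c, C a c * T c b) ^ 2 := by
  have h1 : (C.transpose * C * (T * T)).trace = ((C * T) * (C * T).transpose).trace := by
    rw [Matrix.transpose_mul, hT, Matrix.mul_assoc, Matrix.trace_mul_comm]
    simp only [Matrix.mul_assoc]
  rw [h1]
  unfold Matrix.trace
  apply Finset.sum_congr rfl
  intro a _
  rw [Matrix.diag_apply, Matrix.mul_apply]
  apply Finset.sum_congr rfl
  intro b _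
  rw [Matrix.transpose_apply, Matrix.mul_apply, sq]

theorem One_trQ {R : ℕ} (C : Matrix (Fin R) (Fin R) ℝ) :
    (C.transpose * C).trace = ∑ a, ∑ c, C a c ^ 2 := by
  unfold Matrix.trace
  rw [Finset.sum_comm]
  apply Finset.sum_congr rfl
  intro c _
  rw [Matrix.diag_apply, Matrix.mul_apply]
  apply Finset.sum_congr rfl
  intro a _
  rw [Matrix.transpose_apply, sq]

theorem One_cs {R : ℕ} (C : Matrix (Fin R) (Fin R) ℝ) (y : Fin R → Fin R → ℝ) :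
    ∑ a, ∑ b, (∑ c, C a c * y c b) ^ 2 ≤ (C.transpose * C).trace * ∑ c, ∑ b, y c b ^ 2 := by
  rw [One_trQ, Finset.sum_mul]
  apply Finset.sum_le_sum
  intro a _
  rw [Finset.sum_comm (s := (univ : Finset (Fin R))) (t := (univ : Finset (Fin R)))
    (f := fun c b => y c b ^ 2), Finset.mul_sum]
  apply Finset.sum_le_sum
  intro b _
  exact Finset.sum_mul_sq_le_sq_mul_sq univ (fun c => C a c) (fun c => y c b)

theorem One_c3 {R : ℕ} {κ : Type} [Fintype κ] (f : Fin R → Fin R → κ → ℝ) :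
    ∑ a, ∑ b, ∑ ψ, f a b ψ = ∑ ψ, ∑ a, ∑ b, f a b ψ := by
  symm
  rw [Finset.sum_comm]
  apply Finset.sum_congr rfl
  intro a _
  rw [Finset.sum_comm]

open scoped MatrixOrder in
theorem One_fac {R : ℕ} {Q : Matrix (Fin R) (Fin R) ℝ} (hQ : Q.PosSemidef) :
    ∃ C : Matrix (Fin R) (Fin R) ℝ, Q = C.transpose * C := by
  obtain ⟨B, hB⟩ := CStarAlgebra.nonneg_iff_eq_star_mul_self.mp hQ.nonneg
  refine ⟨B, ?_⟩
  rw [hB, Matrix.star_eq_conjTranspose, Matrix.conjTranspose_eq_transpose_of_trivial]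

theorem One_main {R : ℕ} (s : ℕ) (D : (Fin k → A) → ℝ) (L : ℝ) (hL : ∀ x, |D x| ≤ L)
    (hD : ∀ q : (Fin k → A) → ℝ, LowDeg s q → 0 ≤ ∑ x, D x * q x ^ 2) (F : Fin k ↪ ι)
    (Q : Matrix (Fin R) (Fin R) ℝ) (hQ : Q.PosSemidef) (T : (ι → A) → Matrix (Fin R) (Fin R) ℝ)
    (hT : ∀ ψ, (T ψ).transpose = T ψ) (η : ℝ) (hη : 0 < η) :
    -(L * (η * ∑ ψ, (Q * (T ψ * T ψ)).trace +
      (1 + 1 / η) * (Q.trace * ∑ a, ∑ b, ∑ ψ, hi s (im F) (fun ψ => T ψ a b) ψ ^ 2))) ≤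
    ∑ ψ : ι → A, D (ψ ∘ F) * (Q * (T ψ * T ψ)).trace := by
  have hL0 : 0 ≤ L := One_L0 D L hL
  obtain ⟨C, rfl⟩ := One_fac hQ
  have h1 : ∀ ψ, (C.transpose * C * (T ψ * T ψ)).trace = ∑ a, ∑ b, (∑ c, C a c * T ψ c b) ^ 2 :=
    fun ψ => One_tr C (T ψ) (hT ψ)
  have h2 : ∑ a, ∑ b, ∑ ψ : ι → A, D (ψ ∘ F) * (∑ c, C a c * T ψ c b) ^ 2 =
      ∑ ψ : ι → A, D (ψ ∘ F) * (C.transpose * C * (T ψ * T ψ)).trace := by
    have e1 : ∀ ψ : ι → A, D (ψ ∘ F) * (C.transpose * C * (T ψ * T ψ)).trace =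
        ∑ a, ∑ b, D (ψ ∘ F) * (∑ c, C a c * T ψ c b) ^ 2 := by
      intro ψ
      rw [h1 ψ, Finset.mul_sum]
      apply Finset.sum_congr rfl
      intro a _
      rw [Finset.mul_sum]
    rw [Finset.sum_congr rfl (fun ψ _ => e1 ψ)]
    exact One_c3 (fun a b ψ => D (ψ ∘ F) * (∑ c, C a c * T ψ c b) ^ 2)
  have h3 : ∑ a, ∑ b, ∑ ψ : ι → A, (∑ c, C a c * T ψ c b) ^ 2 =
      ∑ ψ : ι → A, (C.transpose * C * (T ψ * T ψ)).trace := by
    rw [Finset.sum_congr rfl (fun ψ _ => h1 ψ)]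
    exact One_c3 (fun a b ψ => (∑ c, C a c * T ψ c b) ^ 2)
  have h4 : ∑ a, ∑ b, ∑ ψ : ι → A, hi s (im F) (fun ψ => ∑ c, C a c * T ψ c b) ψ ^ 2 ≤
      (C.transpose * C).trace * ∑ a, ∑ b, ∑ ψ, hi s (im F) (fun ψ => T ψ a b) ψ ^ 2 := by
    have e1 : ∑ a, ∑ b, ∑ ψ : ι → A, hi s (im F) (fun ψ => ∑ c, C a c * T ψ c b) ψ ^ 2 =
        ∑ ψ : ι → A, ∑ a, ∑ b, (∑ c, C a c * hi s (im F) (fun ψ => T ψ c b) ψ) ^ 2 := by
      have e2 : ∀ a b (ψ : ι → A), hi s (im F) (fun ψ => ∑ c, C a c * T ψ c b) ψ =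
          ∑ c, C a c * hi s (im F) (fun ψ => T ψ c b) ψ := fun a b ψ =>
        One_hi s (im F) univ (fun c => C a c) (fun c ψ => T ψ c b) ψ
      simp only [e2]
      exact One_c3 (fun a b ψ => (∑ c, C a c * hi s (im F) (fun ψ => T ψ c b) ψ) ^ 2)
    have e3 : ∑ a, ∑ b, ∑ ψ, hi s (im F) (fun ψ => T ψ a b) ψ ^ 2 =
        ∑ ψ, ∑ a, ∑ b, hi s (im F) (fun ψ => T ψ a b) ψ ^ 2 :=
      One_c3 (fun a b ψ => hi s (im F) (fun ψ => T ψ a b) ψ ^ 2)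
    rw [e1, e3, Finset.mul_sum]
    apply Finset.sum_le_sum
    intro ψ _
    exact One_cs C (fun c b => hi s (im F) (fun ψ => T ψ c b) ψ)
  have h5 : ∑ a, ∑ b, -(L * (η * ∑ ψ : ι → A, (∑ c, C a c * T ψ c b) ^ 2 +
      (1 + 1 / η) * ∑ ψ, hi s (im F) (fun ψ => ∑ c, C a c * T ψ c b) ψ ^ 2)) ≤
      ∑ a, ∑ b, ∑ ψ : ι → A, D (ψ ∘ F) * (∑ c, C a c * T ψ c b) ^ 2 := by
    apply Finset.sum_le_sum
    intro a _
    apply Finset.sum_le_sum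
    intro b _
    exact One_sc s D L hL hD F (fun ψ => ∑ c, C a c * T ψ c b) η hη
  have h6 : ∑ a, ∑ b, -(L * (η * ∑ ψ : ι → A, (∑ c, C a c * T ψ c b) ^ 2 +
      (1 + 1 / η) * ∑ ψ, hi s (im F) (fun ψ => ∑ c, C a c * T ψ c b) ψ ^ 2)) =
      -(L * (η * ∑ a, ∑ b, ∑ ψ : ι → A, (∑ c, C a c * T ψ c b) ^ 2 +
      (1 + 1 / η) * ∑ a, ∑ b, ∑ ψ, hi s (im F) (fun ψ => ∑ c, C a c * T ψ c b) ψ ^ 2)) := by
    simp only [Finset.sum_neg_distrib, ← Finset.mul_sum, Finset.sum_add_distrib]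
  rw [h6, h2, h3] at h5
  refine le_trans ?_ h5
  apply neg_le_neg
  apply mul_le_mul_of_nonneg_left _ hL0
  have hη1 : 0 ≤ 1 + 1 / η := by positivity
  have := mul_le_mul_of_nonneg_left h4 hη1
  linarith

end Pool.Agent.H9.SD
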