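import Pool.Agent.H9.SD.Stm2

/-!
Module Upd.  An SDP (even LP) relaxation of size `N.choose m` for graphs without clique on `m` vertices.
Let `e T` (for `T : Finset (Fin N)`) be the number of ordered pairs `(u, v)` of vertices in `T` that are adjacent in `G`; `e T ≤ m (m - 1) - 2` for the `T` with `m` elements, as `G` has no `m`-clique (some pair `u ≠ v` in `T` is not adjacent; both orders are missing).
`edgeCount ⊤ = k (k - 1)`.  Double counting over the `T ⊆ im F` with `T.card = m` (each ordered pair `u ≠ v` in `im F` lies in `(k - 2).choose (m - 2)` of them): `∑ T, (m (m - 1) - e T) = (k - 2).choose (m - 2) * (k (k - 1) - edgeCount (G.comap F))`.  The number of `T` is `k.choose m` and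
`(k - 2).choose (m - 2) * k (k - 1) = k.choose m * m (m - 1)`.  So `k (k - 1) - ρ - edgeCount (G.comap F) = ∑ T, coeff T * (if T ⊆ im F then 1 else 0)` with `coeff T = (m (m - 1) - e T) / (k - 2).choose (m - 2) - ρ / k.choose m ≥ 0`.
`P = diagonal coeff`, `B F = diagonal (T ↦ if T ⊆ im F then 1 else 0)`, `z = 0`, with the index type `{T : Finset (Fin N) // T.card = m} ≃ Fin (N.choose m)` (`Fintype.equivFinOfCardEq`); `im F = univ.map F`.
-/

set_option autoImplicit false
set_option linter.unusedSectionVars false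

open Finset

namespace Pool.Agent.H9.SD

theorem Upd_local {k : ℕ} (d : ℕ) (hd : 2 ≤ d) : LocalObjective d (edgeCount (k := k)) := by
  classical
  refine ⟨fun J H => ∑ i, ∑ j, if ({i, j} : Finset (Fin k)) = J then
    (if H.Adj i j then (1 : ℝ) else 0) else 0, ?_, ?_⟩
  · intro J H H' h
    refine Finset.sum_congr rfl fun i _ => Finset.sum_congr rfl fun j _ => ?_
    by_cases hJ : ({i, j} : Finset (Fin k)) = J
    · have h1 : H.Adj i j ↔ H'.Adj i j := by
        refine h i ?_ j ?_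
        · rw [← hJ]; simp
        · rw [← hJ]; simp
      rw [if_pos hJ, if_pos hJ]
      by_cases h2 : H.Adj i j
      · rw [if_pos h2, if_pos (h1.1 h2)]
      · rw [if_neg h2, if_neg (fun h3 => h2 (h1.2 h3))]
    · rw [if_neg hJ, if_neg hJ]
  · intro H
    unfold edgeCount
    symm
    rw [Finset.sum_comm]
    refine Finset.sum_congr rfl fun i _ => ?_
    rw [Finset.sum_comm]
    refine Finset.sum_congr rfl fun j _ => ?_
    rw [Finset.sum_ite_eq, if_pos]
    rw [Finset.mem_filter]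
    exact ⟨Finset.mem_univ _, Finset.card_le_two.trans hd⟩

theorem Upd_top {k : ℕ} : edgeCount (⊤ : SimpleGraph (Fin k)) = (k : ℝ) * (k - 1) := by
  classical
  unfold edgeCount
  have h2 : ∀ i : Fin k, ∑ j : Fin k, ((1 : ℝ) - (if i = j then 1 else 0)) = k - 1 := by
    intro i
    rw [Finset.sum_sub_distrib, Finset.sum_ite_eq, if_pos (Finset.mem_univ i)]
    simp
  have h3 : ∑ i : Fin k, ((k : ℝ) - 1) = (k : ℝ) * (k - 1) := by
    rw [Finset.sum_const, Finset.card_univ, Fintype.card_fin, nsmul_eq_mul]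
  refine (Finset.sum_congr rfl fun i _ => ?_).trans h3
  refine (Finset.sum_congr rfl fun j _ => ?_).trans (h2 i)
  by_cases hij : i = j
  · rw [if_neg (by rw [SimpleGraph.top_adj]; exact fun h => h hij), if_pos hij, sub_self]
  · rw [if_pos (by rw [SimpleGraph.top_adj]; exact hij), if_neg hij, sub_zero]

theorem Upd_pair {k m : ℕ} (hm : 2 ≤ m) (i j : Fin k) (hij : i ≠ j) :
    (((univ : Finset (Fin k)).powersetCard m).filter (fun J => i ∈ J ∧ j ∈ J)).card =
      (k - 2).choose (m - 2) := by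
  classical
  have h1 : ((univ : Finset (Fin k)) \ {i, j}).card = k - 2 := by
    rw [Finset.card_sdiff_of_subset (Finset.subset_univ _), Finset.card_univ, Fintype.card_fin,
      Finset.card_pair hij]
  rw [← h1, ← Finset.card_powersetCard]
  have hsub : ∀ J : Finset (Fin k), i ∈ J → j ∈ J → ({i, j} : Finset (Fin k)) ⊆ J := by
    intro J hi hj x hx
    rw [Finset.mem_insert, Finset.mem_singleton] at hx
    rcases hx with rfl | rfl
    · exact hi
    · exact hj
  have hdis : ∀ L : Finset (Fin k), L ∈ ((univ : Finset (Fin k)) \ {i, j}).powersetCard (m - 2) →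
      Disjoint L {i, j} := by
    intro L hL
    rw [Finset.mem_powersetCard] at hL
    exact Finset.disjoint_of_subset_left hL.1 Finset.sdiff_disjoint
  refine Finset.card_bij' (fun J _ => J \ {i, j}) (fun L _ => L ∪ {i, j}) ?_ ?_ ?_ ?_
  · intro J hJ
    rw [Finset.mem_filter, Finset.mem_powersetCard] at hJ
    rw [Finset.mem_powersetCard]
    refine ⟨Finset.sdiff_subset_sdiff hJ.1.1 subset_rfl, ?_⟩
    rw [Finset.card_sdiff_of_subset (hsub J hJ.2.1 hJ.2.2), hJ.1.2, Finset.card_pair hij]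
  · intro L hL
    have hd := hdis L hL
    rw [Finset.mem_powersetCard] at hL
    rw [Finset.mem_filter, Finset.mem_powersetCard]
    refine ⟨⟨Finset.subset_univ _, ?_⟩, ?_, ?_⟩
    · rw [Finset.card_union_of_disjoint hd, hL.2, Finset.card_pair hij]
      omega
    · simp
    · simp
  · intro J hJ
    rw [Finset.mem_filter] at hJ
    exact Finset.sdiff_union_of_subset (hsub J hJ.2.1 hJ.2.2)
  · intro L hL
    exact Finset.union_sdiff_cancel_right (hdis L hL)

theorem Upd_count {k m : ℕ} (hm : 2 ≤ m) (w : Fin k → Fin k → ℝ) (hw : ∀ i, w i i = 0) :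
    ∑ J ∈ (univ : Finset (Fin k)).powersetCard m, ∑ i ∈ J, ∑ j ∈ J, w i j =
      ((k - 2).choose (m - 2) : ℝ) * ∑ i, ∑ j, w i j := by
  classical
  have h1 : ∀ J : Finset (Fin k), ∑ i ∈ J, ∑ j ∈ J, w i j =
      ∑ i, ∑ j, if (i ∈ J ∧ j ∈ J) then w i j else 0 := by
    intro J
    have h2 : ∀ i, ∑ j, (if (i ∈ J ∧ j ∈ J) then w i j else 0) =
        if i ∈ J then ∑ j ∈ J, w i j else 0 := by
      intro i
      by_cases hi : i ∈ J
      · simp [hi]
      · simp [hi]
    rw [Finset.sum_congr rfl fun i _ => h2 i]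
    simp
  rw [Finset.sum_congr rfl fun J _ => h1 J, Finset.sum_comm, Finset.mul_sum]
  refine Finset.sum_congr rfl fun i _ => ?_
  rw [Finset.sum_comm, Finset.mul_sum]
  refine Finset.sum_congr rfl fun j _ => ?_
  by_cases hij : i = j
  · subst hij
    rw [hw, mul_zero]
    exact Finset.sum_eq_zero fun J _ => by split_ifs <;> rfl
  · rw [← Finset.sum_filter, Finset.sum_const, Upd_pair hm i j hij, nsmul_eq_mul]

theorem Upd_choose (k m : ℕ) (hm : 2 ≤ m) (hmk : m ≤ k) :
    (k.choose m : ℝ) * (m * (m - 1)) = (k * (k - 1)) * (k - 2).choose (m - 2) := by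
  obtain ⟨m', rfl⟩ : ∃ m', m = m' + 2 := ⟨m - 2, by omega⟩
  obtain ⟨k', rfl⟩ : ∃ k', k = k' + 2 := ⟨k - 2, by omega⟩
  have h1 := Nat.add_one_mul_choose_eq (k' + 1) (m' + 1)
  have h2 := Nat.add_one_mul_choose_eq k' m'
  have h3 : ((k' : ℝ) + 2) * ((k' + 1).choose (m' + 1) : ℝ) =
      ((k' + 2).choose (m' + 2) : ℝ) * ((m' : ℝ) + 2) := by
    have := congrArg (fun n : ℕ => (n : ℝ)) h1
    push_cast at this
    have e : (k' + 1 + 1) = k' + 2 := rfl
    have e' : (m' + 1 + 1) = m' + 2 := rfl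
    rw [e, e'] at this
    linarith
  have h4 : ((k' : ℝ) + 1) * (k'.choose m' : ℝ) =
      ((k' + 1).choose (m' + 1) : ℝ) * ((m' : ℝ) + 1) := by
    have := congrArg (fun n : ℕ => (n : ℝ)) h2
    push_cast at this
    linarith
  have e1 : k' + 2 - 2 = k' := by omega
  have e2 : m' + 2 - 2 = m' := by omega
  rw [e1, e2]
  push_cast
  have h5 : ((k' + 2).choose (m' + 2) : ℝ) * (((m' : ℝ) + 2) * (((m' : ℝ) + 2) - 1)) =
      (((k' + 2).choose (m' + 2) : ℝ) * ((m' : ℝ) + 2)) * ((m' : ℝ) + 1) := by ring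
  rw [h5, ← h3]
  have h6 : ((k' : ℝ) + 2) * ((k' + 1).choose (m' + 1) : ℝ) * ((m' : ℝ) + 1) =
      ((k' : ℝ) + 2) * (((k' + 1).choose (m' + 1) : ℝ) * ((m' : ℝ) + 1)) := by ring
  rw [h6, ← h4]
  ring

open Classical in
/-- The number of ordered pairs of different nonadjacent vertices in `T`. -/
noncomputable def Upd_na {N : ℕ} (G : SimpleGraph (Fin N)) (T : Finset (Fin N)) : ℝ :=
  ∑ u ∈ T, ∑ v ∈ T, if (u ≠ v ∧ ¬ G.Adj u v) then (1 : ℝ) else 0

theorem Upd_na_two {N m : ℕ} (G : SimpleGraph (Fin N)) (hG : G.CliqueFree m) (T : Finset (Fin N))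
    (hT : T.card = m) : 2 ≤ Upd_na G T := by
  classical
  have h1 : ¬ G.IsNClique m T := hG T
  have h2 : ∃ u ∈ T, ∃ v ∈ T, u ≠ v ∧ ¬ G.Adj u v := by
    by_contra hc
    refine h1 ⟨?_, hT⟩
    intro u hu v hv huv
    by_contra h3
    exact hc ⟨u, hu, v, hv, huv, h3⟩
  obtain ⟨u, hu, v, hv, huv, hn⟩ := h2
  unfold Upd_na
  rw [← Finset.sum_product']
  have hsub : ({(u, v), (v, u)} : Finset (Fin N × Fin N)) ⊆ T ×ˢ T := by
    intro x hx
    rw [Finset.mem_insert, Finset.mem_singleton] at hx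
    rcases hx with rfl | rfl
    · exact Finset.mem_product.2 ⟨hu, hv⟩
    · exact Finset.mem_product.2 ⟨hv, hu⟩
  refine le_trans ?_ (Finset.sum_le_sum_of_subset_of_nonneg hsub fun x _ _ => ?_)
  · rw [Finset.sum_pair (fun h => huv (congrArg Prod.fst h)), if_pos ⟨huv, hn⟩,
      if_pos ⟨huv.symm, fun h => hn h.symm⟩]
    norm_num
  · split_ifs
    · exact zero_le_one
    · exact le_rfl

theorem Upd_na_map {N k m : ℕ} (hm : 2 ≤ m) (G : SimpleGraph (Fin N)) (F : Fin k ↪ Fin N) :
    ∑ J ∈ (univ : Finset (Fin k)).powersetCard m, Upd_na G (J.map F) =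
      ((k - 2).choose (m - 2) : ℝ) * ((k : ℝ) * (k - 1) - edgeCount (G.comap F)) := by
  classical
  have h1 : ∀ J : Finset (Fin k), Upd_na G (J.map F) =
      ∑ i ∈ J, ∑ j ∈ J, if (i ≠ j ∧ ¬ G.Adj (F i) (F j)) then (1 : ℝ) else 0 := by
    intro J
    unfold Upd_na
    rw [Finset.sum_map]
    refine Finset.sum_congr rfl fun i _ => ?_
    rw [Finset.sum_map]
    refine Finset.sum_congr rfl fun j _ => ?_
    have h2 : (F i ≠ F j ∧ ¬ G.Adj (F i) (F j)) ↔ (i ≠ j ∧ ¬ G.Adj (F i) (F j)) := by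
      rw [F.injective.ne_iff]
    by_cases h3 : i ≠ j ∧ ¬ G.Adj (F i) (F j)
    · rw [if_pos h3, if_pos (h2.2 h3)]
    · rw [if_neg h3, if_neg (fun h4 => h3 (h2.1 h4))]
  rw [Finset.sum_congr rfl fun J _ => h1 J, Upd_count hm _ (fun i => by
    rw [if_neg]; exact fun h => h.1 rfl)]
  congr 1
  rw [← Upd_top]
  unfold edgeCount
  rw [← Finset.sum_sub_distrib]
  refine Finset.sum_congr rfl fun i _ => ?_
  rw [← Finset.sum_sub_distrib]
  refine Finset.sum_congr rfl fun j _ => ?_
  by_cases hij : i = j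
  · subst hij
    rw [if_neg (fun h => h.1 rfl), if_neg (SimpleGraph.irrefl _), if_neg (SimpleGraph.irrefl _),
      sub_self]
  · rw [if_pos (show (⊤ : SimpleGraph (Fin k)).Adj i j from hij)]
    by_cases h3 : G.Adj (F i) (F j)
    · rw [if_neg (fun h => h.2 h3), if_pos (show (G.comap F).Adj i j from h3), sub_self]
    · rw [if_pos ⟨hij, h3⟩, if_neg (show ¬ (G.comap F).Adj i j from h3), sub_zero]

theorem Upd_main (N k m : ℕ) (hm : 2 ≤ m) (hmk : m ≤ k) :
    ∃ B : (Fin k ↪ Fin N) → Matrix (Fin (N.choose m)) (Fin (N.choose m)) ℝ, (∀ F, (B F).PosSemidef) ∧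
      ∀ G : SimpleGraph (Fin N), G.CliqueFree m → ∀ ρ : ℝ, ρ ≤ 2 * ((k : ℝ) * (k - 1)) / ((m : ℝ) * (m - 1)) →
        Certifies2 edgeCount B G ρ := by
  classical
  have hcard : Fintype.card {T : Finset (Fin N) // T.card = m} = N.choose m := by
    rw [Fintype.card_finset_len, Fintype.card_fin]
  let e := Fintype.equivFinOfCardEq hcard
  refine ⟨fun F => Matrix.diagonal (fun a => if (e.symm a).1 ⊆ univ.map F then (1 : ℝ) else 0),
    ?_, ?_⟩
  · intro F
    refine Matrix.PosSemidef.diagonal ?_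
    intro a
    show (0 : ℝ) ≤ if (e.symm a).1 ⊆ univ.map F then (1 : ℝ) else 0
    split_ifs
    · exact zero_le_one
    · exact le_rfl
  · intro G hG ρ hρ
    have hA : 0 < (((k - 2).choose (m - 2) : ℕ) : ℝ) := by
      exact_mod_cast Nat.choose_pos (by omega)
    have hC : 0 < ((k.choose m : ℕ) : ℝ) := by exact_mod_cast Nat.choose_pos hmk
    have hm1 : (2 : ℝ) ≤ m := by exact_mod_cast hm
    have hmm : 0 < (m : ℝ) * (m - 1) := by nlinarith
    have hkey := Upd_choose k m hm hmk
    have hρ2 : ρ / (k.choose m : ℝ) ≤ 2 / ((k - 2).choose (m - 2) : ℝ) := by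
      rw [div_le_div_iff₀ hC hA]
      rw [le_div_iff₀ hmm] at hρ
      have h2 := mul_le_mul_of_nonneg_right hρ hA.le
      have h3 : 2 * ((k : ℝ) * (k - 1)) * ((k - 2).choose (m - 2) : ℝ) =
          (2 * (k.choose m : ℝ)) * (m * (m - 1)) := by
        linear_combination (-2) * hkey
      rw [h3] at h2
      have h4 : ρ * ((m : ℝ) * (m - 1)) * ((k - 2).choose (m - 2) : ℝ) =
          (ρ * ((k - 2).choose (m - 2) : ℝ)) * ((m : ℝ) * (m - 1)) := by ring
      rw [h4] at h2
      exact le_of_mul_le_mul_right h2 hmm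
    refine ⟨Matrix.diagonal (fun a => Upd_na G (e.symm a).1 / ((k - 2).choose (m - 2) : ℝ) -
      ρ / (k.choose m : ℝ)), 0, ?_, le_rfl, ?_⟩
    · refine Matrix.PosSemidef.diagonal ?_
      intro a
      have h1 := Upd_na_two G hG (e.symm a).1 (e.symm a).2
      have h2 : 2 / ((k - 2).choose (m - 2) : ℝ) ≤
          Upd_na G (e.symm a).1 / ((k - 2).choose (m - 2) : ℝ) :=
        div_le_div_of_nonneg_right h1 hA.le
      show (0 : ℝ) ≤ Upd_na G (e.symm a).1 / ((k - 2).choose (m - 2) : ℝ) - ρ / (k.choose m : ℝ)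
      linarith
    · intro F
      rw [Matrix.diagonal_mul_diagonal, Matrix.trace_diagonal, add_zero]
      have h1 : ∑ a, (Upd_na G (e.symm a).1 / ((k - 2).choose (m - 2) : ℝ) -
          ρ / (k.choose m : ℝ)) * (if (e.symm a).1 ⊆ univ.map F then (1 : ℝ) else 0) =
          ∑ T : {T : Finset (Fin N) // T.card = m},
            (Upd_na G T.1 / ((k - 2).choose (m - 2) : ℝ) -
              ρ / (k.choose m : ℝ)) * (if T.1 ⊆ univ.map F then (1 : ℝ) else 0) :=
        Equiv.sum_comp e.symm (fun T : {T : Finset (Fin N) // T.card = m} =>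
          (Upd_na G T.1 / ((k - 2).choose (m - 2) : ℝ) -
              ρ / (k.choose m : ℝ)) * (if T.1 ⊆ univ.map F then (1 : ℝ) else 0))
      have h2 : ∑ T : {T : Finset (Fin N) // T.card = m},
            (Upd_na G T.1 / ((k - 2).choose (m - 2) : ℝ) -
              ρ / (k.choose m : ℝ)) * (if T.1 ⊆ univ.map F then (1 : ℝ) else 0) =
          ∑ T ∈ (univ : Finset (Fin N)).powersetCard m,
            (Upd_na G T / ((k - 2).choose (m - 2) : ℝ) -
              ρ / (k.choose m : ℝ)) * (if T ⊆ univ.map F then (1 : ℝ) else 0) :=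
        (Finset.sum_subtype ((univ : Finset (Fin N)).powersetCard m)
          (fun T => by rw [Finset.mem_powersetCard]; exact ⟨fun h => h.2, fun h => ⟨Finset.subset_univ _, h⟩⟩)
          (fun T => (Upd_na G T / ((k - 2).choose (m - 2) : ℝ) -
              ρ / (k.choose m : ℝ)) * (if T ⊆ univ.map F then (1 : ℝ) else 0))).symm
      have h3 : ∑ T ∈ (univ : Finset (Fin N)).powersetCard m,
            (Upd_na G T / ((k - 2).choose (m - 2) : ℝ) -
              ρ / (k.choose m : ℝ)) * (if T ⊆ univ.map F then (1 : ℝ) else 0) =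
          ∑ T ∈ (univ.map F).powersetCard m,
            (Upd_na G T / ((k - 2).choose (m - 2) : ℝ) - ρ / (k.choose m : ℝ)) := by
        have h4 : ∀ T : Finset (Fin N), (Upd_na G T / ((k - 2).choose (m - 2) : ℝ) -
              ρ / (k.choose m : ℝ)) * (if T ⊆ univ.map F then (1 : ℝ) else 0) =
            if T ⊆ univ.map F then (Upd_na G T / ((k - 2).choose (m - 2) : ℝ) -
              ρ / (k.choose m : ℝ)) else 0 := by
          intro T
          rw [mul_ite, mul_one, mul_zero]
        rw [Finset.sum_congr rfl fun T _ => h4 T, ← Finset.sum_filter]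
        refine Finset.sum_congr ?_ fun T _ => rfl
        ext T
        rw [Finset.mem_filter, Finset.mem_powersetCard, Finset.mem_powersetCard]
        exact ⟨fun h => ⟨h.2, h.1.2⟩, fun h => ⟨⟨Finset.subset_univ _, h.2⟩, h.1⟩⟩
      have h4 : ∑ T ∈ (univ.map F).powersetCard m,
            (Upd_na G T / ((k - 2).choose (m - 2) : ℝ) - ρ / (k.choose m : ℝ)) =
          ∑ J ∈ (univ : Finset (Fin k)).powersetCard m,
            (Upd_na G (J.map F) / ((k - 2).choose (m - 2) : ℝ) - ρ / (k.choose m : ℝ)) := by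
        rw [Finset.powersetCard_map, Finset.sum_map]
        rfl
      rw [h1, h2, h3, h4, Finset.sum_sub_distrib, ← Finset.sum_div, Upd_na_map hm, Upd_top,
        Finset.sum_const, Finset.card_powersetCard, Finset.card_univ, Fintype.card_fin, nsmul_eq_mul,
        mul_div_cancel_left₀ _ hA.ne', mul_div_cancel₀ _ hC.ne']
      ring

end Pool.Agent.H9.SD
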