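import Mathlib

/-!
Module Spc.  Polynomial inequalities for positive semidefinite matrices.
`Spc_poly`: spectral theorem (`X = U * diagonal λ * U*`, `λ ≥ 0`), `aeval X p = U * diagonal (p.eval λ) * U*`.
`Spc_one`: the polynomial `t^J (t - a) + a^(J+1)` is `≥ 0` for `t ≥ 0` (for `t ≥ a` clear; for `t < a`: `t^J (a - t) ≤ a^J a`).
`Spc_two`: `t^J (t - a) + a^(J+1) ≥ b^J (t - b)` for `t ≥ 0`: for `t ≥ b`: `t^J (t - a) ≥ b^J (t - b)`; for `t < b` the right side is negative and the left side is `≥ 0`.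
-/

set_option autoImplicit false
set_option linter.unusedSectionVars false

open Finset

namespace Pool.Agent.H9.SD

theorem Spc_poly {R : ℕ} (X : Matrix (Fin R) (Fin R) ℝ) (hX : X.PosSemidef) (p : Polynomial ℝ)
    (hp : ∀ t : ℝ, 0 ≤ t → 0 ≤ p.eval t) : (Polynomial.aeval X p).PosSemidef := by
  have h1 := hX.1.spectral_theorem
  have h2 : Polynomial.aeval X p = (Unitary.conjStarAlgAut ℝ _ hX.1.eigenvectorUnitary)
      (Matrix.diagonal fun i => p.eval (hX.1.eigenvalues i)) := by
    conv_lhs => rw [h1]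
    have h3 := Polynomial.aeval_algHom_apply
      ((Unitary.conjStarAlgAut ℝ (Matrix (Fin R) (Fin R) ℝ)
        hX.1.eigenvectorUnitary).toAlgEquiv.toAlgHom)
      (Matrix.diagonal (RCLike.ofReal ∘ hX.1.eigenvalues)) p
    have h4 := Polynomial.aeval_algHom_apply (Matrix.diagonalAlgHom ℝ (n := Fin R) (α := ℝ))
      (RCLike.ofReal ∘ hX.1.eigenvalues) p
    have h5 : Polynomial.aeval (RCLike.ofReal ∘ hX.1.eigenvalues : Fin R → ℝ) p
        = fun i => p.eval (hX.1.eigenvalues i) := by
      funext i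
      have h6 := Polynomial.aeval_algHom_apply (Pi.evalAlgHom ℝ (fun _ : Fin R => ℝ) i)
        (RCLike.ofReal ∘ hX.1.eigenvalues) p
      rw [Pi.evalAlgHom_apply, Pi.evalAlgHom_apply] at h6
      rw [← h6]
      rfl
    rw [h5] at h4
    refine h3.trans ?_
    exact congrArg _ h4
  rw [h2, Unitary.conjStarAlgAut_apply]
  exact (Matrix.PosSemidef.diagonal (fun i => hp _ (hX.eigenvalues_nonneg i))).mul_mul_conjTranspose_same _

theorem Spc_one {R : ℕ} (X : Matrix (Fin R) (Fin R) ℝ) (hX : X.PosSemidef) (a : ℝ) (ha : 0 ≤ a) (J : ℕ) :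
    (X ^ J * (X - a • 1) + a ^ (J + 1) • (1 : Matrix (Fin R) (Fin R) ℝ)).PosSemidef := by
  have h := Spc_poly X hX (Polynomial.X ^ J * (Polynomial.X - Polynomial.C a)
    + Polynomial.C (a ^ (J + 1))) (by
      intro t ht
      simp only [Polynomial.eval_add, Polynomial.eval_mul, Polynomial.eval_pow, Polynomial.eval_X,
        Polynomial.eval_sub, Polynomial.eval_C]
      rcases le_total a t with h | h
      · have h1 : 0 ≤ t ^ J * (t - a) := mul_nonneg (pow_nonneg ht J) (sub_nonneg.2 h)
        have h2 : 0 ≤ a ^ (J + 1) := pow_nonneg ha _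
        linarith
      · have h1 : t ^ J * (a - t) ≤ a ^ J * a :=
          mul_le_mul (pow_le_pow_left₀ ht h J) (by linarith) (sub_nonneg.2 h) (pow_nonneg ha J)
        rw [pow_succ]
        nlinarith)
  have e : Polynomial.aeval X (Polynomial.X ^ J * (Polynomial.X - Polynomial.C a)
      + Polynomial.C (a ^ (J + 1)))
      = X ^ J * (X - a • 1) + a ^ (J + 1) • (1 : Matrix (Fin R) (Fin R) ℝ) := by
    rw [map_add, map_mul, map_pow, map_sub, Polynomial.aeval_X, Polynomial.aeval_C,
      Polynomial.aeval_C, Algebra.algebraMap_eq_smul_one, Algebra.algebraMap_eq_smul_one]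
  rw [e] at h
  exact h

theorem Spc_two {R : ℕ} (X : Matrix (Fin R) (Fin R) ℝ) (hX : X.PosSemidef) (a b : ℝ) (ha : 0 ≤ a) (hab : a ≤ b)
    (J : ℕ) : (X ^ J * (X - a • 1) + a ^ (J + 1) • (1 : Matrix (Fin R) (Fin R) ℝ) -
      b ^ J • (X - b • 1)).PosSemidef := by
  have hb : 0 ≤ b := ha.trans hab
  have h := Spc_poly X hX (Polynomial.X ^ J * (Polynomial.X - Polynomial.C a)
    + Polynomial.C (a ^ (J + 1)) - Polynomial.C (b ^ J) * (Polynomial.X - Polynomial.C b)) (by
      intro t ht
      simp only [Polynomial.eval_add, Polynomial.eval_mul, Polynomial.eval_pow, Polynomial.eval_X,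
        Polynomial.eval_sub, Polynomial.eval_C]
      have h2 : 0 ≤ a ^ (J + 1) := pow_nonneg ha _
      rcases le_total b t with h | h
      · have h1 : b ^ J * (t - b) ≤ t ^ J * (t - a) :=
          mul_le_mul (pow_le_pow_left₀ hb h J) (by linarith) (sub_nonneg.2 h) (pow_nonneg ht J)
        linarith
      · have h3 : b ^ J * (t - b) ≤ 0 := mul_nonpos_of_nonneg_of_nonpos (pow_nonneg hb J)
          (sub_nonpos.2 h)
        have h4 : 0 ≤ t ^ J * (t - a) + a ^ (J + 1) := by
          rcases le_total a t with h | h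
          · have h1 : 0 ≤ t ^ J * (t - a) := mul_nonneg (pow_nonneg ht J) (sub_nonneg.2 h)
            linarith
          · have h1 : t ^ J * (a - t) ≤ a ^ J * a :=
              mul_le_mul (pow_le_pow_left₀ ht h J) (by linarith) (sub_nonneg.2 h) (pow_nonneg ha J)
            rw [pow_succ]
            nlinarith
        linarith)
  have e : Polynomial.aeval X (Polynomial.X ^ J * (Polynomial.X - Polynomial.C a)
      + Polynomial.C (a ^ (J + 1)) - Polynomial.C (b ^ J) * (Polynomial.X - Polynomial.C b))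
      = X ^ J * (X - a • 1) + a ^ (J + 1) • (1 : Matrix (Fin R) (Fin R) ℝ) -
        b ^ J • (X - b • 1) := by
    rw [map_sub, map_add, map_mul, map_pow, map_sub, map_mul, map_sub, Polynomial.aeval_X,
      Polynomial.aeval_C, Polynomial.aeval_C, Polynomial.aeval_C, Polynomial.aeval_C,
      Algebra.algebraMap_eq_smul_one, Algebra.algebraMap_eq_smul_one,
      Algebra.algebraMap_eq_smul_one, Algebra.algebraMap_eq_smul_one, smul_mul_assoc, one_mul]
  rw [e] at h
  exact h

end Pool.Agent.H9.SD
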