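import Pool.Agent.H9.SD.One

/-!
Module Sum.  Summing over `F`.   Use only the STATEMENTS of Efb and One.
Sum `One_main` over `F ∈ S` and divide by `card (Fin k ↪ ι)`: `∑ F ∈ S, ∑ ψ, trace (Q F * (T ψ * T ψ)) ≤ ∑ F, .. = ∑ ψ, trace ((∑ F, Q F) * (T ψ * T ψ)) ≤ card * ∑ ψ, trace (T ψ * T ψ)` (from `hQ1`: `trace (M * (T * T)) = trace (T * M * T) ≥ 0` for `M` positive semidefinite);
`∑ F ∈ S, trace (Q F) * ∑ a b, ∑ ψ, hi² ≤ τ * ∑ a b, ∑ F, ∑ ψ, hi² ≤ τ * δ * card * ∑ a b, ∑ ψ, (T ψ a b)²` (`Efb_hit`), and `∑ a b, (T ψ a b)² = trace (T ψ * T ψ)`.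
-/

set_option autoImplicit false
set_option linter.unusedSectionVars false

open Finset

namespace Pool.Agent.H9.SD

variable {ι A : Type} [Fintype ι] [DecidableEq ι] [Fintype A] [DecidableEq A] [Nonempty A] {k : ℕ}

theorem Sum_tr {R : ℕ} (M T : Matrix (Fin R) (Fin R) ℝ) (hM : M.PosSemidef) (hT : T.transpose = T) :
    0 ≤ (M * (T * T)).trace := by
  have h := (hM.conjTranspose_mul_mul_same T).trace_nonneg
  rw [Matrix.conjTranspose_eq_transpose_of_trivial, hT] at h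
  have e : (T * M * T).trace = (M * (T * T)).trace := by
    rw [Matrix.trace_mul_comm (T * M) T, ← Matrix.mul_assoc, Matrix.trace_mul_comm]
  rwa [e] at h

theorem Sum_sq {R : ℕ} (T : Matrix (Fin R) (Fin R) ℝ) (hT : T.transpose = T) :
    (T * T).trace = ∑ a, ∑ b, T a b ^ 2 := by
  unfold Matrix.trace
  refine Finset.sum_congr rfl fun a _ => ?_
  rw [Matrix.diag_apply, Matrix.mul_apply]
  refine Finset.sum_congr rfl fun b _ => ?_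
  have h : T b a = T a b := by
    have := congrFun (congrFun hT a) b
    exact this
  rw [h, pow_two]

theorem Sum_main {R : ℕ} (s m : ℕ) (D : (Fin k → A) → ℝ) (L : ℝ) (hL0 : 0 ≤ L) (hL : ∀ x, |D x| ≤ L)
    (hD : ∀ q : (Fin k → A) → ℝ, LowDeg s q → 0 ≤ ∑ x, D x * q x ^ 2)
    (hne : 0 < Fintype.card (Fin k ↪ ι))
    (Q : (Fin k ↪ ι) → Matrix (Fin R) (Fin R) ℝ) (hQ : ∀ F, (Q F).PosSemidef)
    (hQ1 : ((1 : Matrix (Fin R) (Fin R) ℝ) - (1 / (Fintype.card (Fin k ↪ ι) : ℝ)) • ∑ F, Q F).PosSemidef)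
    (S : Finset (Fin k ↪ ι)) (τ : ℝ) (hτ : 0 ≤ τ) (hS : ∀ F ∈ S, (Q F).trace ≤ τ)
    (T : (ι → A) → Matrix (Fin R) (Fin R) ℝ) (hT : ∀ ψ, (T ψ).transpose = T ψ)
    (hTm : ∀ a b, Loc m (fun ψ => T ψ a b)) (η : ℝ) (hη : 0 < η) (δ : ℝ) (hδ0 : 0 ≤ δ)
    (hδ : ∀ B : Finset ι, B.card ≤ m → ((univ.filter (fun F : Fin k ↪ ι => s < (B ∩ im F).card)).card : ℝ) ≤
      δ * Fintype.card (Fin k ↪ ι)) :
    -(L * (η + (1 + 1 / η) * (τ * δ)) * ∑ ψ, (T ψ * T ψ).trace) ≤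
      ∑ ψ : ι → A, (((1 / (Fintype.card (Fin k ↪ ι) : ℝ)) • ∑ F ∈ S, D (ψ ∘ F) • Q F) * (T ψ * T ψ)).trace := by
  have hN : (0 : ℝ) < (Fintype.card (Fin k ↪ ι) : ℝ) := by exact_mod_cast hne
  set Nc : ℝ := (Fintype.card (Fin k ↪ ι) : ℝ) with hNc
  set W : ℝ := ∑ ψ, (T ψ * T ψ).trace with hW
  have hη' : 0 ≤ 1 + 1 / η := by positivity
  -- the right side
  have e1 : ∑ ψ : ι → A, (((1 / Nc) • ∑ F ∈ S, D (ψ ∘ F) • Q F) * (T ψ * T ψ)).trace =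
      (1 / Nc) * ∑ F ∈ S, ∑ ψ : ι → A, D (ψ ∘ F) * (Q F * (T ψ * T ψ)).trace := by
    rw [Finset.sum_comm, Finset.mul_sum]
    refine Finset.sum_congr rfl fun ψ _ => ?_
    rw [Matrix.smul_mul, Matrix.trace_smul, smul_eq_mul, Finset.sum_mul, Matrix.trace_sum]
    congr 1
    refine Finset.sum_congr rfl fun F _ => ?_
    rw [Matrix.smul_mul, Matrix.trace_smul, smul_eq_mul]
  rw [e1]
  -- the first bound
  have hA0 : ∀ F, 0 ≤ ∑ ψ, (Q F * (T ψ * T ψ)).trace := fun F =>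
    Finset.sum_nonneg fun ψ _ => Sum_tr (Q F) (T ψ) (hQ F) (hT ψ)
  have b1 : ∑ F ∈ S, ∑ ψ, (Q F * (T ψ * T ψ)).trace ≤ Nc * W := by
    have c1 : ∑ F ∈ S, ∑ ψ, (Q F * (T ψ * T ψ)).trace ≤ ∑ F, ∑ ψ, (Q F * (T ψ * T ψ)).trace :=
      Finset.sum_le_sum_of_subset_of_nonneg (Finset.subset_univ S) fun F _ _ => hA0 F
    refine c1.trans ?_
    rw [Finset.sum_comm, hW, Finset.mul_sum]
    refine Finset.sum_le_sum fun ψ _ => ?_
    have c2 := Sum_tr _ (T ψ) hQ1 (hT ψ)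
    rw [Matrix.sub_mul, Matrix.trace_sub, Matrix.one_mul, Matrix.smul_mul, Matrix.trace_smul, smul_eq_mul,
      Finset.sum_mul, Matrix.trace_sum] at c2
    have c3 : 1 / Nc * ∑ F, (Q F * (T ψ * T ψ)).trace ≤ (T ψ * T ψ).trace := by linarith
    rw [one_div, inv_mul_le_iff₀ hN] at c3
    exact c3
  -- the second bound
  have hH0 : ∀ F : Fin k ↪ ι, 0 ≤ ∑ a, ∑ b, ∑ ψ, hi s (im F) (fun ψ => T ψ a b) ψ ^ 2 := fun F =>
    Finset.sum_nonneg fun a _ => Finset.sum_nonneg fun b _ => Finset.sum_nonneg fun ψ _ => sq_nonneg _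
  have b2 : ∑ F ∈ S, (Q F).trace * ∑ a, ∑ b, ∑ ψ, hi s (im F) (fun ψ => T ψ a b) ψ ^ 2 ≤
      τ * δ * (Nc * W) := by
    have c1 : ∑ F ∈ S, (Q F).trace * ∑ a, ∑ b, ∑ ψ, hi s (im F) (fun ψ => T ψ a b) ψ ^ 2 ≤
        ∑ F ∈ S, τ * ∑ a, ∑ b, ∑ ψ, hi s (im F) (fun ψ => T ψ a b) ψ ^ 2 :=
      Finset.sum_le_sum fun F hF => mul_le_mul_of_nonneg_right (hS F hF) (hH0 F)
    have c2 : ∑ F ∈ S, τ * ∑ a, ∑ b, ∑ ψ, hi s (im F) (fun ψ => T ψ a b) ψ ^ 2 ≤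
        ∑ F, τ * ∑ a, ∑ b, ∑ ψ, hi s (im F) (fun ψ => T ψ a b) ψ ^ 2 :=
      Finset.sum_le_sum_of_subset_of_nonneg (Finset.subset_univ S) fun F _ _ => mul_nonneg hτ (hH0 F)
    refine c1.trans (c2.trans ?_)
    rw [← Finset.mul_sum, mul_assoc]
    refine mul_le_mul_of_nonneg_left ?_ hτ
    have c3 : ∑ F : Fin k ↪ ι, ∑ a, ∑ b, ∑ ψ, hi s (im F) (fun ψ => T ψ a b) ψ ^ 2 =
        ∑ a, ∑ b, ∑ F : Fin k ↪ ι, ∑ ψ, hi s (im F) (fun ψ => T ψ a b) ψ ^ 2 := by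
      rw [Finset.sum_comm]
      refine Finset.sum_congr rfl fun a _ => ?_
      rw [Finset.sum_comm]
    have c4 : δ * (Nc * W) = ∑ a, ∑ b, δ * Nc * ∑ ψ, T ψ a b ^ 2 := by
      have c5 : W = ∑ a, ∑ b, ∑ ψ, T ψ a b ^ 2 := by
        rw [hW, Finset.sum_congr rfl fun ψ _ => Sum_sq (T ψ) (hT ψ), Finset.sum_comm]
        refine Finset.sum_congr rfl fun a _ => ?_
        rw [Finset.sum_comm]
      rw [c5, ← mul_assoc, Finset.mul_sum]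
      refine Finset.sum_congr rfl fun a _ => ?_
      rw [Finset.mul_sum]
    rw [c3, c4]
    exact Finset.sum_le_sum fun a _ => Finset.sum_le_sum fun b _ =>
      Efb_hit s m (fun F : Fin k ↪ ι => im F) δ (fun ψ => T ψ a b) hδ (hTm a b)
  -- the sum of the inequalities
  have b3 : -(L * (η * (Nc * W) + (1 + 1 / η) * (τ * δ * (Nc * W)))) ≤
      ∑ F ∈ S, ∑ ψ : ι → A, D (ψ ∘ F) * (Q F * (T ψ * T ψ)).trace := by
    refine le_trans ?_ (Finset.sum_le_sum fun F _ =>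
      One_main s D L hL hD F (Q F) (hQ F) T hT η hη)
    rw [Finset.sum_neg_distrib, ← Finset.mul_sum, Finset.sum_add_distrib, ← Finset.mul_sum,
      ← Finset.mul_sum]
    apply neg_le_neg
    refine mul_le_mul_of_nonneg_left ?_ hL0
    exact add_le_add (mul_le_mul_of_nonneg_left b1 hη.le) (mul_le_mul_of_nonneg_left b2 hη')
  have b4 := mul_le_mul_of_nonneg_left b3 (by positivity : (0 : ℝ) ≤ 1 / Nc)
  refine le_trans (le_of_eq ?_) b4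
  have hN' : Nc ≠ 0 := hN.ne'
  field_simp

end Pool.Agent.H9.SD
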